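import Pool.Agent.PolyTree.GoodEdges

/-!
# The cells
-/

set_option autoImplicit false

namespace Pool.Agent.PolyTree

open Finset

variable {V : Type} [Fintype V] [DecidableEq V]

omit [DecidableEq V] in
private theorem ce_f0 (G : SimpleGraph V) [DecidableRel G.Adj] (m : ℕ) (hm : 1 ≤ m)
    (hδ : ∀ v, (m / 2 : ℝ) ≤ G.degree v) (a : V) :
    0 ≤ m * (1 / (G.degree a : ℝ)) ∧ m * (1 / (G.degree a : ℝ)) ≤ 2 := by
  have hmR : (1 : ℝ) ≤ m := by exact_mod_cast hm
  have hd : (0 : ℝ) < G.degree a := by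
    have := hδ a
    linarith
  refine ⟨by positivity, ?_⟩
  rw [mul_one_div, div_le_iff₀ hd]
  have := hδ a
  linarith

private theorem ce_f1 (G : SimpleGraph V) [DecidableRel G.Adj] (m : ℕ) (hm : 1 ≤ m)
    (hδ : ∀ v, (m / 2 : ℝ) ≤ G.degree v) (a : V) :
    0 ≤ m * F1 G a ∧ m * F1 G a ≤ 2 := by
  have hmR : (1 : ℝ) ≤ m := by exact_mod_cast hm
  have hd : ∀ v, (0 : ℝ) < G.degree v := fun v => by
    have := hδ v
    linarith
  constructor
  · unfold F1
    exact mul_nonneg (by linarith) (div_nonneg (Finset.sum_nonneg fun u _ =>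
      (one_div_pos.2 (hd u)).le) (hd a).le)
  · unfold F1
    rw [← mul_div_assoc, div_le_iff₀ (hd a), Finset.mul_sum]
    calc ∑ u ∈ G.neighborFinset a, (m : ℝ) * (1 / (G.degree u : ℝ))
        ≤ ∑ _u ∈ G.neighborFinset a, (2 : ℝ) :=
          Finset.sum_le_sum fun u _ => (ce_f0 G m hm hδ u).2
      _ = 2 * (G.degree a : ℝ) := by
          rw [Finset.sum_const, nsmul_eq_mul, G.card_neighborFinset_eq_degree]
          ring

/-- Pigeonhole: two cells with many good edges.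

Proof. `m * (1 / deg a)` and `m * F1 G a` lie in `[0, 2]` (all degrees are at least `m / 2`). Let
`c0 a = ⌊8 q * (m / deg a)⌋` and `c1 a = ⌊8 q * (m F1 a)⌋`, natural numbers at most `16 q < 17 q`.
Map every good ordered edge `e` of `good_edges` to `(c0 e.1, c1 e.1, c0 e.2, c1 e.2)`, one of
`(17 q) ^ 4 ≤ 2 ^ 17 q ^ 4` values (`Finset.exists_le_card_fiber_of_mul_le_card_of_maps_to` or
similar); there are at least `(1 / (4 q)) m N ≥ N ^ 2 / (4 q ^ 2)` good edges, so some value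
`(i, j, k, l)` is taken at least `N ^ 2 / (2 ^ 19 q ^ 6)` times. `A false` is the set of the `a`
with `c0 a = i`, `c1 a = j`, `A true` the set of the `a` with `c0 a = k`, `c1 a = l`;
`X0 false = (i + 1) / (8 q)`, `X1 false = (j + 1) / (8 q)`, `X0 true = (k + 1) / (8 q)`,
`X1 true = (l + 1) / (8 q)`. The sum is at most `Z e + (P0 + Q0 + P1 + Q1) / (8 q) ≤
1 - 1 / (4 q) + 1 / (8 q)` for any good edge `e` of the class. -/
theorem exists_cells (G : SimpleGraph V) [DecidableRel G.Adj] (m q : ℕ) (hq : 1 ≤ q) (hm : 1 ≤ m)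
    (hδ : ∀ v, (m / 2 : ℝ) ≤ G.degree v) (hN0 : 0 < Fintype.card V)
    (hN : Fintype.card V ≤ q * m)
    (havg : (1 + 1 / (q : ℝ)) * m * Fintype.card V ≤ ∑ v, (G.degree v : ℝ))
    (P Q : Bool → ℝ) (hP : ∀ b, 0 ≤ P b) (hQ : ∀ b, 0 ≤ Q b)
    (hPQ : P false + Q false + P true + Q true ≤ 1) :
    ∃ (A : Bool → Finset V) (X0 X1 : Bool → ℝ),
      (∀ b, ∀ a ∈ A b, m * (1 / (G.degree a : ℝ)) ≤ X0 b) ∧
      (∀ b, ∀ a ∈ A b, m * F1 G a ≤ X1 b) ∧
      (∀ b, 0 ≤ X0 b ∧ X0 b ≤ 3) ∧ (∀ b, 0 ≤ X1 b ∧ X1 b ≤ 3) ∧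
      P false * X0 false + Q false * X1 false + P true * X0 true + Q true * X1 true ≤
        1 - 1 / (8 * q) ∧
      (Fintype.card V : ℝ) ^ 2 / (2 ^ 19 * q ^ 6) ≤
        #{e ∈ A false ×ˢ A true | G.Adj e.1 e.2} := by
  have hqR : (1 : ℝ) ≤ q := by exact_mod_cast hq
  have hq0 : (0 : ℝ) < q := by linarith
  have hmR : (1 : ℝ) ≤ m := by exact_mod_cast hm
  have hNR : (0 : ℝ) < Fintype.card V := by exact_mod_cast hN0
  have hNq : (Fintype.card V : ℝ) ≤ q * m := by exact_mod_cast hN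
  have hgood := good_edges G m q hq hm hδ hN0 havg P Q hP hQ hPQ
  set GE : Finset (V × V) := {e : V × V | G.Adj e.1 e.2 ∧
        m * (P false * (1 / (G.degree e.1 : ℝ)) + Q false * F1 G e.1 +
          P true * (1 / (G.degree e.2 : ℝ)) + Q true * F1 G e.2) ≤ 1 - 1 / (4 * q)} with hGE
  set c0 : V → ℕ := fun a => ⌊8 * q * (m * (1 / (G.degree a : ℝ)))⌋₊ with hc0
  set c1 : V → ℕ := fun a => ⌊8 * q * (m * F1 G a)⌋₊ with hc1
  have hf0 := ce_f0 G m hm hδ
  have hf1 := ce_f1 G m hm hδ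
  have hb : ∀ y : ℝ, y ≤ 2 → ⌊8 * q * y⌋₊ ∈ Finset.range (17 * q) := by
    intro y hy
    rw [Finset.mem_range]
    have h1 : ⌊8 * q * y⌋₊ ≤ 16 * q := by
      apply Nat.floor_le_of_le
      push_cast
      nlinarith
    omega
  have hc0r : ∀ a, c0 a ∈ Finset.range (17 * q) := fun a => hb _ (hf0 a).2
  have hc1r : ∀ a, c1 a ∈ Finset.range (17 * q) := fun a => hb _ (hf1 a).2
  set t : Finset ((ℕ × ℕ) × (ℕ × ℕ)) := (Finset.range (17 * q) ×ˢ Finset.range (17 * q)) ×ˢ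
    (Finset.range (17 * q) ×ˢ Finset.range (17 * q)) with ht
  have htc : (#t : ℝ) = (17 * q) ^ 4 := by
    rw [ht, Finset.card_product, Finset.card_product, Finset.card_range]
    push_cast
    ring
  have htne : t.Nonempty := by
    have h0 : 0 ∈ Finset.range (17 * q) := Finset.mem_range.2 (by omega)
    exact ⟨((0, 0), (0, 0)), Finset.mk_mem_product (Finset.mk_mem_product h0 h0)
      (Finset.mk_mem_product h0 h0)⟩
  have hmap : ∀ e ∈ GE, ((c0 e.1, c1 e.1), (c0 e.2, c1 e.2)) ∈ t := by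
    intro e _
    exact Finset.mk_mem_product (Finset.mk_mem_product (hc0r _) (hc1r _))
      (Finset.mk_mem_product (hc0r _) (hc1r _))
  have hpos : (0 : ℝ) < (Fintype.card V : ℝ) ^ 2 / (2 ^ 19 * q ^ 6) := by positivity
  have hle : #t • ((Fintype.card V : ℝ) ^ 2 / (2 ^ 19 * q ^ 6)) ≤ (#GE : ℝ) := by
    rw [nsmul_eq_mul, htc]
    have h1 : (17 * (q : ℝ)) ^ 4 * ((Fintype.card V : ℝ) ^ 2 / (2 ^ 19 * q ^ 6)) =
        (17 ^ 4 / 2 ^ 19) * ((Fintype.card V : ℝ) ^ 2 / q ^ 2) := by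
      field_simp
    have h2 : (Fintype.card V : ℝ) ^ 2 / q ^ 2 ≤ m * Fintype.card V / q := by
      rw [div_le_div_iff₀ (by positivity) hq0]
      have h3 : (Fintype.card V : ℝ) * (Fintype.card V * q) ≤
          (q * m) * (Fintype.card V * q) :=
        mul_le_mul_of_nonneg_right hNq (by positivity)
      nlinarith
    have h4 : (0 : ℝ) ≤ (Fintype.card V : ℝ) ^ 2 / q ^ 2 := by positivity
    have h5 : (1 / (4 * q : ℝ)) * (m * Fintype.card V) =
        (1 / 4) * (m * Fintype.card V / q) := by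
      field_simp
    rw [h5] at hgood
    rw [h1]
    norm_num at hgood ⊢
    linarith
  obtain ⟨y, hyt, hy⟩ :=
    Finset.exists_le_card_fiber_of_nsmul_le_card_of_maps_to hmap htne hle
  have hne : ({x ∈ GE | ((c0 x.1, c1 x.1), (c0 x.2, c1 x.2)) = y} : Finset (V × V)).Nonempty := by
    rw [← Finset.card_pos]
    have : (0 : ℝ) < #{x ∈ GE | ((c0 x.1, c1 x.1), (c0 x.2, c1 x.2)) = y} :=
      lt_of_lt_of_le hpos hy
    exact_mod_cast this
  obtain ⟨e, he⟩ := hne
  rw [Finset.mem_filter] at he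
  obtain ⟨heG, hey⟩ := he
  obtain ⟨⟨i, j⟩, ⟨k, l⟩⟩ := y
  have hi := hyt
  rw [ht] at hi
  simp only [Finset.mem_product, Finset.mem_range] at hi
  obtain ⟨⟨hi, hj⟩, hk, hl⟩ := hi
  simp only [Prod.mk.injEq] at hey
  obtain ⟨⟨ei, ej⟩, ek, el⟩ := hey
  have hup : ∀ (y : ℝ) (n : ℕ), ⌊8 * q * y⌋₊ = n → y ≤ ((n : ℝ) + 1) / (8 * q) := by
    intro y n hn
    rw [le_div_iff₀ (by positivity)]
    have := Nat.lt_floor_add_one (8 * q * y)
    rw [hn] at this
    linarith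
  have hlo : ∀ (y : ℝ) (n : ℕ), 0 ≤ y → ⌊8 * q * y⌋₊ = n →
      ((n : ℝ) + 1) / (8 * q) ≤ y + 1 / (8 * q) := by
    intro y n hy0 hn
    have h1 : (n : ℝ) ≤ 8 * q * y := by
      rw [← hn]
      exact Nat.floor_le (by positivity)
    rw [add_div]
    have h2 : (n : ℝ) / (8 * q) ≤ y := by
      rw [div_le_iff₀ (by positivity)]
      linarith
    linarith
  have hr : ∀ n : ℕ, n < 17 * q → 0 ≤ ((n : ℝ) + 1) / (8 * q) ∧
      ((n : ℝ) + 1) / (8 * q) ≤ 3 := by
    intro n hn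
    refine ⟨by positivity, ?_⟩
    rw [div_le_iff₀ (by positivity)]
    have h1 : ((n : ℝ) + 1) ≤ 17 * q := by exact_mod_cast hn
    linarith
  refine ⟨fun b => Finset.univ.filter (fun a => c0 a = cond b k i ∧ c1 a = cond b l j),
    fun b => ((cond b k i : ℕ) + 1 : ℝ) / (8 * q),
    fun b => ((cond b l j : ℕ) + 1 : ℝ) / (8 * q), ?_, ?_, ?_, ?_, ?_, ?_⟩
  · intro b a ha
    rw [Finset.mem_filter] at ha
    exact hup _ _ ha.2.1
  · intro b a ha
    rw [Finset.mem_filter] at ha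
    exact hup _ _ ha.2.2
  · intro b
    cases b with
    | true => exact hr k hk
    | false => exact hr i hi
  · intro b
    cases b with
    | true => exact hr l hl
    | false => exact hr j hj
  · change P false * (((i : ℝ) + 1) / (8 * q)) + Q false * (((j : ℝ) + 1) / (8 * q)) +
      P true * (((k : ℝ) + 1) / (8 * q)) + Q true * (((l : ℝ) + 1) / (8 * q)) ≤
        1 - 1 / (8 * q)
    have h1 := mul_le_mul_of_nonneg_left (hlo _ i (hf0 e.1).1 ei) (hP false)
    have h2 := mul_le_mul_of_nonneg_left (hlo _ j (hf1 e.1).1 ej) (hQ false)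
    have h3 := mul_le_mul_of_nonneg_left (hlo _ k (hf0 e.2).1 ek) (hP true)
    have h4 := mul_le_mul_of_nonneg_left (hlo _ l (hf1 e.2).1 el) (hQ true)
    rw [hGE, Finset.mem_filter] at heG
    have h5 := heG.2.2
    have h6 : (P false + Q false + P true + Q true) * (1 / (8 * q)) ≤ 1 * (1 / (8 * (q : ℝ))) :=
      mul_le_mul_of_nonneg_right hPQ (by positivity)
    have h7 : (1 : ℝ) / (4 * q) = 2 * (1 / (8 * q)) := by
      field_simp
      norm_num
    rw [h7] at h5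
    nlinarith
  · refine hy.trans ?_
    have hsub : ({x ∈ GE | ((c0 x.1, c1 x.1), (c0 x.2, c1 x.2)) = ((i, j), (k, l))} :
        Finset (V × V)) ⊆
        {e ∈ (Finset.univ.filter (fun a => c0 a = cond false k i ∧ c1 a = cond false l j)) ×ˢ
          (Finset.univ.filter (fun a => c0 a = cond true k i ∧ c1 a = cond true l j)) |
          G.Adj e.1 e.2} := by
      intro x hx
      rw [Finset.mem_filter] at hx
      obtain ⟨hxG, hxy⟩ := hx
      simp only [Prod.mk.injEq] at hxy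
      rw [hGE, Finset.mem_filter] at hxG
      rw [Finset.mem_filter, Finset.mem_product, Finset.mem_filter, Finset.mem_filter]
      exact ⟨⟨⟨Finset.mem_univ _, hxy.1⟩, ⟨Finset.mem_univ _, hxy.2⟩⟩, hxG.2.1⟩
    exact_mod_cast Finset.card_le_card hsub

end Pool.Agent.PolyTree
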