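import Mathlib

/-!
# The stationary random homomorphism of a tree

A tree on the vertices `0, ..., n` is given by its parent function `q` (`q i < i` for `0 < i`), and
`s i` is the side of the vertex `i` (`s 0 = true`). A nonnegative matrix `ω` is regarded as a
weighted bipartite graph; the random homomorphism starts at a point of the first side with
probability proportional to its row sum and moves along the edges of the tree with probabilities
proportional to `ω`. `Ex ω q s n F` is the expectation of `F`.
-/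

set_option autoImplicit false
set_option linter.unusedSectionVars false
set_option linter.unusedVariables false

namespace Pool.Agent.PolyTree

open Finset

variable {V : Type*} [Fintype V] [DecidableEq V]

/-- The sum of the weights at the point `y` of side `b` (`true` is the first side). -/
noncomputable def row (ω : V → V → ℝ) (b : Bool) (y : V) : ℝ :=
  if b then ∑ v, ω y v else ∑ u, ω u y

/-- The sum of all weights. -/
noncomputable def tot (ω : V → V → ℝ) : ℝ := ∑ u, ∑ v, ω u v

/-- The weight of the edge from the point `y` of side `b` to the point `z` of the other side. -/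
def ew (ω : V → V → ℝ) (b : Bool) (y z : V) : ℝ := if b then ω y z else ω z y

/-- The transition probability from the point `y` of side `b`. -/
noncomputable def ker (ω : V → V → ℝ) (b : Bool) (y z : V) : ℝ := ew ω b y z / row ω b y

/-- The expectation over the random homomorphism of the tree on `0, ..., n`. -/
noncomputable def Ex (ω : V → V → ℝ) (q : ℕ → ℕ) (s : ℕ → Bool) : ℕ → ((ℕ → V) → ℝ) → ℝ
  | 0, F => ∑ y, row ω true y / tot ω * F (fun _ => y)
  | n + 1, F => Ex ω q s n (fun f =>
      ∑ y, ker ω (s (q (n + 1))) (f (q (n + 1))) y * F (Function.update f (n + 1) y))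

/-- The maps of positive probability. -/
def Adm (ω : V → V → ℝ) (q : ℕ → ℕ) (s : ℕ → Bool) (n : ℕ) (f : ℕ → V) : Prop :=
  0 < row ω true (f 0) ∧ ∀ i, 0 < i → i ≤ n → 0 < ew ω (s (q i)) (f (q i)) (f i)

variable {ω : V → V → ℝ} {q : ℕ → ℕ} {s : ℕ → Bool} {n : ℕ}

lemma row_nonneg (hω : ∀ u v, 0 ≤ ω u v) (b : Bool) (y : V) : 0 ≤ row ω b y := by
  unfold row
  split_ifs
  · exact sum_nonneg fun v _ => hω y v
  · exact sum_nonneg fun u _ => hω u y

lemma ew_nonneg (hω : ∀ u v, 0 ≤ ω u v) (b : Bool) (y z : V) : 0 ≤ ew ω b y z := by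
  unfold ew
  split_ifs
  · exact hω y z
  · exact hω z y

lemma ker_nonneg (hω : ∀ u v, 0 ≤ ω u v) (b : Bool) (y z : V) : 0 ≤ ker ω b y z :=
  div_nonneg (ew_nonneg hω b y z) (row_nonneg hω b y)

lemma tot_nonneg (hω : ∀ u v, 0 ≤ ω u v) : 0 ≤ tot ω :=
  sum_nonneg fun u _ => sum_nonneg fun v _ => hω u v

lemma sum_ew (b : Bool) (y : V) : ∑ z, ew ω b y z = row ω b y := by
  unfold ew row
  cases b <;> simp

lemma ew_symm (b : Bool) (y z : V) : ew ω b y z = ew ω (!b) z y := by
  unfold ew
  cases b <;> simp

lemma sum_row (b : Bool) : ∑ y, row ω b y = tot ω := by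
  unfold row tot
  cases b
  · simp only [Bool.false_eq_true, if_false]
    exact sum_comm
  · simp

lemma ew_le_row (hω : ∀ u v, 0 ≤ ω u v) (b : Bool) (y z : V) : ew ω b y z ≤ row ω b y := by
  rw [← sum_ew]
  exact single_le_sum (f := fun z => ew ω b y z) (fun z _ => ew_nonneg hω b y z) (mem_univ z)

lemma sum_ker {b : Bool} {y : V} (h : 0 < row ω b y) : ∑ z, ker ω b y z = 1 := by
  unfold ker
  rw [← sum_div, sum_ew, div_self h.ne']

/-- The basic comparison. -/
theorem Ex_mono (hω : ∀ u v, 0 ≤ ω u v) (n : ℕ) (F F' : (ℕ → V) → ℝ)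
    (hq : ∀ i, 0 < i → q i < i)
    (h : ∀ f, Adm ω q s n f → F f ≤ F' f) : Ex ω q s n F ≤ Ex ω q s n F' := by
  induction n generalizing F F' with
  | zero =>
    refine sum_le_sum fun y _ => ?_
    rcases (row_nonneg hω true y).eq_or_lt with h0 | h0
    · rw [← h0]; simp
    · exact mul_le_mul_of_nonneg_left (h _ ⟨h0, fun i h1 h2 => absurd h1 (by omega)⟩)
        (div_nonneg h0.le (tot_nonneg hω))
  | succ n ih =>
    refine ih _ _ fun f hf => sum_le_sum fun y _ => ?_
    rcases (ew_nonneg hω (s (q (n + 1))) (f (q (n + 1))) y).eq_or_lt with h0 | h0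
    · unfold ker
      rw [← h0]; simp
    · refine mul_le_mul_of_nonneg_left (h _ ⟨?_, fun i h1 h2 => ?_⟩) (ker_nonneg hω _ _ _)
      · rw [Function.update_of_ne (by omega)]
        exact hf.1
      · have h3 := hq i h1
        rw [Function.update_of_ne (show q i ≠ n + 1 by omega)]
        by_cases h4 : i = n + 1
        · subst h4
          rw [Function.update_self]
          exact h0
        · rw [Function.update_of_ne h4]
          exact hf.2 i h1 (by omega)

lemma Ex_congr (hω : ∀ u v, 0 ≤ ω u v) (n : ℕ) (F F' : (ℕ → V) → ℝ)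
    (hq : ∀ i, 0 < i → q i < i)
    (h : ∀ f, Adm ω q s n f → F f = F' f) : Ex ω q s n F = Ex ω q s n F' :=
  le_antisymm (Ex_mono hω n F F' hq fun f hf => (h f hf).le)
    (Ex_mono hω n F' F hq fun f hf => (h f hf).ge)

lemma Ex_add (n : ℕ) (F F' : (ℕ → V) → ℝ) :
    Ex ω q s n (fun f => F f + F' f) = Ex ω q s n F + Ex ω q s n F' := by
  induction n generalizing F F' with
  | zero => simp only [Ex, mul_add, sum_add_distrib]
  | succ n ih =>
    simp only [Ex, mul_add, sum_add_distrib]
    exact ih _ _

lemma Ex_smul (n : ℕ) (c : ℝ) (F : (ℕ → V) → ℝ) :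
    Ex ω q s n (fun f => c * F f) = c * Ex ω q s n F := by
  induction n generalizing F with
  | zero =>
    simp only [Ex]
    rw [mul_sum]
    exact sum_congr rfl fun y _ => by ring
  | succ n ih =>
    simp only [Ex]
    rw [← ih]
    congr 1
    ext f
    rw [mul_sum]
    exact sum_congr rfl fun y _ => by ring

lemma Ex_zero (n : ℕ) : Ex ω q s n (fun _ => 0) = 0 := by
  have := Ex_smul (ω := ω) (q := q) (s := s) n 0 (fun _ => 0)
  simpa using this

lemma Ex_sub (n : ℕ) (F F' : (ℕ → V) → ℝ) :
    Ex ω q s n (fun f => F f - F' f) = Ex ω q s n F - Ex ω q s n F' := by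
  have h1 := Ex_add (ω := ω) (q := q) (s := s) n F (fun f => (-1) * F' f)
  rw [Ex_smul] at h1
  have h2 : (fun f => F f - F' f) = fun f => F f + (-1) * F' f := by
    ext f; ring
  rw [h2, h1]
  ring

lemma Ex_sum {κ : Type*} (t : Finset κ) (n : ℕ) (F : κ → (ℕ → V) → ℝ) :
    Ex ω q s n (fun f => ∑ k ∈ t, F k f) = ∑ k ∈ t, Ex ω q s n (F k) := by
  classical
  induction t using Finset.induction_on with
  | empty => simp [Ex_zero]
  | insert a t ha ih =>
    rw [sum_insert ha, ← ih, ← Ex_add]
    congr 1
    ext f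
    rw [sum_insert ha]

lemma Adm.row_pos (hω : ∀ u v, 0 ≤ ω u v) (hq : ∀ i, 0 < i → q i < i) (hs0 : s 0 = true)
    (hs : ∀ i, 0 < i → s i = !s (q i)) {f : ℕ → V} (hf : Adm ω q s n f) {i : ℕ} (hi : i ≤ n) :
    0 < row ω (s i) (f i) := by
  rcases Nat.eq_zero_or_pos i with h0 | h0
  · subst h0
    rw [hs0]
    exact hf.1
  · have h1 := hf.2 i h0 hi
    rw [ew_symm, ← hs i h0] at h1
    exact h1.trans_le (ew_le_row hω _ _ _)

lemma Ex_one (hω : ∀ u v, 0 ≤ ω u v) (hq : ∀ i, 0 < i → q i < i) (hs0 : s 0 = true)
    (hs : ∀ i, 0 < i → s i = !s (q i)) (ht : 0 < tot ω) (n : ℕ) :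
    Ex ω q s n (fun _ => (1 : ℝ)) = 1 := by
  induction n with
  | zero =>
    simp only [Ex, mul_one]
    rw [← sum_div, sum_row, div_self ht.ne']
  | succ n ih =>
    simp only [Ex, mul_one]
    rw [← ih]
    refine Ex_congr hω n _ _ hq fun f hf => ?_
    exact sum_ker (hf.row_pos hω hq hs0 hs (by have := hq (n + 1) (by omega); omega))

lemma Ex_const (hω : ∀ u v, 0 ≤ ω u v) (hq : ∀ i, 0 < i → q i < i) (hs0 : s 0 = true)
    (hs : ∀ i, 0 < i → s i = !s (q i)) (ht : 0 < tot ω) (n : ℕ) (c : ℝ) :
    Ex ω q s n (fun _ => c) = c := by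
  have h1 := Ex_smul (ω := ω) (q := q) (s := s) n c (fun _ => (1 : ℝ))
  rw [Ex_one hω hq hs0 hs ht] at h1
  simpa using h1

/-- Adding the last vertex does not change the expectation of a function of the other ones. -/
lemma Ex_succ_of_indep (hω : ∀ u v, 0 ≤ ω u v) (hq : ∀ i, 0 < i → q i < i) (hs0 : s 0 = true)
    (hs : ∀ i, 0 < i → s i = !s (q i)) (n : ℕ) (F : (ℕ → V) → ℝ)
    (hF : ∀ f y, F (Function.update f (n + 1) y) = F f) :
    Ex ω q s (n + 1) F = Ex ω q s n F := by
  simp only [Ex, hF]
  refine Ex_congr hω n _ _ hq fun f hf => ?_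
  rw [← sum_mul, sum_ker (hf.row_pos hω hq hs0 hs (by have := hq (n + 1) (by omega); omega)),
    one_mul]

/-- The marginals are stationary. -/
theorem Ex_marg (hω : ∀ u v, 0 ≤ ω u v) (hq : ∀ i, 0 < i → q i < i) (hs0 : s 0 = true)
    (hs : ∀ i, 0 < i → s i = !s (q i)) (n i : ℕ) (hi : i ≤ n) (H : V → ℝ) :
    Ex ω q s n (fun f => H (f i)) = ∑ y, row ω (s i) y / tot ω * H y := by
  induction n generalizing i H with
  | zero =>
    obtain rfl : i = 0 := by omega
    simp only [Ex, hs0]
  | succ n ih =>
    by_cases h : i ≤ n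
    · rw [Ex_succ_of_indep hω hq hs0 hs, ih i h]
      intro f y
      rw [Function.update_of_ne (by omega)]
    · obtain rfl : i = n + 1 := by omega
      have h1 := hq (n + 1) (by omega)
      simp only [Ex, Function.update_self]
      rw [ih (q (n + 1)) (by omega) (fun z => ∑ y, ker ω (s (q (n + 1))) z y * H y)]
      have h2 : ∀ y, row ω (s (n + 1)) y = ∑ z, ew ω (s (q (n + 1))) z y := by
        intro y
        rw [← sum_ew, hs (n + 1) (by omega)]
        exact sum_congr rfl fun z _ => (ew_symm _ _ _).symm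
      simp only [mul_sum]
      rw [sum_comm]
      refine sum_congr rfl fun y _ => ?_
      rw [h2, sum_div, sum_mul]
      refine sum_congr rfl fun z _ => ?_
      rcases (row_nonneg hω (s (q (n + 1))) z).eq_or_lt with h3 | h3
      · have h4 : ew ω (s (q (n + 1))) z y = 0 :=
          le_antisymm ((ew_le_row hω _ _ _).trans h3.ge) (ew_nonneg hω _ _ _)
        rw [← h3, h4]
        simp
      · unfold ker
        field_simp

/-- The probability of a coincidence. -/
theorem Ex_coll (hω : ∀ u v, 0 ≤ ω u v) (hq : ∀ i, 0 < i → q i < i) (hs0 : s 0 = true)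
    (hs : ∀ i, 0 < i → s i = !s (q i)) (ht : 0 < tot ω) (B : ℝ) (hB : ∀ u v, ω u v ≤ B)
    (n i j : ℕ) (hij : i < j) (hj : j ≤ n) :
    Ex ω q s n (fun f => if f i = f j then 1 else 0) ≤ Fintype.card V * B / tot ω := by
  induction n with
  | zero => omega
  | succ n ih =>
    by_cases h : j ≤ n
    · rw [Ex_succ_of_indep hω hq hs0 hs]
      · exact ih h
      · intro f y
        rw [Function.update_of_ne (by omega), Function.update_of_ne (by omega)]
    · obtain rfl : j = n + 1 := by omega
      have h1 := hq (n + 1) (by omega)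
      simp only [Ex, Function.update_self, Function.update_of_ne (show i ≠ n + 1 by omega)]
      set b := s (q (n + 1)) with hb
      have h2 : Ex ω q s n (fun f => ∑ y, ker ω b (f (q (n + 1))) y * if f i = y then 1 else 0) ≤
          Ex ω q s n (fun f => (fun z => if 0 < row ω b z then B / row ω b z else 0)
            (f (q (n + 1)))) := by
        refine Ex_mono hω n _ _ hq fun f hf => ?_
        have h3 := hf.row_pos hω hq hs0 hs (show q (n + 1) ≤ n by omega)
        rw [← hb] at h3
        simp only [mul_ite, mul_one, mul_zero, sum_ite_eq, mem_univ, if_true, if_pos h3]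
        unfold ker
        gcongr
        unfold ew
        split_ifs <;> exact hB _ _
      refine h2.trans ?_
      have h6 := Ex_marg hω hq hs0 hs n (q (n + 1)) (by omega)
        (fun z => if 0 < row ω b z then B / row ω b z else 0)
      rw [← hb] at h6
      refine h6.le.trans ?_
      have h4 : ∀ y, row ω b y / tot ω * (if 0 < row ω b y then B / row ω b y else 0) ≤
          B / tot ω := by
        intro y
        have hB0 : 0 ≤ B := (hω y y).trans (hB y y)
        split_ifs with h5
        · apply le_of_eq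
          field_simp
        · rw [mul_zero]
          positivity
      refine (sum_le_sum fun y _ => h4 y).trans ?_
      rw [sum_const, card_univ, nsmul_eq_mul]
      apply le_of_eq
      ring

end Pool.Agent.PolyTree
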