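import Pool.Agent.PolyTree.Defs

/-!
# Cleaning a pair of cells
-/

set_option autoImplicit false

namespace Pool.Agent.PolyTree

open Finset

variable {V : Type} [Fintype V] [DecidableEq V]

private def ee (G : SimpleGraph V) [DecidableRel G.Adj] (A : Bool → Finset V) : ℕ :=
  #{e ∈ A false ×ˢ A true | G.Adj e.1 e.2}

private theorem ee_eq (G : SimpleGraph V) [DecidableRel G.Adj] (A : Bool → Finset V) (b : Bool) :
    ee G A = ∑ x ∈ A b, #(G.neighborFinset x ∩ A (!b)) := by
  unfold ee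
  rw [Finset.card_filter]
  cases b
  · rw [Finset.sum_product]
    refine Finset.sum_congr rfl fun x _ => ?_
    rw [← Finset.card_filter]
    congr 1
    ext y
    simp [and_comm]
  · rw [Finset.sum_product_right]
    refine Finset.sum_congr rfl fun y _ => ?_
    rw [← Finset.card_filter]
    congr 1
    ext x
    simp [and_comm, G.adj_comm]

private theorem sum_upd (A : Bool → Finset V) (b : Bool) (T : Finset V) (F : Finset V → ℝ) :
    ∑ c, F (Function.update A b T c) = ∑ c, F (A c) + F T - F (A b) := by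
  cases b <;> simp [Function.update] <;> ring

private noncomputable def phi (G : SimpleGraph V) [DecidableRel G.Adj] (x y z : ℝ)
    (A : Bool → Finset V) : ℝ :=
  ee G A - x * ∑ b, (#(A b) : ℝ) -
    y * ∑ b, ∑ u, min (#(G.neighborFinset u ∩ A b) : ℝ) z

private theorem phi_le (G : SimpleGraph V) [DecidableRel G.Adj] {x y z : ℝ} (hx : 0 ≤ x)
    (hy : 0 ≤ y) (hz : 0 ≤ z) (A : Bool → Finset V) : phi G x y z A ≤ ee G A := by
  unfold phi
  have h1 : 0 ≤ x * ∑ b, (#(A b) : ℝ) :=
    mul_nonneg hx (Finset.sum_nonneg fun _ _ => Nat.cast_nonneg _)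
  have h2 : 0 ≤ y * ∑ b, ∑ u, min (#(G.neighborFinset u ∩ A b) : ℝ) z :=
    mul_nonneg hy (Finset.sum_nonneg fun _ _ => Finset.sum_nonneg fun _ _ =>
      le_min (Nat.cast_nonneg _) hz)
  linarith

private theorem le_phi (G : SimpleGraph V) [DecidableRel G.Adj] {x y z : ℝ} (hx : 0 ≤ x)
    (hy : 0 ≤ y) (A : Bool → Finset V) :
    ee G A - x * (2 * Fintype.card V) - y * (2 * (Fintype.card V * z)) ≤ phi G x y z A := by
  unfold phi
  have h1 : ∑ b, (#(A b) : ℝ) ≤ 2 * Fintype.card V := by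
    rw [Fintype.sum_bool]
    have h2 : ∀ b, (#(A b) : ℝ) ≤ Fintype.card V := fun b => by
      exact_mod_cast Finset.card_le_univ _
    linarith [h2 true, h2 false]
  have h2 : ∑ b, ∑ u, min (#(G.neighborFinset u ∩ A b) : ℝ) z ≤ 2 * (Fintype.card V * z) := by
    rw [Fintype.sum_bool]
    have h3 : ∀ b, ∑ u, min (#(G.neighborFinset u ∩ A b) : ℝ) z ≤ Fintype.card V * z := by
      intro b
      have h4 := Finset.sum_le_card_nsmul (Finset.univ : Finset V)
        (fun u => min (#(G.neighborFinset u ∩ A b) : ℝ) z) z fun u _ => min_le_right _ _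
      rw [nsmul_eq_mul, Finset.card_univ] at h4
      exact h4
    linarith [h3 true, h3 false]
  have h3 := mul_le_mul_of_nonneg_left h1 hx
  have h4 := mul_le_mul_of_nonneg_left h2 hy
  linarith

private theorem phi_erase (G : SimpleGraph V) [DecidableRel G.Adj] {x y z : ℝ}
    (hy : 0 ≤ y) (A : Bool → Finset V) {b : Bool} {a : V} (ha : a ∈ A b)
    (h : phi G x y z (Function.update A b ((A b).erase a)) ≤ phi G x y z A) :
    x + y * #{u ∈ G.neighborFinset a | (#(G.neighborFinset u ∩ A b) : ℝ) ≤ z} ≤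
      #(G.neighborFinset a ∩ A (!b)) := by
  set A' := Function.update A b ((A b).erase a) with hA'
  have hb : A' b = (A b).erase a := Function.update_self b _ A
  have hb' : A' (!b) = A (!b) := Function.update_of_ne (by cases b <;> decide) _ A
  have h1 : (ee G A : ℝ) = ee G A' + #(G.neighborFinset a ∩ A (!b)) := by
    rw [ee_eq G A b, ee_eq G A' b, hb, hb', ← Finset.sum_erase_add _ _ ha]
    push_cast
    ring
  have h2 : ∑ c, (#(A' c) : ℝ) = ∑ c, (#(A c) : ℝ) - 1 := by
    have h3 := sum_upd A b ((A b).erase a) fun S => (#S : ℝ)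
    rw [← hA'] at h3
    have h4 : (#((A b).erase a) : ℝ) = #(A b) - 1 := by
      have h5 := Finset.card_erase_add_one ha
      have h6 : ((#((A b).erase a) + 1 : ℕ) : ℝ) = #(A b) := by exact_mod_cast h5
      push_cast at h6
      linarith
    rw [h3, h4]
    ring
  have h3 : ∑ c, ∑ u, min (#(G.neighborFinset u ∩ A' c) : ℝ) z +
      #{u ∈ G.neighborFinset a | (#(G.neighborFinset u ∩ A b) : ℝ) ≤ z} ≤
      ∑ c, ∑ u, min (#(G.neighborFinset u ∩ A c) : ℝ) z := by
    have h4 := sum_upd A b ((A b).erase a) fun S =>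
      ∑ u, min (#(G.neighborFinset u ∩ S) : ℝ) z
    rw [← hA'] at h4
    have h5 : ∑ u, min (#(G.neighborFinset u ∩ (A b).erase a) : ℝ) z +
        #{u ∈ G.neighborFinset a | (#(G.neighborFinset u ∩ A b) : ℝ) ≤ z} ≤
        ∑ u, min (#(G.neighborFinset u ∩ A b) : ℝ) z := by
      have h6 : (#{u ∈ G.neighborFinset a | (#(G.neighborFinset u ∩ A b) : ℝ) ≤ z} : ℝ) =
          ∑ u, if u ∈ G.neighborFinset a ∧ (#(G.neighborFinset u ∩ A b) : ℝ) ≤ z then (1 : ℝ)
            else 0 := by
        rw [Finset.sum_boole]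
        congr 2
        ext u
        simp
      rw [h6, ← Finset.sum_add_distrib]
      refine Finset.sum_le_sum fun u _ => ?_
      have h7 : (#(G.neighborFinset u ∩ (A b).erase a) : ℝ) ≤
          #(G.neighborFinset u ∩ A b) := by
        exact_mod_cast Finset.card_le_card
          (Finset.inter_subset_inter_left (Finset.erase_subset a (A b)))
      split_ifs with h8
      · have h9 : a ∈ G.neighborFinset u ∩ A b := by
          rw [Finset.mem_inter]
          refine ⟨?_, ha⟩
          have h10 := h8.1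
          rw [SimpleGraph.mem_neighborFinset] at h10 ⊢
          exact h10.symm
        have h10 : G.neighborFinset u ∩ (A b).erase a = (G.neighborFinset u ∩ A b).erase a := by
          ext v
          simp only [Finset.mem_inter, Finset.mem_erase]
          tauto
        have h11 := Finset.card_erase_add_one h9
        have h12 : ((#((G.neighborFinset u ∩ A b).erase a) + 1 : ℕ) : ℝ) =
            #(G.neighborFinset u ∩ A b) := by exact_mod_cast h11
        push_cast at h12
        rw [h10, min_eq_left h8.2]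
        have h13 := min_le_left (#((G.neighborFinset u ∩ A b).erase a) : ℝ) z
        linarith
      · rw [add_zero]
        exact min_le_min_right z h7
    rw [h4]
    linarith
  have h4 := mul_le_mul_of_nonneg_left h3 hy
  unfold phi at h
  rw [h2, h1] at h
  linarith

/-- The maximisation.

Proof. Let `N = card V`, `θ = 1 / (2 ^ 19 q ^ 6)`, `ζ = θ / 8 = 1 / (2 ^ 22 q ^ 6)`,
`β = 1 / (2 ^ 13 q ^ 2)`, `ζ' = β θ / 8 = 1 / (2 ^ 35 q ^ 8)`. Over all pairs `A ⊆ A₀ false`,
`B ⊆ A₀ true` maximise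
`Φ (A, B) = e (A, B) - ζ N (#A + #B) - (1 / β) ∑ u, (min #(N(u) ∩ A) (ζ' N) +
min #(N(u) ∩ B) (ζ' N))`, where `e (A, B)` is the number of the pairs in `A ×ˢ B` which are
adjacent. `Φ (A₀ false, A₀ true) ≥ θ N ^ 2 - 2 ζ N ^ 2 - (1 / β) N * 2 ζ' N = θ N ^ 2 / 2 > 0`,
so `Φ (A, B) > 0` and `e (A, B) > 0`, so `A` and `B` are not empty. For `a ∈ A`:
`Φ (A.erase a, B) ≤ Φ (A, B)` says
`ζ N + (1 / β) ∑ u, (min #(N(u) ∩ A) (ζ' N) - min #(N(u) ∩ A.erase a) (ζ' N)) ≤ #(N(a) ∩ B)`; the
terms of the sum are `≥ 0`, and they are `1` for every `u ∈ N(a)` with `#(N(u) ∩ A) ≤ ζ' N`. So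
`ζ N ≤ #(N(a) ∩ B)` and `#(N(a) ∩ Bad) ≤ β #(N(a) ∩ B) ≤ β deg a`. The same for `b ∈ B`. -/
theorem exists_clean (G : SimpleGraph V) [DecidableRel G.Adj] (q : ℕ) (hq : 1 ≤ q)
    (hN0 : 0 < Fintype.card V) (A₀ : Bool → Finset V)
    (hA₀ : (Fintype.card V : ℝ) ^ 2 / (2 ^ 19 * q ^ 6) ≤
      #{e ∈ A₀ false ×ˢ A₀ true | G.Adj e.1 e.2}) :
    ∃ A : Bool → Finset V, (∀ b, A b ⊆ A₀ b) ∧ (∀ b, (A b).Nonempty) ∧
      (∀ b, ∀ a ∈ A b, (Fintype.card V : ℝ) / (2 ^ 22 * q ^ 6) ≤
        #(G.neighborFinset a ∩ A (!b))) ∧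
      (∀ b, ∀ a ∈ A b, (#(G.neighborFinset a ∩ Bad G q A b) : ℝ) ≤
        G.degree a / (2 ^ 13 * q ^ 2)) := by
  set N : ℝ := (Fintype.card V : ℝ) with hN
  have hNp : 0 < N := by
    rw [hN]
    exact_mod_cast hN0
  have hq0 : (0 : ℝ) < q := by exact_mod_cast hq
  set x : ℝ := N / (2 ^ 22 * q ^ 6) with hx
  set y : ℝ := 2 ^ 13 * q ^ 2 with hy
  set z : ℝ := N / (2 ^ 35 * q ^ 8) with hz
  have hx0 : 0 < x := by positivity
  have hy0 : 0 < y := by positivity
  have hz0 : 0 < z := by positivity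
  obtain ⟨A, hA, hmax⟩ := Finset.exists_max_image
    (Finset.univ.filter fun A : Bool → Finset V => ∀ b, A b ⊆ A₀ b) (phi G x y z)
    ⟨A₀, by simp⟩
  have hsub : ∀ b, A b ⊆ A₀ b := (Finset.mem_filter.1 hA).2
  have h0 : 0 < (ee G A : ℝ) := by
    have h1 := hmax A₀ (by simp)
    have h2 := phi_le G hx0.le hy0.le hz0.le A
    have h3 := le_phi G (z := z) hx0.le hy0.le A₀
    have h4 : N ^ 2 / (2 ^ 19 * q ^ 6) ≤ (ee G A₀ : ℝ) := hA₀
    have h5 : N ^ 2 / (2 ^ 19 * (q : ℝ) ^ 6) = 8 * (x * N) := by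
      rw [hx]
      field_simp
      norm_num
    have h6 : y * (2 * (N * z)) = 2 * (x * N) := by
      rw [hx, hy, hz]
      field_simp
    have h7 : 0 < x * N := by positivity
    rw [← hN] at h3
    linarith
  have hne : ∀ b, (A b).Nonempty := by
    intro b
    by_contra hcon
    rw [Finset.not_nonempty_iff_eq_empty] at hcon
    rw [ee_eq G A b, hcon] at h0
    simp at h0
  have key : ∀ b, ∀ a ∈ A b,
      x + y * #{u ∈ G.neighborFinset a | (#(G.neighborFinset u ∩ A b) : ℝ) ≤ z} ≤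
      #(G.neighborFinset a ∩ A (!b)) := by
    intro b a ha
    refine phi_erase G hy0.le A ha (hmax _ ?_)
    refine Finset.mem_filter.2 ⟨Finset.mem_univ _, fun c => ?_⟩
    by_cases hc : c = b
    · subst hc
      rw [Function.update_self]
      exact (Finset.erase_subset a _).trans (hsub c)
    · rw [Function.update_of_ne hc]
      exact hsub c
  refine ⟨A, hsub, hne, fun b a ha => ?_, fun b a ha => ?_⟩
  · have h1 := key b a ha
    have h2 : 0 ≤ y * #{u ∈ G.neighborFinset a | (#(G.neighborFinset u ∩ A b) : ℝ) ≤ z} := by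
      positivity
    linarith
  · have h1 := key b a ha
    have h2 : G.neighborFinset a ∩ Bad G q A b =
        {u ∈ G.neighborFinset a | (#(G.neighborFinset u ∩ A b) : ℝ) ≤ z} := by
      ext u
      simp only [Bad, Finset.mem_inter, Finset.mem_filter, Finset.mem_univ, true_and]
      rfl
    have h3 : (#(G.neighborFinset a ∩ A (!b)) : ℝ) ≤ G.degree a := by
      rw [← SimpleGraph.card_neighborFinset_eq_degree]
      exact_mod_cast Finset.card_le_card Finset.inter_subset_left
    rw [h2, le_div_iff₀ hy0]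
    linarith

end Pool.Agent.PolyTree
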