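import Pool.Agent.PolyTree.Cells
import Pool.Agent.PolyTree.Clean

/-!
# The classes of the seeds
-/

set_option autoImplicit false

namespace Pool.Agent.PolyTree

open Finset

variable {V : Type} [Fintype V] [DecidableEq V]

theorem exists_classes (G : SimpleGraph V) [DecidableRel G.Adj] (m q : ℕ) (hq : 1 ≤ q)
    (hm : 1 ≤ m) (hδ : ∀ v, (m / 2 : ℝ) ≤ G.degree v) (hN0 : 0 < Fintype.card V)
    (hN : Fintype.card V ≤ q * m)
    (havg : (1 + 1 / (q : ℝ)) * m * Fintype.card V ≤ ∑ v, (G.degree v : ℝ))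
    (P Q : Bool → ℝ) (hP : ∀ b, 0 ≤ P b) (hQ : ∀ b, 0 ≤ Q b)
    (hPQ : P false + Q false + P true + Q true ≤ 1) :
    ∃ (A : Bool → Finset V) (X0 X1 : Bool → ℝ), Cls G m q A X0 X1 ∧
      P false * X0 false + Q false * X1 false + P true * X0 true + Q true * X1 true ≤
        1 - 1 / (8 * q) := by
  obtain ⟨A₀, X0, X1, h1, h2, h3, h4, h5, h6⟩ :=
    exists_cells G m q hq hm hδ hN0 hN havg P Q hP hQ hPQ
  obtain ⟨A, g1, g2, g3, g4⟩ := exists_clean G q hq hN0 A₀ h6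
  exact ⟨A, X0, X1, ⟨g2, fun b a ha => h1 b a (g1 b ha), fun b a ha => h2 b a (g1 b ha),
    fun b => (h3 b).1, fun b => (h4 b).1, fun b => (h3 b).2, fun b => (h4 b).2, g3, g4⟩, h5⟩

end Pool.Agent.PolyTree
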