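import Pool.Agent.PolyTree.Multi

/-!
# A dense colour
-/

set_option autoImplicit false

namespace Pool.Agent.PolyTree

open Finset

/-- The graph of colour `i`. -/
def colourGraph {r k : ℕ} (c : Sym2 (Fin r) → Fin k) (i : Fin k) : SimpleGraph (Fin r) where
  Adj x y := x ≠ y ∧ c s(x, y) = i
  symm.symm x y := by
    rintro ⟨h1, h2⟩
    exact ⟨h1.symm, by rw [Sym2.eq_swap]; exact h2⟩
  loopless.irrefl x h := h.1 rfl

instance {r k : ℕ} (c : Sym2 (Fin r) → Fin k) (i : Fin k) :
    DecidableRel (colourGraph c i).Adj := fun x y =>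
  inferInstanceAs (Decidable (x ≠ y ∧ c s(x, y) = i))

private theorem colour_degree {r k : ℕ} (c : Sym2 (Fin r) → Fin k) (v : Fin r) :
    ∑ i, ((colourGraph c i).degree v : ℝ) = (r : ℝ) - 1 := by
  have h1 : ∀ i, (colourGraph c i).degree v =
      ((univ.erase v).filter (fun w => c s(v, w) = i)).card := by
    intro i
    rw [← SimpleGraph.card_neighborFinset_eq_degree]
    congr 1
    ext w
    rw [SimpleGraph.mem_neighborFinset, mem_filter, mem_erase]
    constructor
    · rintro ⟨h2, h3⟩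
      exact ⟨⟨h2.symm, mem_univ _⟩, h3⟩
    · rintro ⟨⟨h2, _⟩, h3⟩
      exact ⟨h2.symm, h3⟩
  have h2 : ∑ i, (colourGraph c i).degree v = r - 1 := by
    rw [sum_congr rfl fun i _ => h1 i,
      ← card_eq_sum_card_fiberwise (f := fun w => c s(v, w)) (s := univ.erase v) (t := univ)
        (fun _ _ => mem_coe.2 (mem_univ _)), card_erase_of_mem (mem_univ v), card_univ,
      Fintype.card_fin]
  have h3 : 1 ≤ r := by
    have := v.isLt
    omega
  have h4 : ((∑ i, (colourGraph c i).degree v : ℕ) : ℝ) = (r : ℝ) - 1 := by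
    rw [h2, Nat.cast_sub h3, Nat.cast_one]
  rw [← h4]
  push_cast
  rfl

/-- Some colour `i` has average degree at least `d i` if `∑ d i ≤ r - 1`.

Proof. `∑ i, ∑ v, degree = ∑ v, #{w | w ≠ v} = r (r - 1)` (exchange the sums), so if all
`d i * r > ∑ v, degree_i v` then `(∑ d i) * r > r (r - 1)` by `sum_lt_sum_of_nonempty`. -/
theorem exists_colour {r k : ℕ} (hk : 0 < k) (c : Sym2 (Fin r) → Fin k) (d : Fin k → ℝ)
    (hd : ∑ i, d i ≤ (r : ℝ) - 1) :
    ∃ i, d i * r ≤ ∑ v, ((colourGraph c i).degree v : ℝ) := by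
  by_contra hcon
  push Not at hcon
  have hne : (univ : Finset (Fin k)).Nonempty := ⟨⟨0, hk⟩, mem_univ _⟩
  have h1 : ∑ i, ∑ v, ((colourGraph c i).degree v : ℝ) < ∑ i, d i * r :=
    sum_lt_sum_of_nonempty hne fun i _ => hcon i
  rw [sum_comm, sum_congr rfl fun v _ => colour_degree c v, sum_const, card_univ,
    Fintype.card_fin, nsmul_eq_mul, ← sum_mul] at h1
  have h2 : (∑ i, d i) * (r : ℝ) ≤ ((r : ℝ) - 1) * r :=
    mul_le_mul_of_nonneg_right hd (Nat.cast_nonneg r)
  linarith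

end Pool.Agent.PolyTree
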