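import Pool.Agent.PolyTree.Defs
import Pool.Agent.DenseTree_dd15.Decomp

/-!
# The decomposition of a tree
-/

set_option autoImplicit false

namespace Pool.Agent.PolyTree

open Finset
open DenseTree.Decomp (an rt pr an_of_mem an_of_notMem rt_of_mem rt_of_notMem rt_le pr_of_pos
  an_mem rt_congr)

section
variable {p : ℕ → ℕ} {W : Finset ℕ}

/-- The weighted form of the decomposition. -/
private lemma weighted2 (hp : ∀ i, 0 < i → p i < i) (L : ℕ) (m : ℕ) :
    ∀ w c : ℕ → ℕ, ∃ W : Finset ℕ, 0 ∈ W ∧ (∀ i ∈ W, i ≠ 0 → i < m) ∧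
      L * (#W - 1) ≤ 2 * ∑ i ∈ range m, w i + L * ∑ i ∈ range m, c i ∧
      (∀ t, ∑ i ∈ range m with i ∉ W ∧ rt p W i = t, w i ≤ L) ∧
      ∀ t, ∑ i ∈ range m with i ∉ W ∧ rt p W i = t, c i +
        #{j ∈ W | 0 < j ∧ j < m ∧ p j ∉ W ∧ rt p W (p j) = t} ≤ 1 := by
  induction m with
  | zero =>
    intro w c
    refine ⟨{0}, by simp, by simp, by simp, by simp, ?_⟩
    intro t
    have h1 : #{j ∈ ({0} : Finset ℕ) | 0 < j ∧ j < 0 ∧ p j ∉ ({0} : Finset ℕ) ∧
        rt p {0} (p j) = t} = 0 := by
      rw [card_eq_zero, filter_eq_empty_iff]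
      intro j hj
      rw [mem_singleton] at hj
      omega
    rw [h1]
    simp
  | succ m ih =>
    intro w c
    rcases Nat.eq_zero_or_pos m with hm | hm
    · subst hm
      refine ⟨{0}, by simp, by simp, by simp, ?_, ?_⟩
      · intro t
        rw [sum_eq_zero]
        · omega
        · intro i hi
          simp only [mem_filter, mem_range, mem_singleton] at hi
          omega
      · intro t
        rw [sum_eq_zero]
        · have h1 : #{j ∈ ({0} : Finset ℕ) | 0 < j ∧ j < 0 + 1 ∧ p j ∉ ({0} : Finset ℕ) ∧
              rt p {0} (p j) = t} = 0 := by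
            rw [card_eq_zero, filter_eq_empty_iff]
            intro j hj
            rw [mem_singleton] at hj
            omega
          rw [h1]
          omega
        · intro i hi
          simp only [mem_filter, mem_range, mem_singleton] at hi
          omega
    have hpm := hp m hm
    by_cases hwm : L ≤ w m ∨ 2 ≤ c m
    · obtain ⟨W, h0, hlt, hcard, hsum, hcnt⟩ := ih w (fun i => c i + if i = p m then 1 else 0)
      have hmW : m ∉ W := fun h => by
        have := hlt m h hm.ne'
        omega
      have hcg : ∀ j < m, rt p W j = rt p (insert m W) j := fun j hj =>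
        rt_congr hp (m := m) (fun k hk => ⟨fun h => mem_insert_of_mem h,
          fun h => (mem_insert.1 h).resolve_left (by omega)⟩) hj
      have hfil : ∀ t, (range (m + 1)).filter
          (fun i => i ∉ insert m W ∧ rt p (insert m W) i = t) =
          (range m).filter (fun i => i ∉ W ∧ rt p W i = t) := by
        intro t
        ext i
        simp only [mem_filter, mem_range, mem_insert, not_or]
        constructor
        · rintro ⟨h1, ⟨h2, h3⟩, h4⟩
          have h5 : i < m := by omega
          exact ⟨h5, h3, (hcg i h5).trans h4⟩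
        · rintro ⟨h1, h3, h4⟩
          exact ⟨by omega, ⟨by omega, h3⟩, (hcg i h1).symm.trans h4⟩
      refine ⟨insert m W, mem_insert_of_mem h0, ?_, ?_, ?_, ?_⟩
      · intro i hi hi0
        rcases mem_insert.1 hi with h | h
        · omega
        · have := hlt i h hi0
          omega
      · rw [card_insert_of_notMem hmW, sum_range_succ, sum_range_succ]
        rw [sum_add_distrib, sum_ite_eq' (range m) (p m) (fun _ => 1),
          if_pos (mem_range.2 hpm)] at hcard
        have h1 : 1 ≤ #W := card_pos.2 ⟨0, h0⟩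
        have h2 : #W + 1 - 1 = (#W - 1) + 1 := by omega
        rw [h2]
        rcases hwm with hwm | hwm
        · nlinarith
        · nlinarith [Nat.mul_le_mul_left L hwm]
      · intro t
        rw [hfil]
        exact hsum t
      · intro t
        rw [hfil]
        have hc := hcnt t
        rw [sum_add_distrib, sum_ite_eq' (filter (fun i => i ∉ W ∧ rt p W i = t) (range m)) (p m)
          (fun _ => 1)] at hc
        have hP : ∀ j ∈ W, (0 < j ∧ j < m + 1 ∧ p j ∉ insert m W ∧ rt p (insert m W) (p j) = t) ↔
            (0 < j ∧ j < m ∧ p j ∉ W ∧ rt p W (p j) = t) := by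
          intro j hj
          constructor
          · rintro ⟨h1, h2, h3, h4⟩
            have h5 := hlt j hj h1.ne'
            have h6 := hp j h1
            refine ⟨h1, h5, fun h => h3 (mem_insert_of_mem h), ?_⟩
            rw [hcg _ (by omega)]
            exact h4
          · rintro ⟨h1, h2, h3, h4⟩
            have h6 := hp j h1
            refine ⟨h1, by omega, fun h => h3 ((mem_insert.1 h).resolve_left (by omega)), ?_⟩
            rw [← hcg _ (by omega)]
            exact h4
        have hPm : (0 < m ∧ m < m + 1 ∧ p m ∉ insert m W ∧ rt p (insert m W) (p m) = t) ↔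
            (p m ∉ W ∧ rt p W (p m) = t) := by
          constructor
          · rintro ⟨h1, h2, h3, h4⟩
            refine ⟨fun h => h3 (mem_insert_of_mem h), ?_⟩
            rw [hcg _ hpm]
            exact h4
          · rintro ⟨h3, h4⟩
            refine ⟨hm, by omega, fun h => h3 ((mem_insert.1 h).resolve_left (by omega)), ?_⟩
            rw [← hcg _ hpm]
            exact h4
        rw [filter_insert, filter_congr hP]
        by_cases hpt : p m ∉ W ∧ rt p W (p m) = t
        · rw [if_pos (hPm.2 hpt), card_insert_of_notMem (fun h => hmW (mem_filter.1 h).1)]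
          rw [if_pos (mem_filter.2 ⟨mem_range.2 hpm, hpt⟩)] at hc
          omega
        · rw [if_neg (fun h => hpt (hPm.1 h))]
          omega
    · push Not at hwm
      obtain ⟨hwm, hcm⟩ := hwm
      obtain ⟨W, h0, hlt, hcard, hsum, hcnt⟩ := ih (fun i => w i + if i = p m then w m else 0)
        (fun i => c i + if i = p m then c m else 0)
      have hmW : m ∉ W := fun h => by
        have := hlt m h hm.ne'
        omega
      have hset : ∀ t, W.filter (fun j => 0 < j ∧ j < m + 1 ∧ p j ∉ W ∧ rt p W (p j) = t) =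
          W.filter (fun j => 0 < j ∧ j < m ∧ p j ∉ W ∧ rt p W (p j) = t) := by
        intro t
        refine filter_congr fun j hj => ?_
        constructor
        · rintro ⟨h1, h2, h3⟩
          exact ⟨h1, hlt j hj h1.ne', h3⟩
        · rintro ⟨h1, h2, h3⟩
          exact ⟨h1, by omega, h3⟩
      have hrs : ∀ (t : ℕ) (g : ℕ → ℕ),
          ∑ i ∈ range (m + 1) with i ∉ W ∧ rt p W i = t, g i =
          ∑ i ∈ range m with i ∉ W ∧ rt p W i = t, g i + if rt p W m = t then g m else 0 := by
        intro t g
        rw [sum_filter, sum_range_succ, ← sum_filter]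
        congr 1
        by_cases h1 : rt p W m = t
        · rw [if_pos h1, if_pos ⟨hmW, h1⟩]
        · rw [if_neg h1, if_neg (fun h => h1 h.2)]
      have hempty : ∀ g : ℕ → ℕ, ∑ i ∈ range m with i ∉ W ∧ rt p W i = m, g i = 0 := by
        intro g
        apply sum_eq_zero
        intro i hi
        simp only [mem_filter, mem_range] at hi
        have := rt_le (W := W) hp i
        omega
      have hempty2 : #{j ∈ W | 0 < j ∧ j < m ∧ p j ∉ W ∧ rt p W (p j) = m} = 0 := by
        rw [card_eq_zero, filter_eq_empty_iff]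
        rintro j hj ⟨h1, h2, h3, h4⟩
        have := rt_le (W := W) hp (p j)
        have := hp j h1
        omega
      refine ⟨W, h0, ?_, ?_, ?_, ?_⟩
      · intro i hi hi0
        have := hlt i hi hi0
        omega
      · rw [sum_add_distrib, sum_ite_eq' (range m) (p m) (fun _ => w m),
          if_pos (mem_range.2 hpm), sum_add_distrib,
          sum_ite_eq' (range m) (p m) (fun _ => c m), if_pos (mem_range.2 hpm)] at hcard
        rw [sum_range_succ, sum_range_succ]
        exact hcard
      · intro t
        have hc := hsum t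
        rw [hrs]
        rw [sum_add_distrib, sum_ite_eq' (filter (fun i => i ∉ W ∧ rt p W i = t) (range m)) (p m)
          (fun _ => w m)] at hc
        by_cases hpW : p m ∈ W
        · have hr : rt p W m = m := rt_of_mem hpW
          rw [hr]
          by_cases htm : m = t
          · subst htm
            rw [hempty, if_pos rfl]
            omega
          · rw [if_neg htm]
            omega
        · have hr : rt p W m = rt p W (p m) := rt_of_notMem hp hm hpW
          rw [hr]
          by_cases hcc : rt p W (p m) = t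
          · rw [if_pos (mem_filter.2 ⟨mem_range.2 hpm, hpW, hcc⟩)] at hc
            rw [if_pos hcc]
            exact hc
          · rw [if_neg hcc]
            omega
      · intro t
        have hc := hcnt t
        rw [hrs, hset]
        rw [sum_add_distrib, sum_ite_eq' (filter (fun i => i ∉ W ∧ rt p W i = t) (range m)) (p m)
          (fun _ => c m)] at hc
        by_cases hpW : p m ∈ W
        · have hr : rt p W m = m := rt_of_mem hpW
          rw [hr]
          by_cases htm : m = t
          · subst htm
            rw [hempty, hempty2, if_pos rfl]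
            omega
          · rw [if_neg htm]
            omega
        · have hr : rt p W m = rt p W (p m) := rt_of_notMem hp hm hpW
          rw [hr]
          by_cases hcc : rt p W (p m) = t
          · rw [if_pos (mem_filter.2 ⟨mem_range.2 hpm, hpW, hcc⟩)] at hc
            rw [if_pos hcc]
            omega
          · rw [if_neg hcc]
            omega

private lemma an_rt (hp : ∀ i, 0 < i → p i < i) (h0 : 0 ∈ W) (i : ℕ) (hi : i ∉ W) :
    an p W i = p (rt p W i) ∧ p (rt p W i) ∈ W ∧ rt p W i ∉ W := by
  induction i using Nat.strong_induction_on with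
  | _ i ih =>
    have hi0 : 0 < i := Nat.pos_of_ne_zero (fun h' => hi (h' ▸ h0))
    by_cases h1 : p i ∈ W
    · rw [rt_of_mem h1, an_of_notMem hp h0 hi, an_of_mem h1]
      exact ⟨rfl, h1, hi⟩
    · rw [rt_of_notMem hp hi0 h1, an_of_notMem hp h0 hi]
      exact ih _ (hp i hi0) h1

end

/-- Every tree on `m` vertices has a decomposition in shrubs with at most `L` vertices and at most
one child seed.

Proof. (The library file `Pool/Agent/DenseTree_dd15/Decomp.lean` contains the version without the
field `child`; copy its definitions `an`, `rt`, `pr` and its pattern of proof, see `weighted` and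
`tree_decomp` there.)
Step 1 (weighted form, by induction on `m` for all `w c : ℕ → ℕ`): there is `W ∋ 0` with
`i < m` for `0 ≠ i ∈ W`, `L * (#W - 1) ≤ 2 * ∑ i ∈ range m, w i + L * ∑ i ∈ range m, c i`, and
for every `t`: `∑ i ∈ range m with i ∉ W ∧ rt p W i = t, w i ≤ L` and
`∑ i ∈ range m with i ∉ W ∧ rt p W i = t, c i` plus the number of `j ∈ W`, `0 < j < m`,
`p j ∉ W` with `rt p W (p j) = t` is at most `1`. Induction step `m → m + 1` (`0 < m`): if
`L ≤ w m` or `2 ≤ c m` apply the induction hypothesis to `w` and to `c` increased by `1` at `p m`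
and put `m` in `W`; otherwise apply it to `w` increased by `w m` at `p m` and `c` increased by
`c m` at `p m`, and do not put `m` in `W`. (If `p m ∈ W` then `m` is a shrub of its own with weight
`w m < L` and count `c m ≤ 1`.) Apply this to `w = 1`, `c = 0`: `L * (#W₀ - 1) ≤ 2 * m`.
Step 2 (parity): for every `w ∈ W₀`, `w ≠ 0`, with `pr p w ≠ pr p (an p W₀ (p w))` add `p w` to
the seeds (as in `tree_decomp`; at most one vertex is added in every shrub, and the added vertex has
the parity of its anchor). `W` has at most `2 * #W₀ - 1` elements, so `L * #W ≤ 4 * m + L` and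
`#W ≤ 4 * (m / L) + 4`. The shrub of `W₀` with the only child seed `w` splits in the part of the
top (its only child seed is `p w`) and parts without child seeds.
`par = pr p`, `top i = i` for `i ∈ W` and `rt p W i` for `i ∉ W`. -/
theorem exists_dec (m L : ℕ) (hm : 1 ≤ m) (hL : 1 ≤ L) (p : ℕ → ℕ)
    (hp : ∀ i, 0 < i → p i < i) :
    ∃ (W : Finset ℕ) (top : ℕ → ℕ) (par : ℕ → Bool), Dec m L p W top par := by
  obtain ⟨W₀, h0, hlt, hcard, hsum, hcnt⟩ := weighted2 hp L m (fun _ => 1) (fun _ => 0)
  set A : Finset ℕ := (W₀.filter (fun w => w ≠ 0 ∧ pr p w ≠ pr p (an p W₀ (p w)))).image p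
    with hA
  set W : Finset ℕ := W₀ ∪ A with hW
  have h0W : 0 ∈ W := mem_union_left _ h0
  have hsub : W₀ ⊆ W := subset_union_left
  -- the added vertices
  have hadd : ∀ u ∈ A, pr p u = pr p (an p W₀ u) := by
    intro u hu
    obtain ⟨w, hw, rfl⟩ := mem_image.1 hu
    obtain ⟨_, hw0, hne⟩ := mem_filter.1 hw
    rw [pr_of_pos hp (Nat.pos_of_ne_zero hw0)] at hne
    revert hne
    cases pr p (p w) <;> cases pr p (an p W₀ (p w)) <;> simp
  have hkey : ∀ v, pr p (an p W v) = pr p (an p W₀ v) := by
    intro v
    induction v using Nat.strong_induction_on with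
    | _ v ih =>
      by_cases h1 : v ∈ W
      · rw [an_of_mem h1]
        by_cases h2 : v ∈ W₀
        · rw [an_of_mem h2]
        · exact hadd v ((mem_union.1 h1).resolve_left h2)
      · have h2 : v ∉ W₀ := fun h => h1 (hsub h)
        have hv : 0 < v := Nat.pos_of_ne_zero (fun h' => h1 (h' ▸ h0W))
        rw [an_of_notMem hp h0W h1, an_of_notMem hp h0 h2]
        exact ih _ (hp v hv)
  have hroot : ∀ i, i ∉ W → rt p W₀ i = rt p W₀ (rt p W i) := by
    intro i
    induction i using Nat.strong_induction_on with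
    | _ i ih =>
      intro hi
      have hi0 : 0 < i := Nat.pos_of_ne_zero (fun h' => hi (h' ▸ h0W))
      by_cases h1 : p i ∈ W
      · rw [rt_of_mem h1]
      · rw [rt_of_notMem hp hi0 h1, rt_of_notMem hp hi0 (fun h => h1 (hsub h))]
        exact ih _ (hp i hi0) h1
  -- the child seeds
  have hchild : ∀ t, ∀ i ∈ W₀, ∀ j ∈ W₀, 0 < i → 0 < j → p i ∉ W₀ → p j ∉ W₀ →
      rt p W₀ (p i) = t → rt p W₀ (p j) = t → i = j := by
    intro t i hi j hj hi0 hj0 hpi hpj hti htj
    have h1 := hcnt t
    have h2 : #{j ∈ W₀ | 0 < j ∧ j < m ∧ p j ∉ W₀ ∧ rt p W₀ (p j) = t} ≤ 1 := by omega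
    rw [card_le_one] at h2
    exact h2 i (mem_filter.2 ⟨hi, hi0, hlt i hi hi0.ne', hpi, hti⟩) j
      (mem_filter.2 ⟨hj, hj0, hlt j hj hj0.ne', hpj, htj⟩)
  -- the seed of the old component
  have hold : ∀ i ∈ W, 0 < i → p i ∉ W → ∃ w ∈ W₀, 0 < w ∧ p w ∉ W₀ ∧
      rt p W₀ (p w) = rt p W₀ (p i) ∧ (i = w ∨ i = p w) := by
    intro i hi hi0 hpi
    have hpi0 : p i ∉ W₀ := fun h => hpi (hsub h)
    by_cases h1 : i ∈ W₀
    · exact ⟨i, h1, hi0, hpi0, rfl, Or.inl rfl⟩
    · obtain ⟨w, hw, hwi⟩ := mem_image.1 ((mem_union.1 hi).resolve_left h1)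
      obtain ⟨hw1, hw0, _⟩ := mem_filter.1 hw
      refine ⟨w, hw1, Nat.pos_of_ne_zero hw0, by rw [hwi]; exact h1, ?_, Or.inr hwi.symm⟩
      rw [hwi, rt_of_notMem hp hi0 hpi0]
  have htop : ∀ i, i ∉ W → (if i ∈ W then i else rt p W i) = rt p W i := fun i hi => if_neg hi
  refine ⟨W, fun i => if i ∈ W then i else rt p W i, pr p, ?_⟩
  refine ⟨hp, h0W, ?_, fun i hi => pr_of_pos hp hi, fun i hi => if_pos hi, ?_, ?_, ?_, ?_, ?_⟩
  · have h1 : #W ≤ #W₀ + #A := card_union_le _ _
    have h2 : #A ≤ #W₀ - 1 := by
      refine card_image_le.trans ?_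
      rw [← card_erase_of_mem h0]
      refine card_le_card fun i hi => ?_
      obtain ⟨h3, h4, _⟩ := mem_filter.1 hi
      exact mem_erase.2 ⟨h4, h3⟩
    have h3 : #W₀ - 1 ≤ (2 * m) / L := by
      rw [Nat.le_div_iff_mul_le hL, mul_comm]
      simpa using hcard
    have h4 : (2 * m) / L ≤ 2 * (m / L) + 1 := by
      rw [Nat.div_le_iff_le_mul_add_pred hL]
      have h5 := Nat.lt_mul_div_succ m hL
      have h6 : L * (m / L + 1) = L * (m / L) + L := by ring
      have h7 : L * (2 * (m / L) + 1) = 2 * (L * (m / L)) + L := by ring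
      omega
    omega
  · intro i hi hpi
    rw [htop i hi]
    exact rt_of_mem hpi
  · intro i hi hpi
    rw [htop i hi, htop _ hpi]
    exact rt_of_notMem hp (Nat.pos_of_ne_zero (fun h' => hi (h' ▸ h0W))) hpi
  · intro i hi hi0 hpi
    rw [htop _ hpi, ← (an_rt hp h0W (p i) hpi).1]
    by_cases h1 : i ∈ W₀
    · by_cases h2 : pr p i = pr p (an p W₀ (p i))
      · rw [h2, hkey]
      · exact absurd (mem_union_right _ (mem_image.2 ⟨i, mem_filter.2 ⟨h1, hi0.ne', h2⟩, rfl⟩)) hpi
    · rw [hadd i ((mem_union.1 hi).resolve_left h1), an_of_notMem hp h0 h1, hkey]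
  · intro c
    have hc := hsum (rt p W₀ c)
    rw [← card_eq_sum_ones] at hc
    refine (card_le_card ?_).trans hc
    intro i hi
    simp only [mem_filter, mem_range] at hi ⊢
    refine ⟨hi.1, fun h => hi.2.1 (hsub h), ?_⟩
    have h1 := hi.2.2
    rw [htop i hi.2.1] at h1
    rw [hroot i hi.2.1, h1]
  · intro i hi j hj hi0 hj0 _ _ hpi hpj hij
    rw [htop _ hpi, htop _ hpj] at hij
    obtain ⟨w, hw, hw0, hpw, hrw, hwi⟩ := hold i hi hi0 hpi
    obtain ⟨w', hw', hw0', hpw', hrw', hwj⟩ := hold j hj hj0 hpj
    have h1 : rt p W₀ (p i) = rt p W₀ (p j) := by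
      rw [hroot _ hpi, hroot _ hpj, hij]
    have h2 : w = w' := hchild (rt p W₀ (p j)) w hw w' hw' hw0 hw0' hpw hpw'
      (hrw.trans h1) hrw'
    subst h2
    rcases hwi with h3 | h3 <;> rcases hwj with h4 | h4
    · rw [h3, h4]
    · exact absurd (by rw [h3, ← h4]; exact hj) hpi
    · exact absurd (by rw [h4, ← h3]; exact hi) hpj
    · rw [h3, h4]

end Pool.Agent.PolyTree
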