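import Pool.Agent.PolyTree.DecTop

/-!
# The enumeration of a shrub
-/

set_option autoImplicit false

namespace Pool.Agent.PolyTree

open Finset

variable {m L : ℕ} {p : ℕ → ℕ} {W : Finset ℕ} {top : ℕ → ℕ} {par : ℕ → Bool}

private theorem exists_sgn (r : ℕ → ℕ) (hr : ∀ i, 0 < i → r i < i) :
    ∃ s : ℕ → Bool, s 0 = true ∧ ∀ i, 0 < i → s i = !s (r i) := by
  let F : (i : ℕ) → ((j : ℕ) → j < i → Bool) → Bool := fun i ih =>
    if h : 0 < i then !ih (r i) (hr i h) else true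
  refine ⟨fun i => (Nat.lt_wfRel.wf).fix F i, ?_, fun i hi => ?_⟩
  · show (Nat.lt_wfRel.wf).fix F 0 = true
    rw [WellFounded.fix_eq]
    exact dif_neg (lt_irrefl 0)
  · show (Nat.lt_wfRel.wf).fix F i = _
    rw [WellFounded.fix_eq]
    exact dif_pos hi

/-- The enumeration of a shrub.

Proof. `C = {i ∈ range m | i ∉ W ∧ top i = k}` contains `k` (`top_top`), and `k` is its least
element (`top_le`). Let `#C = n + 1` and let `c` enumerate `C` increasingly on `0, ..., n`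
(`Finset.orderEmbOfFin`). For `0 < i ≤ n`, `c i ≠ k`, so `p (c i) ∉ W` (otherwise
`top (c i) = c i`), `top (p (c i)) = k` (`top_in`) and `p (c i) < c i < m`, so `p (c i) ∈ C` is
`c (r i)` for some `r i < i` (monotonicity). For `i > n` let `r i = i - 1`. Define `s i` by
recursion by `s 0 = true`, `s i = !s (r i)`. By strong induction `s i = true` iff
`par (c i) ≠ par (p k)` for `i ≤ n` (`par_eq`; `par k = !par (p k)`, `0 < k` as `0 ∈ W`). -/
theorem Dec.exists_enum (hd : Dec m L p W top par) {k : ℕ} (hk : k ∉ W) (hpk : p k ∈ W)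
    (hkm : k < m) :
    ∃ (n : ℕ) (c r : ℕ → ℕ) (s : ℕ → Bool),
      (range (n + 1)).image c = {i ∈ range m | i ∉ W ∧ top i = k} ∧
      Set.InjOn c (Set.Iic n) ∧ c 0 = k ∧
      (∀ i, 0 < i → r i < i) ∧ (∀ i, 0 < i → i ≤ n → p (c i) = c (r i)) ∧
      s 0 = true ∧ (∀ i, 0 < i → s i = !s (r i)) ∧
      (∀ i ≤ n, s i = true ↔ par (c i) ≠ par (p k)) := by
  classical
  have hk0 : 0 < k := Nat.pos_of_ne_zero fun h => hk (h ▸ hd.zero_mem)
  set C : Finset ℕ := {i ∈ range m | i ∉ W ∧ top i = k} with hC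
  have hmem : ∀ {i}, i ∈ C ↔ i < m ∧ i ∉ W ∧ top i = k := by
    intro i
    rw [hC, Finset.mem_filter, Finset.mem_range]
  have hkC : k ∈ C := hmem.2 ⟨hkm, hk, hd.top_top k hk hpk⟩
  have hleast : ∀ i ∈ C, k ≤ i := by
    intro i hi
    rw [← (hmem.1 hi).2.2]
    exact hd.top_le i
  obtain ⟨n, hn⟩ : ∃ n, #C = n + 1 := ⟨#C - 1, by
    have := Finset.card_pos.2 ⟨k, hkC⟩
    omega⟩
  let em := C.orderEmbOfFin hn
  let c : ℕ → ℕ := fun i => if h : i < n + 1 then em ⟨i, h⟩ else 0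
  have hc : ∀ i (h : i < n + 1), c i = em ⟨i, h⟩ := fun i h => dif_pos h
  have hcC : ∀ i, i < n + 1 → c i ∈ C := by
    intro i h
    rw [hc i h]
    exact Finset.orderEmbOfFin_mem C hn _
  have hsurj : ∀ x ∈ C, ∃ i, i < n + 1 ∧ c i = x := by
    intro x hx
    have h1 : x ∈ Set.range em := by
      show x ∈ Set.range (C.orderEmbOfFin hn)
      rw [Finset.range_orderEmbOfFin]
      exact hx
    obtain ⟨i, hi⟩ := h1
    exact ⟨i.1, i.2, by rw [hc _ i.2]; exact hi⟩
  have hlt : ∀ i j, i < n + 1 → j < n + 1 → (c i < c j ↔ i < j) := by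
    intro i j hi hj
    rw [hc i hi, hc j hj, OrderEmbedding.lt_iff_lt]
    exact Fin.mk_lt_mk
  have hinj : ∀ i j, i < n + 1 → j < n + 1 → c i = c j → i = j := by
    intro i j hi hj h
    have h1 := hlt i j hi hj
    have h2 := hlt j i hj hi
    rw [h] at h1 h2
    have h3 : ¬ i < j := fun h4 => lt_irrefl _ (h1.2 h4)
    have h5 : ¬ j < i := fun h4 => lt_irrefl _ (h2.2 h4)
    omega
  have hc0 : c 0 = k := by
    obtain ⟨i, hi, hik⟩ := hsurj k hkC
    have h1 := hleast _ (hcC 0 (Nat.succ_pos n))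
    rcases Nat.eq_zero_or_pos i with h0 | h0
    · rw [← h0, hik]
    · have h2 := (hlt 0 i (Nat.succ_pos n) hi).2 h0
      rw [hik] at h2
      omega
  have hpar : ∀ i, 0 < i → i ≤ n → ∃ j, j < i ∧ p (c i) = c j := by
    intro i hi hin
    have hi' : i < n + 1 := Nat.lt_succ_of_le hin
    obtain ⟨h1, h2, h3⟩ := hmem.1 (hcC i hi')
    have hci : 0 < c i := Nat.pos_of_ne_zero fun h => h2 (h ▸ hd.zero_mem)
    have h4 : p (c i) ∉ W := by
      intro h5
      have h6 := hd.top_top (c i) h2 h5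
      rw [h3] at h6
      have := hinj 0 i (Nat.succ_pos n) hi' (hc0.trans h6)
      omega
    have h5 := hd.top_in (c i) h2 h4
    have h6 := hd.hp (c i) hci
    obtain ⟨j, hj, hjc⟩ := hsurj (p (c i)) (hmem.2 ⟨h6.trans h1, h4, h5.symm.trans h3⟩)
    refine ⟨j, ?_, hjc.symm⟩
    rw [← hlt j i hj hi', hjc]
    exact h6
  have hex : ∀ i, ∃ j, 0 < i → (j < i ∧ (i ≤ n → p (c i) = c j)) := by
    intro i
    by_cases h : 0 < i ∧ i ≤ n
    · obtain ⟨j, h1, h2⟩ := hpar i h.1 h.2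
      exact ⟨j, fun _ => ⟨h1, fun _ => h2⟩⟩
    · refine ⟨i - 1, fun h1 => ⟨by omega, fun h2 => absurd ⟨h1, h2⟩ h⟩⟩
  choose r hr using hex
  obtain ⟨s, hs0, hs⟩ := exists_sgn r fun i hi => (hr i hi).1
  refine ⟨n, c, r, s, ?_, ?_, hc0, fun i hi => (hr i hi).1, fun i hi => (hr i hi).2, hs0, hs, ?_⟩
  · ext x
    rw [Finset.mem_image]
    constructor
    · rintro ⟨i, hi, rfl⟩
      exact hcC i (Finset.mem_range.1 hi)
    · intro hx
      obtain ⟨i, hi, hix⟩ := hsurj x hx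
      exact ⟨i, Finset.mem_range.2 hi, hix⟩
  · intro i hi j hj h
    exact hinj i j (Nat.lt_succ_of_le hi) (Nat.lt_succ_of_le hj) h
  · intro i
    induction i using Nat.strong_induction_on with
    | _ i ih =>
      intro hin
      rcases Nat.eq_zero_or_pos i with h0 | h0
      · subst h0
        rw [hs0, hc0, hd.par_eq k hk0]
        cases par (p k) <;> simp
      · obtain ⟨h1, h2⟩ := hr i h0
        have h3 := ih (r i) h1 (h1.le.trans hin)
        have hci : 0 < c i := Nat.pos_of_ne_zero fun h =>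
          (hmem.1 (hcC i (Nat.lt_succ_of_le hin))).2.1 (h ▸ hd.zero_mem)
        rw [hs i h0, hd.par_eq (c i) hci, h2 hin]
        revert h3
        cases s (r i) <;> cases par (c (r i)) <;> cases par (p k) <;> simp

end Pool.Agent.PolyTree
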