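import Pool.Agent.PolyTree.DecTop

/-!
# The mark of a shrub, and the total weight
-/

set_option autoImplicit false

namespace Pool.Agent.PolyTree

open Finset

variable {m L : ℕ} {p : ℕ → ℕ} {W : Finset ℕ} {top : ℕ → ℕ} {par : ℕ → Bool}

/-- The mark of a shrub.

Proof. If there is a child seed `t` (`t ∈ W`, `0 < t < m`, `p t ∉ W`, `top (p t) = k`), then
`p t < t < m`, so `p t = c j` for some `j ≤ n`; by `child` there is no other child seed. By
`par_seed`, `par t = par (p (top (p t))) = par (p k)`, and `par t = !par (p t)`, so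
`par (c j) ≠ par (p k)` and `s j = true`. If there is no child seed take `j = 0`. -/
theorem Dec.exists_mark (hd : Dec m L p W top par) {k : ℕ} (hk : k ∉ W) (hpk : p k ∈ W)
    (hkm : k < m) {n : ℕ} {c : ℕ → ℕ} {s : ℕ → Bool}
    (hc : (range (n + 1)).image c = {i ∈ range m | i ∉ W ∧ top i = k}) (hc0 : c 0 = k)
    (hs0 : s 0 = true) (hs : ∀ i ≤ n, s i = true ↔ par (c i) ≠ par (p k)) :
    ∃ j ≤ n, s j = true ∧
      ∀ t ∈ W, 0 < t → t < m → p t ∉ W → top (p t) = k → p t = c j ∧ par t = par (p k) := by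
  by_cases h : ∃ t ∈ W, 0 < t ∧ t < m ∧ p t ∉ W ∧ top (p t) = k
  · obtain ⟨t, htW, ht0, htm, htp, htk⟩ := h
    have h1 : p t ∈ {i ∈ range m | i ∉ W ∧ top i = k} := by
      rw [mem_filter, mem_range]
      exact ⟨(hd.hp t ht0).trans htm, htp, htk⟩
    rw [← hc, mem_image] at h1
    obtain ⟨j, hj, hjc⟩ := h1
    have hjn : j ≤ n := Nat.lt_succ_iff.1 (mem_range.1 hj)
    have h2 : par t = par (p k) := by rw [hd.par_seed t htW ht0 htp, htk]
    refine ⟨j, hjn, ?_, ?_⟩
    · rw [hs j hjn, hjc, ← h2, hd.par_eq t ht0]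
      cases par (p t) <;> decide
    · intro t' ht'W ht'0 ht'm ht'p ht'k
      have h3 : t' = t := hd.child t' ht'W t htW ht'0 ht0 ht'm htm ht'p htp (by rw [ht'k, htk])
      rw [h3]
      exact ⟨hjc.symm, h2⟩
  · refine ⟨0, Nat.zero_le _, hs0, ?_⟩
    intro t htW ht0 htm htp htk
    exact absurd ⟨t, htW, ht0, htm, htp, htk⟩ h

/-- The total weight of the shrub vertices.

Proof. `P b = #{i ∈ range m | i ∉ W ∧ par (p (top i)) = b ∧ par i ≠ b} / m` and
`Q b = #{i ∈ range m | i ∉ W ∧ par (p (top i)) = b ∧ par i = b} / m`. -/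
theorem Dec.sum_wt (hd : Dec m L p W top par) (hm : 1 ≤ m) :
    ∃ (P Q : Bool → ℝ), (∀ b, 0 ≤ P b) ∧ (∀ b, 0 ≤ Q b) ∧
      P false + Q false + P true + Q true ≤ 1 ∧
      ∀ X0 X1 : Bool → ℝ, ∑ i ∈ range m with i ∉ W, wt p top par X0 X1 i / m =
        P false * X0 false + Q false * X1 false + P true * X0 true + Q true * X1 true := by
  have hm0 : (0 : ℝ) < m := by exact_mod_cast hm
  refine ⟨fun b => ∑ i ∈ range m with i ∉ W,
      (if par (p (top i)) = b ∧ par i ≠ b then (1 : ℝ) else 0) / m,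
    fun b => ∑ i ∈ range m with i ∉ W,
      (if par (p (top i)) = b ∧ par i = b then (1 : ℝ) else 0) / m, ?_, ?_, ?_, ?_⟩
  · intro b
    refine sum_nonneg fun i _ => div_nonneg ?_ hm0.le
    split_ifs
    · exact zero_le_one
    · exact le_rfl
  · intro b
    refine sum_nonneg fun i _ => div_nonneg ?_ hm0.le
    split_ifs
    · exact zero_le_one
    · exact le_rfl
  · simp only [← sum_add_distrib]
    have h1 : ∀ i ∈ (range m).filter (fun i => i ∉ W),
        (if par (p (top i)) = false ∧ par i ≠ false then (1 : ℝ) else 0) / m +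
        (if par (p (top i)) = false ∧ par i = false then (1 : ℝ) else 0) / m +
        (if par (p (top i)) = true ∧ par i ≠ true then (1 : ℝ) else 0) / m +
        (if par (p (top i)) = true ∧ par i = true then (1 : ℝ) else 0) / m = 1 / m := by
      intro i _
      cases par i <;> cases par (p (top i)) <;> simp
    rw [sum_congr rfl h1, sum_const, nsmul_eq_mul, mul_one_div, div_le_one hm0]
    have h2 : #((range m).filter (fun i => i ∉ W)) ≤ m :=
      (card_filter_le _ _).trans (card_range m).le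
    exact_mod_cast h2
  · intro X0 X1
    simp only [sum_mul, ← sum_add_distrib]
    refine sum_congr rfl fun i _ => ?_
    unfold wt
    cases par i <;> cases par (p (top i)) <;> simp <;> ring

end Pool.Agent.PolyTree
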