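import Pool.Agent.PolyTree.ShrubEx
import Pool.Agent.PolyTree.DecEnum
import Pool.Agent.PolyTree.DecMark

/-!
# The items which are tops of shrubs
-/

set_option autoImplicit false

namespace Pool.Agent.PolyTree

open Finset

variable {V : Type} [Fintype V] [DecidableEq V]
variable {G : SimpleGraph V} [DecidableRel G.Adj] {m q L : ℕ} {p : ℕ → ℕ} {W : Finset ℕ}
  {top : ℕ → ℕ} {par : ℕ → Bool} {A : Bool → Finset V} {X0 X1 : Bool → ℝ} {Λ h : ℝ}
  {k : ℕ} {φ : ℕ → V} {x : V → ℝ} {M D : V ⊕ (V × V) ⊕ (V × Bool) → ℝ}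

/-- Embedding a shrub.

Proof. `n, c, r, s` from `Dec.exists_enum`, `j` from `Dec.exists_mark`, `f, x'` from
`State.exists_shrub`. Let `C` be the shrub; `φ' i = f (index of i)` for `i ∈ C` (so
`φ' (c i) = f i` for `i ≤ n`) and `φ' i = φ i` otherwise. `M' t = M t + (S (used ∪ image f) x' ..
- S used x ..)`. `{i ∈ range m | top i < k + 1}` is the disjoint union of
`{i ∈ range m | top i < k}` and `C` (if `top i = k ∉ W` then `i ∉ W`), so
`used (k + 1) φ' = used k φ ∪ image f`. `adj` for `i ∈ C`: `i = c 0 = k`: `φ' (p k) = φ (p k)`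
(`p k ∈ W`); `i = c l`, `0 < l`: `φ' (p (c l)) = φ' (c (r l)) = f (r l)`. `adj` for `top i < k`:
`p i ∉ C` (if `i ∈ W` then `p i < i < k` and the elements of `C` are `≥ k`; if `i ∉ W`, `p i ∈ W`
clear; otherwise `top (p i) = top i ≠ k`). `seed`: `i ≠ k`, `i ∈ W` is not in `C`. `good`: if
`top (p t) = k` then `p t = c j`, `φ' (p t) = f j ∉ Bad (par (p k)) = Bad (par t)`; otherwise
`p t ∉ C`. `x_ge`: the sum splits. `pot_le`: the cardinality of the shrub vertices grows by
`n + 1`, `exp` of a sum. -/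
theorem State.step_shrub (hs : State G m q L p W top par A X0 X1 h k φ x M D)
    (hd : Dec m L p W top par) (hn : Num (Fintype.card V) m q L Λ h)
    (hc : Cls G m q A X0 X1) (hδ : ∀ v, (m / 2 : ℝ) ≤ G.degree v)
    (hX : ∑ i ∈ range m with i ∉ W, wt p top par X0 X1 i / m ≤ 1 - 1 / (8 * q))
    (hk : k ∉ W) (hpk : p k ∈ W) (hkm : k < m) :
    ∃ (φ' : ℕ → V) (x' : V → ℝ) (M' : V ⊕ (V × V) ⊕ (V × Bool) → ℝ),
      State G m q L p W top par A X0 X1 h (k + 1) φ' x' M' D := by
  classical
  obtain ⟨n, c, r, s, hc1, hc2, hc0, hr, hpc, hs0, hs1, hs2⟩ := hd.exists_enum hk hpk hkm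
  obtain ⟨j, hj, hsj, hmark⟩ := hd.exists_mark hk hpk hkm hc1 hc0 hs0 hs2
  obtain ⟨f, x', hf1, hf2, hf3, hf4, hf5, hx1, hx2, hpot⟩ :=
    hs.exists_shrub hd hn hc hδ hX hk hpk hkm hc1 hc2 hc0 hr hs0 hs1 hs2 hj hsj
  set C : Finset ℕ := {i ∈ range m | i ∉ W ∧ top i = k} with hC
  have hk0 : 0 < k := Nat.pos_of_ne_zero (fun h' => hk (h' ▸ hd.zero_mem))
  have hmemC : ∀ i, i ∈ C ↔ i < m ∧ i ∉ W ∧ top i = k := by
    intro i
    simp [hC]
  have hcC : ∀ l ≤ n, c l ∈ C := by
    intro l hl
    rw [← hc1]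
    exact mem_image_of_mem c (mem_range.2 (by omega))
  have hCc : ∀ i ∈ C, ∃ l ≤ n, c l = i := by
    intro i hi
    rw [← hc1] at hi
    obtain ⟨l, hl, rfl⟩ := mem_image.1 hi
    exact ⟨l, by have := mem_range.1 hl; omega, rfl⟩
  have hCge : ∀ i ∈ C, k ≤ i := by
    intro i hi
    have h1 := ((hmemC i).1 hi).2.2
    rw [← h1]
    exact hd.top_le i
  set φ' : ℕ → V := fun i => if i ∈ C then f (Function.invFunOn c (Set.Iic n) i) else φ i with hφ'
  have hφc : ∀ l ≤ n, φ' (c l) = f l := by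
    intro l hl
    have h1 : ∃ a ∈ Set.Iic n, c a = c l := ⟨l, hl, rfl⟩
    have h2 := Function.invFunOn_mem h1
    have h3 := Function.invFunOn_eq h1
    simp only [hφ', if_pos (hcC l hl)]
    rw [hc2 h2 hl h3]
  have hφn : ∀ i, i ∉ C → φ' i = φ i := by
    intro i hi
    simp only [hφ', if_neg hi]
  -- the embedded set
  have hlt : ∀ i, top i < k + 1 → i < m → top i < k ∨ i ∈ C := by
    intro i hi him
    by_cases h1 : top i < k
    · exact Or.inl h1
    · have h2 : top i = k := by omega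
      right
      rw [hmemC]
      refine ⟨him, fun hiW => ?_, h2⟩
      rw [hd.top_seed i hiW] at h2
      exact hk (h2 ▸ hiW)
  have hltC : ∀ i, top i < k → i ∉ C := by
    intro i hi hiC
    have := ((hmemC i).1 hiC).2.2
    omega
  have hused : used m top (k + 1) φ' = used m top k φ ∪ (range (n + 1)).image f := by
    ext v
    simp only [used, mem_union, mem_image, mem_filter, mem_range]
    constructor
    · rintro ⟨i, ⟨him, hi⟩, rfl⟩
      rcases hlt i hi him with h1 | h1
      · left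
        exact ⟨i, ⟨him, h1⟩, (hφn i (hltC i h1)).symm⟩
      · right
        obtain ⟨l, hl, rfl⟩ := hCc i h1
        exact ⟨l, by omega, (hφc l hl).symm⟩
    · rintro (⟨i, ⟨him, hi⟩, rfl⟩ | ⟨l, hl, rfl⟩)
      · exact ⟨i, ⟨him, by omega⟩, hφn i (hltC i hi)⟩
      · have hlC := (hmemC _).1 (hcC l (by omega))
        exact ⟨c l, ⟨hlC.1, by omega⟩, hφc l (by omega)⟩
  have hmem_used : ∀ i < m, top i < k → φ i ∈ used m top k φ := by
    intro i him hi
    exact mem_image_of_mem φ (mem_filter.2 ⟨mem_range.2 him, hi⟩)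
  have hpk_ne : p k ∉ C := fun h1 => ((hmemC _).1 h1).2.1 hpk
  -- parents of vertices which were embedded before
  have hpar : ∀ i, 0 < i → top i < k → p i ∉ C := by
    intro i hi0 hi hpi
    have hpi' := (hmemC _).1 hpi
    have hge := hCge _ hpi
    by_cases h1 : i ∈ W
    · rw [hd.top_seed i h1] at hi
      have := hd.hp i hi0
      omega
    · have h2 := hd.top_in i h1 hpi'.2.1
      omega
  have hcard : #{i ∈ range m | i ∉ W ∧ top i < k + 1} =
      #{i ∈ range m | i ∉ W ∧ top i < k} + (n + 1) := by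
    have h1 : ({i ∈ range m | i ∉ W ∧ top i < k + 1} : Finset ℕ) =
        {i ∈ range m | i ∉ W ∧ top i < k} ∪ C := by
      ext i
      simp only [mem_union, mem_filter, mem_range, hmemC]
      constructor
      · rintro ⟨h1, h2, h3⟩
        by_cases h4 : top i < k
        · exact Or.inl ⟨h1, h2, h4⟩
        · exact Or.inr ⟨h1, h2, by omega⟩
      · rintro (⟨h1, h2, h3⟩ | ⟨h1, h2, h3⟩)
        · exact ⟨h1, h2, by omega⟩
        · exact ⟨h1, h2, by omega⟩
    have h2 : Disjoint ({i ∈ range m | i ∉ W ∧ top i < k} : Finset ℕ) C := by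
      rw [Finset.disjoint_left]
      intro i hi hiC
      exact hltC i (mem_filter.1 hi).2.2 hiC
    have h3 : #C = n + 1 := by
      rw [← hc1, card_image_of_injOn, card_range]
      intro a ha b hb hab
      exact hc2 (by have := mem_range.1 ha; simp only [Set.mem_Iic]; omega)
        (by have := mem_range.1 hb; simp only [Set.mem_Iic]; omega) hab
    rw [h1, card_union_of_disjoint h2, h3]
  have hsum : ∑ i ∈ range m with i ∉ W ∧ top i < k + 1, wt p top par X0 X1 i / m =
      ∑ i ∈ range m with i ∉ W ∧ top i < k, wt p top par X0 X1 i / m +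
        ∑ i ∈ C, wt p top par X0 X1 i / m := by
    have h1 : ({i ∈ range m | i ∉ W ∧ top i < k + 1} : Finset ℕ) =
        {i ∈ range m | i ∉ W ∧ top i < k} ∪ C := by
      ext i
      simp only [mem_union, mem_filter, mem_range, hmemC]
      constructor
      · rintro ⟨h1, h2, h3⟩
        by_cases h4 : top i < k
        · exact Or.inl ⟨h1, h2, h4⟩
        · exact Or.inr ⟨h1, h2, by omega⟩
      · rintro (⟨h1, h2, h3⟩ | ⟨h1, h2, h3⟩)
        · exact ⟨h1, h2, by omega⟩
        · exact ⟨h1, h2, by omega⟩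
    have h2 : Disjoint ({i ∈ range m | i ∉ W ∧ top i < k} : Finset ℕ) C := by
      rw [Finset.disjoint_left]
      intro i hi hiC
      exact hltC i (mem_filter.1 hi).2.2 hiC
    rw [h1, sum_union h2]
  refine ⟨φ', x', fun t => M t + (S (used m top k φ ∪ (range (n + 1)).image f) x' (test G m A t) -
        S (used m top k φ) x (test G m A t)), ?_, ?_, ?_, ?_, ?_, ?_, ?_, hs.D_nonneg, ?_, ?_⟩
  · intro i him i' him' hi hi' hii
    rcases hlt i hi him with h1 | h1
    · rcases hlt i' hi' him' with h2 | h2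
      · rw [hφn i (hltC i h1), hφn i' (hltC i' h2)] at hii
        exact hs.inj i him i' him' h1 h2 hii
      · obtain ⟨l, hl, rfl⟩ := hCc i' h2
        rw [hφn i (hltC i h1), hφc l hl] at hii
        exact absurd (hii ▸ hmem_used i him h1) (hf1 l hl)
    · obtain ⟨l, hl, rfl⟩ := hCc i h1
      rcases hlt i' hi' him' with h2 | h2
      · rw [hφn i' (hltC i' h2), hφc l hl] at hii
        exact absurd (hii ▸ hmem_used i' him' h2) (hf1 l hl)
      · obtain ⟨l', hl', rfl⟩ := hCc i' h2
        rw [hφc l hl, hφc l' hl'] at hii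
        rw [hf2 hl hl' hii]
  · intro i hi0 him hi
    rcases hlt i hi him with h1 | h1
    · rw [hφn i (hltC i h1), hφn (p i) (hpar i hi0 h1)]
      exact hs.adj i hi0 him h1
    · obtain ⟨l, hl, rfl⟩ := hCc i h1
      rcases Nat.eq_zero_or_pos l with h0 | h0
      · subst h0
        rw [hφc 0 hl, hc0, hφn _ hpk_ne]
        exact hf3.symm
      · have h2 := hr l h0
        rw [hφc l hl, hpc l h0 hl, hφc (r l) (by omega)]
        exact hf4 l h0 hl
  · intro i hiW him hi
    have h1 : i ≠ k := fun h' => hk (h' ▸ hiW)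
    have h2 : i ∉ C := fun h' => ((hmemC i).1 h').2.1 hiW
    rw [hφn i h2]
    exact hs.seed i hiW him (by omega)
  · intro t htW ht0 htm hpt htop
    by_cases h1 : top (p t) = k
    · obtain ⟨h2, h3⟩ := hmark t htW ht0 htm hpt h1
      rw [h2, hφc j hj, h3]
      exact hf5
    · have h2 : p t ∉ C := fun h' => h1 ((hmemC _).1 h').2.2
      rw [hφn _ h2]
      exact hs.good t htW ht0 htm hpt (by omega)
  · intro v
    exact (hx2 v).trans (hs.x_le v)
  · intro v
    rw [hsum, mul_add]
    have h1 := hx1 v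
    have h2 := hs.x_ge v
    linarith
  · intro t
    rw [hused]
    have h1 := hs.S_eq t
    linarith
  · intro t
    refine (hs.D_le t).trans ?_
    gcongr
    omega
  · refine hpot.trans ?_
    rw [hcard]
    calc Real.exp (4608 * h ^ 2 * q ^ 2 * L * (n + 1)) * pot h M ≤
        Real.exp (4608 * h ^ 2 * q ^ 2 * L * (n + 1)) *
          (2 * Fintype.card (V ⊕ (V × V) ⊕ (V × Bool)) *
            Real.exp (4608 * h ^ 2 * q ^ 2 * L * #{i ∈ range m | i ∉ W ∧ top i < k})) := by
          gcongr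
          exact hs.pot_le
      _ = 2 * Fintype.card (V ⊕ (V × V) ⊕ (V × Bool)) *
            (Real.exp (4608 * h ^ 2 * q ^ 2 * L * #{i ∈ range m | i ∉ W ∧ top i < k}) *
            Real.exp (4608 * h ^ 2 * q ^ 2 * L * (n + 1))) := by ring
      _ = _ := by
          rw [← Real.exp_add]
          congr 2
          push_cast
          ring

end Pool.Agent.PolyTree
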