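import Pool.Agent.PolyTree.StepSeed
import Pool.Agent.PolyTree.StepShrub
import Pool.Agent.PolyTree.Decomp2
import Pool.Agent.PolyTree.Classes

/-!
# The embedding
-/

set_option autoImplicit false

namespace Pool.Agent.PolyTree

open Finset

variable {V : Type} [Fintype V] [DecidableEq V]
variable {G : SimpleGraph V} [DecidableRel G.Adj] {m q L : ℕ} {p : ℕ → ℕ} {W : Finset ℕ}
  {top : ℕ → ℕ} {par : ℕ → Bool} {A : Bool → Finset V} {X0 X1 : Bool → ℝ} {Λ h : ℝ}

/-- The initial state. -/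
theorem State.init (hc : Cls G m q A X0 X1) (v0 : V) :
    State G m q L p W top par A X0 X1 h 0 (fun _ => v0) (fun _ => 1) (fun _ => 0)
      (fun _ => 0) := by
  refine ⟨by simp, by simp, by simp, by simp, by simp, ?_, ?_, by simp, by simp, ?_⟩
  · intro v; simp
  · intro t; simp [S, used]
  · simp [pot]
    linarith

/-- All the states. -/
theorem exists_state (hd : Dec m L p W top par) (hn : Num (Fintype.card V) m q L Λ h)
    (hc : Cls G m q A X0 X1) (hδ : ∀ v, (m / 2 : ℝ) ≤ G.degree v)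
    (hX : ∑ i ∈ range m with i ∉ W, wt p top par X0 X1 i / m ≤ 1 - 1 / (8 * q)) (k : ℕ)
    (hk : k ≤ m) :
    ∃ (φ : ℕ → V) (x : V → ℝ) (M D : V ⊕ (V × V) ⊕ (V × Bool) → ℝ),
      State G m q L p W top par A X0 X1 h k φ x M D := by
  induction k with
  | zero =>
    obtain ⟨v0, _⟩ := hc.nonempty true
    exact ⟨_, _, _, _, State.init hc v0⟩
  | succ k ih =>
    obtain ⟨φ, x, M, D, hs⟩ := ih (by omega)
    by_cases h1 : k ∈ W
    · obtain ⟨φ', D', h2⟩ := hs.step_seed hd hn hc hδ hX h1 (by omega)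
      exact ⟨φ', x, M, D', h2⟩
    · by_cases h2 : p k ∈ W
      · obtain ⟨φ', x', M', h3⟩ := hs.step_shrub hd hn hc hδ hX h1 h2 (by omega)
        exact ⟨φ', x', M', D, h3⟩
      · exact ⟨φ, x, M, D, hs.skip hd h1 h2⟩

/-- The embedding theorem for graphs of minimum degree at least `m / 2`. -/
theorem core (G : SimpleGraph V) [DecidableRel G.Adj] (hn : Num (Fintype.card V) m q L Λ h)
    (hδ : ∀ v, (m / 2 : ℝ) ≤ G.degree v)
    (havg : (1 + 1 / (q : ℝ)) * m * Fintype.card V ≤ ∑ v, (G.degree v : ℝ))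
    (hp : ∀ i, 0 < i → p i < i) :
    ∃ φ : ℕ → V, (∀ i < m, ∀ j < m, φ i = φ j → i = j) ∧
      ∀ i, 0 < i → i < m → G.Adj (φ i) (φ (p i)) := by
  obtain ⟨W, top, par, hd⟩ := exists_dec m L hn.m_pos hn.L_pos p hp
  obtain ⟨P, Q, hP, hQ, hPQ, hsum⟩ := hd.sum_wt hn.m_pos
  have hN0 : 0 < Fintype.card V := lt_of_lt_of_le hn.m_pos hn.m_le
  obtain ⟨A, X0, X1, hc, hX⟩ := exists_classes G m q hn.q_pos hn.m_pos hδ hN0 hn.N_le havg
    P Q hP hQ hPQ
  rw [← hsum] at hX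
  obtain ⟨φ, x, M, D, hs⟩ := exists_state hd hn hc hδ hX m le_rfl
  have ht : ∀ i < m, top i < m := fun i hi => (hd.top_le i).trans_lt hi
  exact ⟨φ, fun i hi j hj h => hs.inj i hi j hj (ht i hi) (ht j hj) h,
    fun i h0 hi => hs.adj i h0 hi (ht i hi)⟩

end Pool.Agent.PolyTree
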