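import Pool.Agent.PolyTree.Defs

/-!
# The tops of the shrubs
-/

set_option autoImplicit false

namespace Pool.Agent.PolyTree

open Finset

variable {m L : ℕ} {p : ℕ → ℕ} {W : Finset ℕ} {top : ℕ → ℕ} {par : ℕ → Bool}

/-- Strong induction with `top_seed`, `top_top`, `top_in`. -/
theorem Dec.top_le (hd : Dec m L p W top par) (i : ℕ) : top i ≤ i := by
  induction i using Nat.strong_induction_on with
  | _ i ih =>
    by_cases h : i ∈ W
    · rw [hd.top_seed i h]
    · by_cases h1 : p i ∈ W
      · rw [hd.top_top i h h1]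
      · rw [hd.top_in i h h1]
        have hi : 0 < i := Nat.pos_of_ne_zero (fun h' => h (h' ▸ hd.zero_mem))
        exact (ih _ (hd.hp i hi)).trans (hd.hp i hi).le

/-- The top of a shrub vertex is a shrub vertex whose parent is a seed. -/
theorem Dec.top_spec (hd : Dec m L p W top par) {i : ℕ} (hi : i ∉ W) :
    top i ∉ W ∧ p (top i) ∈ W ∧ top (top i) = top i := by
  induction i using Nat.strong_induction_on with
  | _ i ih =>
    by_cases h1 : p i ∈ W
    · rw [hd.top_top i hi h1]
      exact ⟨hi, h1, hd.top_top i hi h1⟩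
    · rw [hd.top_in i hi h1]
      have hi0 : 0 < i := Nat.pos_of_ne_zero (fun h' => hi (h' ▸ hd.zero_mem))
      exact ih _ (hd.hp i hi0) h1

/-- If the item `k` is not processed (`k` is neither a seed nor a top), then nobody has the
top `k`. -/
theorem Dec.top_ne (hd : Dec m L p W top par) {k : ℕ} (hk : k ∉ W) (hpk : p k ∉ W) (i : ℕ) :
    top i ≠ k := by
  intro h
  by_cases hi : i ∈ W
  · rw [hd.top_seed i hi] at h
    exact hk (h ▸ hi)
  · have := (hd.top_spec hi).2.1
    rw [h] at this
    exact hpk this

/-- If `k` is a seed, then only `k` has the top `k`. -/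
theorem Dec.top_eq_seed (hd : Dec m L p W top par) {k : ℕ} (hk : k ∈ W) {i : ℕ}
    (h : top i = k) : i = k := by
  by_cases hi : i ∈ W
  · rw [hd.top_seed i hi] at h
    exact h
  · exact absurd hk (h ▸ (hd.top_spec hi).1)

end Pool.Agent.PolyTree
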