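import Pool.Agent.PolyTree.Chain

/-!
# Definitions for the embedding of trees in graphs of large average degree

The host graph is `G` on `V`, the tree has the vertices `0, ..., m - 1` and the parent function
`p` (`p i < i` for `0 < i`). The tree is cut at the seeds `W`; the components of the rest are the
shrubs, `top i` is the least vertex of the shrub of `i` (`top i = i` if `i` is a seed), and `par` is
the parity of the depth.
-/

set_option autoImplicit false

namespace Pool.Agent.PolyTree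

open Finset

section Abstract

variable {V : Type} [Fintype V] [DecidableEq V]

/-- The sum of `g v / x v` over the unused points `v`. -/
noncomputable def S (U : Finset V) (x g : V → ℝ) : ℝ := ∑ v ∈ Uᶜ, g v / x v

/-- The potential. -/
noncomputable def pot {ι : Type} [Fintype ι] (h : ℝ) (M : ι → ℝ) : ℝ :=
  ∑ t, (Real.exp (h * M t) + Real.exp (-(h * M t)))

/-- The average of the reciprocals of the degrees of the neighbours of `a`. -/
noncomputable def F1 (G : SimpleGraph V) [DecidableRel G.Adj] (a : V) : ℝ :=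
  (∑ u ∈ G.neighborFinset a, 1 / (G.degree u : ℝ)) / G.degree a

/-- The test functions: neighbourhoods, weighted common neighbourhoods, and neighbourhoods in the
sets `A b`. -/
noncomputable def test (G : SimpleGraph V) [DecidableRel G.Adj] (m : ℕ) (A : Bool → Finset V) :
    V ⊕ (V × V) ⊕ (V × Bool) → V → ℝ
  | Sum.inl u, w => if G.Adj u w then 1 else 0
  | Sum.inr (Sum.inl (a, v)), w => if G.Adj a w ∧ G.Adj v w then (m / 2 : ℝ) / G.degree w else 0
  | Sum.inr (Sum.inr (u, b)), w => if G.Adj u w ∧ w ∈ A b then 1 else 0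

/-- The points with few neighbours in `A b`. -/
noncomputable def Bad (G : SimpleGraph V) [DecidableRel G.Adj] (q : ℕ) (A : Bool → Finset V)
    (b : Bool) : Finset V :=
  {u | (#(G.neighborFinset u ∩ A b) : ℝ) ≤ Fintype.card V / (2 ^ 35 * q ^ 8)}

/-- The properties of the classes of the seeds. `X0 b` and `X1 b` bound the densities of the
odd and the even levels of the shrubs at the seeds of parity `b`. -/
structure Cls (G : SimpleGraph V) [DecidableRel G.Adj] (m q : ℕ) (A : Bool → Finset V)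
    (X0 X1 : Bool → ℝ) : Prop where
  nonempty : ∀ b, (A b).Nonempty
  le_X0 : ∀ b, ∀ a ∈ A b, m * (1 / (G.degree a : ℝ)) ≤ X0 b
  le_X1 : ∀ b, ∀ a ∈ A b, m * F1 G a ≤ X1 b
  X0_nonneg : ∀ b, 0 ≤ X0 b
  X1_nonneg : ∀ b, 0 ≤ X1 b
  X0_le : ∀ b, X0 b ≤ 3
  X1_le : ∀ b, X1 b ≤ 3
  nbr : ∀ b, ∀ a ∈ A b, (Fintype.card V : ℝ) / (2 ^ 22 * q ^ 6) ≤
    #(G.neighborFinset a ∩ A (!b))
  bad : ∀ b, ∀ a ∈ A b, (#(G.neighborFinset a ∩ Bad G q A b) : ℝ) ≤
    G.degree a / (2 ^ 13 * q ^ 2)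

end Abstract

/-- The properties of the decomposition of the tree. -/
structure Dec (m L : ℕ) (p : ℕ → ℕ) (W : Finset ℕ) (top : ℕ → ℕ) (par : ℕ → Bool) : Prop where
  hp : ∀ i, 0 < i → p i < i
  zero_mem : 0 ∈ W
  card_le : #W ≤ 4 * (m / L) + 4
  par_eq : ∀ i, 0 < i → par i = !par (p i)
  top_seed : ∀ i ∈ W, top i = i
  top_top : ∀ i, i ∉ W → p i ∈ W → top i = i
  top_in : ∀ i, i ∉ W → p i ∉ W → top i = top (p i)
  par_seed : ∀ i ∈ W, 0 < i → p i ∉ W → par i = par (p (top (p i)))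
  size : ∀ c, #{i ∈ range m | i ∉ W ∧ top i = c} ≤ L
  child : ∀ i ∈ W, ∀ j ∈ W, 0 < i → 0 < j → i < m → j < m → p i ∉ W → p j ∉ W →
    top (p i) = top (p j) → i = j

/-- The density of the shrub vertex `i`. -/
noncomputable def wt (p top : ℕ → ℕ) (par : ℕ → Bool) (X0 X1 : Bool → ℝ) (i : ℕ) : ℝ :=
  if par i = par (p (top i)) then X1 (par (p (top i))) else X0 (par (p (top i)))

/-- The numerical conditions; `N` is the number of vertices of the host graph. -/
structure Num (N m q L : ℕ) (Λ h : ℝ) : Prop where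
  q_pos : 1 ≤ q
  m_pos : 1 ≤ m
  L_pos : 1 ≤ L
  m_le : m ≤ N
  N_le : N ≤ q * m
  Λ_pos : 0 < Λ
  h_pos : 0 < h
  Λ_le : Λ ≤ m / (256 * q ^ 2)
  Λ_le' : Λ ≤ N / (2 ^ 35 * q ^ 8)
  coll : (L : ℝ) ^ 2 * (2 ^ 20 * q ^ 4) ≤ m
  hL : h * (48 * q * L) ≤ 1
  dev : (Real.log (8 * N ^ 2) + 4608 * h ^ 2 * q ^ 2 * L * m) / h +
    16 * q * (4 * (m / L : ℕ) + 4) ≤ Λ

section State

variable {V : Type} [Fintype V] [DecidableEq V]

/-- The set of the points used before the item `k`. -/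
def used (m : ℕ) (top : ℕ → ℕ) (k : ℕ) (φ : ℕ → V) : Finset V :=
  {i ∈ range m | top i < k}.image φ

/-- The state of the embedding before the item `k`. -/
structure State (G : SimpleGraph V) [DecidableRel G.Adj] (m q L : ℕ) (p : ℕ → ℕ) (W : Finset ℕ)
    (top : ℕ → ℕ) (par : ℕ → Bool) (A : Bool → Finset V) (X0 X1 : Bool → ℝ) (h : ℝ)
    (k : ℕ) (φ : ℕ → V) (x : V → ℝ) (M D : V ⊕ (V × V) ⊕ (V × Bool) → ℝ) : Prop where
  inj : ∀ i < m, ∀ j < m, top i < k → top j < k → φ i = φ j → i = j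
  adj : ∀ i, 0 < i → i < m → top i < k → G.Adj (φ i) (φ (p i))
  seed : ∀ i ∈ W, i < m → i < k → φ i ∈ A (par i)
  good : ∀ t ∈ W, 0 < t → t < m → p t ∉ W → top (p t) < k → φ (p t) ∉ Bad G q A (par t)
  x_le : ∀ v, x v ≤ 1
  x_ge : ∀ v, 1 - (1 + 1 / (16 * (q : ℝ))) *
    ∑ i ∈ range m with i ∉ W ∧ top i < k, wt p top par X0 X1 i / m ≤ x v
  S_eq : ∀ t, S (used m top k φ) x (test G m A t) = ∑ v, test G m A t v + M t - D t
  D_nonneg : ∀ t, 0 ≤ D t
  D_le : ∀ t, D t ≤ 16 * q * #{i ∈ W | i < k}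
  pot_le : pot h M ≤ 2 * Fintype.card (V ⊕ (V × V) ⊕ (V × Bool)) *
    Real.exp (4608 * h ^ 2 * q ^ 2 * L * #{i ∈ range m | i ∉ W ∧ top i < k})

end State

end Pool.Agent.PolyTree
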