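import Mathlib
import Pool.Agent.DenseTree_dd15.Parent

/-!
# From parent functions to trees
-/

set_option autoImplicit false

namespace Pool.Agent.PolyTree

/-- If a graph contains the tree of every parent function then it contains every tree.

Proof. `v`, `p` from `Pool.Agent.DenseTree.tree_parent T hT`, `φ` from `h p`; `f x = φ i` for the
`i < card X` with `v i = x`. -/
theorem embed_tree {X : Type} [Fintype X] (T : SimpleGraph X) (hT : T.IsTree) {V : Type}
    (G : SimpleGraph V)
    (h : ∀ p : ℕ → ℕ, (∀ i, 0 < i → p i < i) →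
      ∃ φ : ℕ → V, (∀ i < Fintype.card X, ∀ j < Fintype.card X, φ i = φ j → i = j) ∧
        ∀ i, 0 < i → i < Fintype.card X → G.Adj (φ i) (φ (p i))) :
    ∃ f : X → V, Function.Injective f ∧ ∀ x y, T.Adj x y → G.Adj (f x) (f y) := by
  obtain ⟨v, p, hp, hv, he⟩ := Pool.Agent.DenseTree.tree_parent T hT
  obtain ⟨φ, hinj, hadj⟩ := h p hp
  have hex : ∀ x : X, ∃ i, i < Fintype.card X ∧ v i = x := by
    intro x
    obtain ⟨i, hi, hx⟩ := hv.surjOn (Set.mem_univ x)
    exact ⟨i, hi, hx⟩
  choose idx hlt hidx using hex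
  have hback : ∀ i, i < Fintype.card X → idx (v i) = i := by
    intro i hi
    exact hv.injOn (hlt (v i)) hi (hidx (v i))
  refine ⟨fun x => φ (idx x), ?_, ?_⟩
  · intro x y hxy
    have h1 := hinj _ (hlt x) _ (hlt y) hxy
    rw [← hidx x, ← hidx y, h1]
  · intro x y hxy
    obtain ⟨i, hi0, hi, hor⟩ := he x y hxy
    have hpi := (hp i hi0).trans hi
    rcases hor with ⟨rfl, rfl⟩ | ⟨rfl, rfl⟩
    · change G.Adj (φ (idx (v i))) (φ (idx (v (p i))))
      rw [hback i hi, hback (p i) hpi]
      exact hadj i hi0 hi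
    · change G.Adj (φ (idx (v (p i)))) (φ (idx (v i)))
      rw [hback i hi, hback (p i) hpi]
      exact (hadj i hi0 hi).symm

end Pool.Agent.PolyTree
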