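import Pool.Agent.PolyTree.ErdosSos
import Pool.Agent.PolyTree.TreeEmb

/-!
# The Erdős–Sós conjecture with a polynomial error term
-/

set_option autoImplicit false

namespace Pool.Agent.PolyTree

open Finset Filter

private theorem tendsto_pow (c : ℝ) (hc : 0 < c) :
    Tendsto (fun m : ℕ => (m : ℝ) ^ c) atTop atTop :=
  (tendsto_rpow_atTop hc).comp tendsto_natCast_atTop_atTop

theorem erdos_sos_rpow : ∃ m₀ : ℕ, ∀ m : ℕ, m₀ ≤ m →
    ∀ (V : Type) [Fintype V] (G : SimpleGraph V) [DecidableRel G.Adj],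
    0 < Fintype.card V → (Fintype.card V : ℝ) ≤ (m : ℝ) ^ (31 / 30 : ℝ) →
    ((m : ℝ) + (m : ℝ) ^ (29 / 30 : ℝ)) * Fintype.card V ≤ 2 * #G.edgeFinset →
    ∀ T : SimpleGraph (Fin m), T.IsTree →
      ∃ f : Fin m → V, Function.Injective f ∧ ∀ x y, T.Adj x y → G.Adj (f x) (f y) := by
  classical
  obtain ⟨q₀, hES⟩ := erdos_sos
  have h1 := (tendsto_pow (1 / 30) (by norm_num)).eventually_ge_atTop ((q₀ : ℝ) + 1)
  have h2 := (tendsto_pow (1 / 15) (by norm_num)).eventually_ge_atTop ((2 : ℝ) ^ 28)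
  obtain ⟨m₁, hm₁⟩ := eventually_atTop.1 (h1.and h2)
  refine ⟨max m₁ 1, fun m hm V _ G _ hV hVm hE T hT => ?_⟩
  obtain ⟨h3, h4⟩ := hm₁ m ((le_max_left _ _).trans hm)
  have hm1 : 1 ≤ m := (le_max_right _ _).trans hm
  have hm0 : (0 : ℝ) < m := by exact_mod_cast hm1
  set y : ℝ := (m : ℝ) ^ (1 / 30 : ℝ) with hy
  have hy0 : 0 < y := Real.rpow_pos_of_pos hm0 _
  have hy1 : 1 ≤ y := by
    have : (0 : ℝ) ≤ q₀ := Nat.cast_nonneg _
    linarith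
  have hq1 : y ≤ (⌈y⌉₊ : ℝ) := Nat.le_ceil _
  have hq2 : (⌈y⌉₊ : ℝ) < y + 1 := Nat.ceil_lt_add_one hy0.le
  have hq0' : (0 : ℝ) < (⌈y⌉₊ : ℝ) := hy0.trans_le hq1
  have hqq : q₀ ≤ ⌈y⌉₊ := by
    have : (q₀ : ℝ) ≤ ⌈y⌉₊ := by linarith
    exact_mod_cast this
  have hy30 : y ^ 30 = m := by
    rw [hy, ← Real.rpow_natCast, ← Real.rpow_mul hm0.le]
    norm_num
  have hy15 : y ^ 2 = (m : ℝ) ^ (1 / 15 : ℝ) := by
    rw [hy, ← Real.rpow_natCast, ← Real.rpow_mul hm0.le]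
    norm_num
  have hy29 : y ^ 29 = (m : ℝ) ^ (29 / 30 : ℝ) := by
    rw [hy, ← Real.rpow_natCast, ← Real.rpow_mul hm0.le]
    norm_num
  have hy31 : y ^ 31 = (m : ℝ) ^ (31 / 30 : ℝ) := by
    rw [hy, ← Real.rpow_natCast, ← Real.rpow_mul hm0.le]
    norm_num
  have hq28 : ⌈y⌉₊ ^ 28 ≤ m := by
    have h5 : ((⌈y⌉₊ : ℝ)) ^ 28 ≤ m := by
      calc ((⌈y⌉₊ : ℝ)) ^ 28 ≤ (2 * y) ^ 28 := by
            gcongr
            linarith
        _ = 2 ^ 28 * y ^ 28 := by ring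
        _ ≤ y ^ 2 * y ^ 28 := by
            gcongr
            rw [hy15]
            exact h4
        _ = m := by rw [← hy30]; ring
    exact_mod_cast h5
  have hNq : Fintype.card V ≤ ⌈y⌉₊ * m := by
    have h5 : (Fintype.card V : ℝ) ≤ ⌈y⌉₊ * m := by
      calc (Fintype.card V : ℝ) ≤ y ^ 31 := by rw [hy31]; exact hVm
        _ = y * m := by rw [← hy30]; ring
        _ ≤ _ := by gcongr
    exact_mod_cast h5
  have hdeg : (1 + 1 / (⌈y⌉₊ : ℝ)) * m * Fintype.card V ≤ ∑ v, (G.degree v : ℝ) := by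
    have h5 : ∑ v, (G.degree v : ℝ) = 2 * #G.edgeFinset := by
      exact_mod_cast G.sum_degrees_eq_twice_card_edges
    rw [h5]
    refine le_trans ?_ hE
    gcongr
    rw [← hy29, add_mul, one_mul]
    gcongr
    rw [one_div, inv_mul_le_iff₀ hq0']
    calc (m : ℝ) = y * y ^ 29 := by rw [← hy30]; ring
      _ ≤ _ := by gcongr
  refine embed_tree T hT G fun p hp => ?_
  rw [Fintype.card_fin]
  exact hES ⌈y⌉₊ m hqq hq28 V G hV hNq hdeg p hp

end Pool.Agent.PolyTree
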