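import Pool.Agent.PolyTree.Defs

/-!
# The deviation of the sums in a state
-/

set_option autoImplicit false

namespace Pool.Agent.PolyTree

open Finset

variable {V : Type} [Fintype V] [DecidableEq V]
variable {G : SimpleGraph V} [DecidableRel G.Adj] {m q L : ℕ} {p : ℕ → ℕ} {W : Finset ℕ}
  {top : ℕ → ℕ} {par : ℕ → Bool} {A : Bool → Finset V} {X0 X1 : Bool → ℝ} {Λ h : ℝ}
  {k : ℕ} {φ : ℕ → V} {x : V → ℝ} {M D : V ⊕ (V × V) ⊕ (V × Bool) → ℝ}

/-- The test functions have values in `[0, 1]`. -/
theorem test_nonneg (t : V ⊕ (V × V) ⊕ (V × Bool)) (v : V) : 0 ≤ test G m A t v := by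
  rcases t with u | ⟨a, w⟩ | ⟨u, b⟩
  · simp only [test]
    split_ifs
    · exact zero_le_one
    · exact le_rfl
  · simp only [test]
    split_ifs
    · positivity
    · exact le_rfl
  · simp only [test]
    split_ifs
    · exact zero_le_one
    · exact le_rfl

theorem test_le_one (hδ : ∀ v, (m / 2 : ℝ) ≤ G.degree v) (t : V ⊕ (V × V) ⊕ (V × Bool)) (v : V) :
    test G m A t v ≤ 1 := by
  rcases t with u | ⟨a, w⟩ | ⟨u, b⟩
  · simp only [test]
    split_ifs
    · exact le_rfl
    · exact zero_le_one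
  · simp only [test]
    split_ifs
    · exact div_le_one_of_le₀ (hδ v) (Nat.cast_nonneg _)
    · exact zero_le_one
  · simp only [test]
    split_ifs
    · exact le_rfl
    · exact zero_le_one

/-- The deviation of all the sums is at most `Λ`.

Proof. By `S_eq` the difference is `M t - D t`. `exp (h |M t|) ≤ pot h M ≤ 8 N ^ 2 *
exp (4608 h ^ 2 q ^ 2 L m)` (`card (V ⊕ V × V ⊕ V × Bool) = N ^ 2 + 3 N ≤ 4 N ^ 2` as `1 ≤ m ≤ N`,
and the filtered set has at most `m` elements), so
`|M t| ≤ (log (8 N ^ 2) + 4608 h ^ 2 q ^ 2 L m) / h`. `0 ≤ D t ≤ 16 q #W ≤ 16 q (4 (m / L) + 4)`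
by `card_le`. Now use `hn.dev`. -/
theorem State.dev (hs : State G m q L p W top par A X0 X1 h k φ x M D)
    (hd : Dec m L p W top par) (hn : Num (Fintype.card V) m q L Λ h)
    (t : V ⊕ (V × V) ⊕ (V × Bool)) :
    |S (used m top k φ) x (test G m A t) - ∑ v, test G m A t v| ≤ Λ := by
  have hh := hn.h_pos
  have hN1 : (1 : ℝ) ≤ Fintype.card V := by
    exact_mod_cast hn.m_pos.trans hn.m_le
  have e1 : S (used m top k φ) x (test G m A t) - ∑ v, test G m A t v = M t - D t := by
    rw [hs.S_eq t]; ring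
  rw [e1]
  have h1 : |M t - D t| ≤ |M t| + D t := by
    have := abs_sub (M t) (D t)
    rwa [abs_of_nonneg (hs.D_nonneg t)] at this
  refine h1.trans (le_trans ?_ hn.dev)
  apply add_le_add
  · rw [le_div_iff₀ hh]
    -- the potential
    have h2 : Real.exp (h * |M t|) ≤ pot h M := by
      have h3 : Real.exp (h * |M t|) ≤ Real.exp (h * M t) + Real.exp (-(h * M t)) := by
        rcases abs_cases (M t) with ⟨h4, _⟩ | ⟨h4, _⟩
        · rw [h4]
          linarith [Real.exp_pos (-(h * M t))]
        · rw [h4, mul_neg]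
          linarith [Real.exp_pos (h * M t)]
      refine h3.trans ?_
      unfold pot
      exact single_le_sum (f := fun t => Real.exp (h * M t) + Real.exp (-(h * M t)))
        (fun t _ => add_nonneg (Real.exp_pos _).le (Real.exp_pos _).le) (mem_univ t)
    have h3 := h2.trans hs.pot_le
    have hcard : (Fintype.card (V ⊕ (V × V) ⊕ (V × Bool)) : ℝ) ≤ 4 * (Fintype.card V : ℝ) ^ 2 := by
      rw [Fintype.card_sum, Fintype.card_sum, Fintype.card_prod, Fintype.card_prod,
        Fintype.card_bool]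
      push_cast
      nlinarith
    have hcount : (#{i ∈ range m | i ∉ W ∧ top i < k} : ℝ) ≤ m := by
      have := card_le_card (filter_subset (fun i => i ∉ W ∧ top i < k) (range m))
      rw [card_range] at this
      exact_mod_cast this
    have h4 : Real.exp (h * |M t|) ≤ (8 * (Fintype.card V : ℝ) ^ 2) *
        Real.exp (4608 * h ^ 2 * q ^ 2 * L * m) := by
      refine h3.trans ?_
      apply mul_le_mul _ _ (Real.exp_pos _).le (by positivity)
      · linarith
      · apply Real.exp_le_exp.2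
        exact mul_le_mul_of_nonneg_left hcount (by positivity)
    have h5 := Real.log_le_log (Real.exp_pos _) h4
    rw [Real.log_exp, Real.log_mul (by positivity) (Real.exp_pos _).ne', Real.log_exp] at h5
    linarith
  · refine (hs.D_le t).trans ?_
    have h2 : (#{i ∈ W | i < k} : ℝ) ≤ 4 * (m / L : ℕ) + 4 := by
      have h3 := (card_le_card (filter_subset (fun i => i < k) W)).trans hd.card_le
      exact_mod_cast h3
    exact mul_le_mul_of_nonneg_left h2 (by positivity)

/-- The capacities do not get small.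

Proof. `wt ≥ 0`, so the sum in `x_ge` is at most `1 - 1 / (8 q)`; with `t = 1 / (16 q)`:
`1 - (1 + t) (1 - 2 t) = t + 2 t ^ 2 ≥ t`. -/
theorem State.x_pos (hs : State G m q L p W top par A X0 X1 h k φ x M D)
    (hd : Dec m L p W top par) (hn : Num (Fintype.card V) m q L Λ h)
    (hc : Cls G m q A X0 X1)
    (hX : ∑ i ∈ range m with i ∉ W, wt p top par X0 X1 i / m ≤ 1 - 1 / (8 * q)) (v : V) :
    1 / (16 * q : ℝ) ≤ x v := by
  refine le_trans ?_ (hs.x_ge v)
  have hq : (1 : ℝ) ≤ q := by exact_mod_cast hn.q_pos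
  have hw : ∀ i, 0 ≤ wt p top par X0 X1 i / m := by
    intro i
    apply div_nonneg _ (Nat.cast_nonneg _)
    unfold wt
    split_ifs
    · exact hc.X1_nonneg _
    · exact hc.X0_nonneg _
  have h1 : ∑ i ∈ range m with i ∉ W ∧ top i < k, wt p top par X0 X1 i / m
      ≤ 1 - 1 / (8 * q) := by
    refine le_trans ?_ hX
    apply sum_le_sum_of_subset_of_nonneg
    · intro i hi
      rw [mem_filter] at hi ⊢
      exact ⟨hi.1, hi.2.1⟩
    · intro i _ _
      exact hw i
  have ht : 0 < 1 / (16 * (q : ℝ)) := by positivity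
  have h2 : 1 / (8 * (q : ℝ)) = 2 * (1 / (16 * (q : ℝ))) := by
    field_simp
    norm_num
  rw [h2] at h1
  set t := 1 / (16 * (q : ℝ)) with hdt
  have h3 : (1 + t) * ∑ i ∈ range m with i ∉ W ∧ top i < k, wt p top par X0 X1 i / m
      ≤ (1 + t) * (1 - 2 * t) := mul_le_mul_of_nonneg_left h1 (by linarith)
  nlinarith

end Pool.Agent.PolyTree
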