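import Mathlib

/-!
# Subgraphs of large minimum degree
-/

set_option autoImplicit false

namespace Pool.Agent.PolyTree

open Finset

private lemma sum_erase_erase {V : Type} [DecidableEq V] (a : V → V → ℝ) {U : Finset V} {v : V}
    (hv : v ∈ U) (hs : ∀ u w, a u w = a w u) (h0 : a v v = 0) :
    ∑ u ∈ U.erase v, ∑ w ∈ U.erase v, a u w =
      (∑ u ∈ U, ∑ w ∈ U, a u w) - 2 * ∑ w ∈ U, a v w := by
  have h1 : ∀ u, ∑ w ∈ U.erase v, a u w = ∑ w ∈ U, a u w - a u v := fun u => by
    rw [← Finset.sum_erase_add U _ hv, add_sub_cancel_right]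
  have h2 : ∀ f : V → ℝ, ∑ u ∈ U.erase v, f u = ∑ u ∈ U, f u - f v := fun f => by
    rw [← Finset.sum_erase_add U _ hv, add_sub_cancel_right]
  rw [h2 fun u => ∑ w ∈ U.erase v, a u w]
  simp only [h1, Finset.sum_sub_distrib, h0]
  have h3 : ∑ u ∈ U, a u v = ∑ w ∈ U, a v w := Finset.sum_congr rfl fun u _ => hs u v
  rw [h3]
  ring

/-- A graph with `c * N ≤ ∑ deg` has an induced subgraph with the same property and with minimum
degree at least `c / 2`.

Proof. Take a nonempty `U` of minimal cardinality with `c * #U ≤ ∑ v ∈ U, #{w ∈ U | Adj v w}`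
(`univ` is such a set). If `v ∈ U` has `#{w ∈ U | Adj v w} < c / 2`, then the sum for `U.erase v`
is the sum for `U` minus `2 * #{w ∈ U | Adj v w}`, so `U.erase v` has the property; it is not empty
since `#{w ∈ {v} | Adj v w} = 0 < c`. This contradicts the minimality. -/
theorem exists_minDeg {V : Type} [Fintype V] [DecidableEq V] (G : SimpleGraph V)
    [DecidableRel G.Adj] (c : ℝ) (hc : 0 < c) (hN : 0 < Fintype.card V)
    (h : c * Fintype.card V ≤ ∑ v, (G.degree v : ℝ)) :
    ∃ U : Finset V, U.Nonempty ∧
      (∀ v ∈ U, c / 2 ≤ #{w ∈ U | G.Adj v w}) ∧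
      c * #U ≤ ∑ v ∈ U, (#{w ∈ U | G.Adj v w} : ℝ) := by
  classical
  have hV : (univ : Finset V).Nonempty := by
    rw [← Finset.card_pos, Finset.card_univ]
    exact hN
  have huniv : (univ : Finset V) ∈ (univ : Finset (Finset V)).filter fun U =>
      U.Nonempty ∧ c * #U ≤ ∑ v ∈ U, (#{w ∈ U | G.Adj v w} : ℝ) := by
    rw [Finset.mem_filter]
    refine ⟨Finset.mem_univ _, hV, ?_⟩
    rw [Finset.card_univ]
    refine h.trans (le_of_eq (Finset.sum_congr rfl fun v _ => ?_))
    rw [← G.card_neighborFinset_eq_degree]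
    congr 2
    ext w
    simp
  obtain ⟨U, hU, hmin⟩ := Finset.exists_min_image _ Finset.card ⟨univ, huniv⟩
  obtain ⟨-, hU1, hU2⟩ := Finset.mem_filter.mp hU
  refine ⟨U, hU1, fun v hv => ?_, hU2⟩
  by_contra hlt
  rw [not_le] at hlt
  set a : V → V → ℝ := fun u w => if G.Adj u w then 1 else 0 with ha
  have hcard : ∀ (W : Finset V) (u : V), (#{w ∈ W | G.Adj u w} : ℝ) = ∑ w ∈ W, a u w := by
    intro W u
    rw [Finset.sum_boole]
  have hs : ∀ u w, a u w = a w u := fun u w => by simp only [ha, G.adj_comm u w]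
  have h0 : a v v = 0 := by simp [ha]
  have h1 := sum_erase_erase a hv hs h0
  simp only [hcard] at hU2 hlt
  have h2 : ((U.erase v).card : ℝ) = U.card - 1 := by
    rw [Finset.card_erase_of_mem hv, Nat.cast_sub (Finset.card_pos.mpr hU1), Nat.cast_one]
  have hne : (U.erase v).Nonempty := by
    rw [Finset.nonempty_iff_ne_empty]
    intro he
    have h3 : U = {v} := by
      rw [Finset.erase_eq_empty_iff] at he
      rcases he with he | he
      · exact absurd he hU1.ne_empty
      · exact he
    rw [h3] at hU2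
    simp only [Finset.card_singleton, Finset.sum_singleton, h0, Nat.cast_one, mul_one] at hU2
    linarith
  have h4 : (U.erase v).card < U.card := Finset.card_erase_lt_of_mem hv
  have h5 := hmin (U.erase v) (by
    rw [Finset.mem_filter]
    refine ⟨Finset.mem_univ _, hne, ?_⟩
    simp only [hcard]
    rw [h1, h2]
    linarith)
  omega

/-- Greedy embedding.

Proof. By induction on `k ≤ m` there is `φ` with `φ i ∈ U` for all `i`, injective on `{i | i < k}`
and with the adjacencies for `0 < i < k`: the image of `k` (`0 < k`) is a point of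
`{w ∈ U | Adj (φ (p k)) w}` (at least `m > k` points) which is not in the image of `range k`. -/
theorem greedy {V : Type} [Fintype V] [DecidableEq V] (G : SimpleGraph V) [DecidableRel G.Adj]
    (U : Finset V) (hU : U.Nonempty) (m : ℕ) (h : ∀ v ∈ U, m ≤ #{w ∈ U | G.Adj v w})
    (p : ℕ → ℕ) (hp : ∀ i, 0 < i → p i < i) :
    ∃ φ : ℕ → V, (∀ i < m, ∀ j < m, φ i = φ j → i = j) ∧
      ∀ i, 0 < i → i < m → G.Adj (φ i) (φ (p i)) := by
  classical
  suffices key : ∀ k ≤ m, ∃ φ : ℕ → V, (∀ i, φ i ∈ U) ∧
      (∀ i < k, ∀ j < k, φ i = φ j → i = j) ∧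
      ∀ i, 0 < i → i < k → G.Adj (φ i) (φ (p i)) by
    obtain ⟨φ, -, h1, h2⟩ := key m le_rfl
    exact ⟨φ, h1, h2⟩
  obtain ⟨u, hu⟩ := hU
  intro k
  induction k with
  | zero => exact fun _ => ⟨fun _ => u, fun _ => hu, by simp, by simp⟩
  | succ k ih =>
    intro hk
    obtain ⟨φ, hφ, h1, h2⟩ := ih (by omega)
    obtain ⟨w, hw, hwi⟩ : ∃ w ∈ U.filter fun w => G.Adj (φ (p k)) w, w ∉ (range k).image φ := by
      by_contra hcon
      push Not at hcon
      have h3 : (U.filter fun w => G.Adj (φ (p k)) w).card ≤ ((range k).image φ).card :=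
        Finset.card_le_card hcon
      have h4 := h (φ (p k)) (hφ _)
      have h5 : ((range k).image φ).card ≤ k := by
        simpa using Finset.card_image_le (s := range k) (f := φ)
      omega
    rw [Finset.mem_filter] at hw
    have hup : ∀ i, i ≠ k → Function.update φ k w i = φ i := fun i hi =>
      Function.update_of_ne hi _ _
    have huk : Function.update φ k w k = w := Function.update_self _ _ _
    have hnew : ∀ i < k, φ i ≠ w := fun i hi he =>
      hwi (Finset.mem_image.mpr ⟨i, Finset.mem_range.mpr hi, he⟩)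
    refine ⟨Function.update φ k w, fun i => ?_, fun i hi j hj hij => ?_, fun i hi hik => ?_⟩
    · rcases eq_or_ne i k with rfl | hik
      · rw [huk]
        exact hw.1
      · rw [hup i hik]
        exact hφ i
    · rcases eq_or_ne i k with rfl | hik
      · rcases eq_or_ne j i with rfl | hji
        · rfl
        · rw [huk, hup j hji] at hij
          exact absurd hij.symm (hnew j (by omega))
      · rcases eq_or_ne j k with rfl | hjk
        · rw [huk, hup i hik] at hij
          exact absurd hij (hnew i (by omega))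
        · rw [hup i hik, hup j hjk] at hij
          exact h1 i (by omega) j (by omega) hij
    · have hpi := hp i hi
      rw [hup (p i) (by omega)]
      rcases eq_or_ne i k with rfl | hne
      · rw [huk]
        exact hw.2.symm
      · rw [hup i hne]
        exact h2 i hi (by omega)

end Pool.Agent.PolyTree
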