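import Pool.Agent.PolyTree.Defs

/-!
# The parameters
-/

set_option autoImplicit false

namespace Pool.Agent.PolyTree

open Finset

/-- The logarithm of a large number. -/
private lemma log_bd {q m N : ℕ} (hq : (112 * (45 * 2 ^ 130)) ^ 2 ≤ q) (hm : q ^ 28 ≤ m)
    (hmN : m ≤ N) (hN : N ≤ q * m) :
    Real.log (8 * (N : ℝ) ^ 2) * (9 * 2 ^ 130 * (q : ℝ) ^ 27) ≤ m := by
  have hq1 : (1 : ℝ) ≤ q := by
    have : 1 ≤ q := le_trans (by norm_num) hq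
    exact_mod_cast this
  have hqR : ((112 * (45 * 2 ^ 130)) ^ 2 : ℝ) ≤ q := by exact_mod_cast hq
  have hmR : (q : ℝ) ^ 28 ≤ m := by exact_mod_cast hm
  have hq0 : (0 : ℝ) < q := by linarith
  have hqm : (q : ℝ) ≤ m := le_trans (le_self_pow₀ hq1 (by norm_num)) hmR
  have hm0 : (0 : ℝ) < m := by linarith
  have hm8 : (8 : ℝ) ≤ m := by
    refine le_trans ?_ hqm
    refine le_trans ?_ hqR
    norm_num
  have hNR : (N : ℝ) ≤ q * m := by exact_mod_cast hN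
  have hN0 : (0 : ℝ) < N := lt_of_lt_of_le hm0 (by exact_mod_cast hmN)
  have hN2 : (N : ℝ) ≤ m ^ 2 := by nlinarith
  have h8 : 8 * (N : ℝ) ^ 2 ≤ (m : ℝ) ^ 5 := by
    have h1 : (N : ℝ) ^ 2 ≤ (m ^ 2) ^ 2 := pow_le_pow_left₀ hN0.le hN2 2
    calc 8 * (N : ℝ) ^ 2 ≤ m * (m ^ 2) ^ 2 := mul_le_mul hm8 h1 (by positivity) hm0.le
      _ = (m : ℝ) ^ 5 := by ring
  have hlog1 : Real.log (8 * (N : ℝ) ^ 2) ≤ 5 * Real.log m := by
    have := Real.log_le_log (by positivity) h8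
    rwa [Real.log_pow] at this
  have hq28 : (0 : ℝ) < (q : ℝ) ^ 28 := by positivity
  have hlog2 : Real.log m ≤ m / (q : ℝ) ^ 28 + 28 * Real.log q := by
    have h1 : (m : ℝ) = (m / (q : ℝ) ^ 28) * (q : ℝ) ^ 28 := by field_simp
    have h2 : Real.log m = Real.log (m / (q : ℝ) ^ 28) + Real.log ((q : ℝ) ^ 28) := by
      conv_lhs => rw [h1]
      exact Real.log_mul (by positivity) (by positivity)
    rw [h2, Real.log_pow]
    have h3 := Real.log_le_sub_one_of_pos (show 0 < m / (q : ℝ) ^ 28 by positivity)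
    push_cast
    linarith
  have hs : Real.sqrt q * Real.sqrt q = q := Real.mul_self_sqrt hq0.le
  have hs0 : 0 < Real.sqrt q := Real.sqrt_pos.mpr hq0
  have hlog3 : Real.log q ≤ 2 * Real.sqrt q := by
    have h1 : Real.log q = 2 * Real.log (Real.sqrt q) := by
      rw [Real.log_sqrt hq0.le]
      ring
    have h2 := Real.log_le_sub_one_of_pos hs0
    linarith
  have hsq : (112 * (45 * 2 ^ 130) : ℝ) ≤ Real.sqrt q := Real.le_sqrt_of_sq_le hqR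
  have hlog4 : Real.log q * (112 * (45 * 2 ^ 130)) ≤ 2 * q := by
    calc Real.log q * (112 * (45 * 2 ^ 130)) ≤ (2 * Real.sqrt q) * Real.sqrt q :=
          mul_le_mul hlog3 hsq (by norm_num) (by positivity)
      _ = 2 * q := by rw [mul_assoc, hs]
  have hq2 : (2 * (45 * 2 ^ 130) : ℝ) ≤ q := le_trans (by norm_num) hqR
  have e1 : (m / (q : ℝ) ^ 28) * (45 * 2 ^ 130 * (q : ℝ) ^ 27) ≤ m / 2 := by
    have h1 : (m / (q : ℝ) ^ 28) * (45 * 2 ^ 130 * (q : ℝ) ^ 27) = 45 * 2 ^ 130 * m / q := by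
      field_simp
    rw [h1, div_le_iff₀ hq0]
    nlinarith
  have e2 : 28 * Real.log q * (45 * 2 ^ 130 * (q : ℝ) ^ 27) ≤ m / 2 := by
    have h27 : (0 : ℝ) < (q : ℝ) ^ 27 := by positivity
    have h1 : Real.log q * (112 * (45 * 2 ^ 130)) * (q : ℝ) ^ 27 ≤ 2 * q * (q : ℝ) ^ 27 :=
      mul_le_mul_of_nonneg_right hlog4 h27.le
    have h2 : 2 * q * (q : ℝ) ^ 27 = 2 * (q : ℝ) ^ 28 := by ring
    rw [h2] at h1
    linarith
  have h27 : (0 : ℝ) < 9 * 2 ^ 130 * (q : ℝ) ^ 27 := by positivity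
  have e3 : Real.log (8 * (N : ℝ) ^ 2) * (9 * 2 ^ 130 * (q : ℝ) ^ 27) ≤
      5 * (m / (q : ℝ) ^ 28 + 28 * Real.log q) * (9 * 2 ^ 130 * (q : ℝ) ^ 27) :=
    mul_le_mul_of_nonneg_right (by linarith) h27.le
  have e4 : 5 * (m / (q : ℝ) ^ 28 + 28 * Real.log q) * (9 * 2 ^ 130 * (q : ℝ) ^ 27) =
      (m / (q : ℝ) ^ 28) * (45 * 2 ^ 130 * (q : ℝ) ^ 27) +
      28 * Real.log q * (45 * 2 ^ 130 * (q : ℝ) ^ 27) := by ring
  linarith

/-- The parameters.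

Proof. `L = 2 ^ 43 q ^ 9`, `Λ = m / (2 ^ 36 q ^ 8)`, `h = Λ / (36864 q ^ 2 L m)` which is
`1 / (36864 * 2 ^ 79 * q ^ 19)`. `Λ_le`: `256 q ^ 2 ≤ 2 ^ 36 q ^ 8`. `Λ_le'`: `m ≤ N`.
`coll`: `L ^ 2 * 2 ^ 20 q ^ 4 = 2 ^ 106 q ^ 22 ≤ q ^ 28` if `2 ^ 18 ≤ q`. `hL`: clear.
`dev`: `4608 h q ^ 2 L m = Λ / 8`; `16 q * 4 * (m / L) ≤ 64 q m / (2 ^ 43 q ^ 9) =
m / (2 ^ 37 q ^ 8) = Λ / 2`; `64 q ≤ Λ / 8` as `m ≥ q ^ 28`; and
`log (8 N ^ 2) / h ≤ Λ / 8`, i.e. `log (8 N ^ 2) * 36864 * 2 ^ 79 * q ^ 19 * 8 * 2 ^ 36 q ^ 8 ≤ m`: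
`N ≤ q m ≤ m ^ 2`, `8 N ^ 2 ≤ m ^ 5`, so it is enough that `C * q ^ 27 * log m ≤ m` with an
absolute constant `C`. As `q ≤ m ^ (1 / 28)`, `q ^ 27 ≤ m ^ (27 / 28)`, and
`C * log m ≤ m ^ (1 / 28)` if `m` is large (`log m ≤ 56 * m ^ (1 / 56)`, or
`isLittleO_log_rpow_atTop`); `m ≥ q ^ 28 ≥ q ≥ q₀`. -/
theorem exists_params : ∃ q₀ : ℕ, ∀ q m N : ℕ, q₀ ≤ q → q ^ 28 ≤ m → m ≤ N → N ≤ q * m →
    ∃ (L : ℕ) (Λ h : ℝ), Num N m q L Λ h := by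
  refine ⟨(112 * (45 * 2 ^ 130)) ^ 2, fun q m N hq hm hmN hN => ?_⟩
  have hlog := log_bd hq hm hmN hN
  have hq1N : 1 ≤ q := le_trans (by norm_num) hq
  have hq1 : (1 : ℝ) ≤ q := by exact_mod_cast hq1N
  have hq0 : (0 : ℝ) < q := by linarith
  have hqR : ((112 * (45 * 2 ^ 130)) ^ 2 : ℝ) ≤ q := by exact_mod_cast hq
  have hq18 : (2 ^ 18 : ℝ) ≤ q := le_trans (by norm_num) hqR
  have hmR : (q : ℝ) ^ 28 ≤ m := by exact_mod_cast hm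
  have hqm : (q : ℝ) ≤ m := le_trans (le_self_pow₀ hq1 (by norm_num)) hmR
  have hm0 : (0 : ℝ) < m := by linarith
  have hmNR : (m : ℝ) ≤ N := by exact_mod_cast hmN
  have hq6 : (2 ^ 108 : ℝ) ≤ (q : ℝ) ^ 6 := by
    calc (2 ^ 108 : ℝ) = (2 ^ 18) ^ 6 := by norm_num
      _ ≤ (q : ℝ) ^ 6 := pow_le_pow_left₀ (by norm_num) hq18 6
  have e : ((2 ^ 43 * q ^ 9 : ℕ) : ℝ) = 2 ^ 43 * (q : ℝ) ^ 9 := by
    rw [Nat.cast_mul, Nat.cast_pow, Nat.cast_pow]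
    norm_num
  refine ⟨2 ^ 43 * q ^ 9, m / (2 ^ 36 * q ^ 8), 1 / (36864 * 2 ^ 79 * q ^ 19), ?_⟩
  constructor
  · exact hq1N
  · have : (0 : ℝ) < (m : ℝ) := hm0
    exact_mod_cast this
  · exact Nat.one_le_iff_ne_zero.mpr (by positivity)
  · exact hmN
  · exact hN
  · positivity
  · positivity
  · -- `Λ_le`
    apply div_le_div_of_nonneg_left hm0.le (by positivity)
    calc 256 * (q : ℝ) ^ 2 ≤ 2 ^ 36 * (q : ℝ) ^ 2 := by
          apply mul_le_mul_of_nonneg_right (by norm_num) (by positivity)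
      _ ≤ 2 ^ 36 * (q : ℝ) ^ 8 := by
          apply mul_le_mul_of_nonneg_left _ (by norm_num)
          exact pow_le_pow_right₀ hq1 (by norm_num)
  · -- `Λ_le'`
    calc (m : ℝ) / (2 ^ 36 * q ^ 8) ≤ m / (2 ^ 35 * q ^ 8) := by
          apply div_le_div_of_nonneg_left hm0.le (by positivity)
          apply mul_le_mul_of_nonneg_right (by norm_num) (by positivity)
      _ ≤ (N : ℝ) / (2 ^ 35 * q ^ 8) := by
          apply div_le_div_of_nonneg_right hmNR (by positivity)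
  · -- `coll`
    rw [e]
    calc (2 ^ 43 * (q : ℝ) ^ 9) ^ 2 * (2 ^ 20 * q ^ 4) = 2 ^ 106 * (q : ℝ) ^ 22 := by ring
      _ ≤ (q : ℝ) ^ 6 * (q : ℝ) ^ 22 := by
          apply mul_le_mul_of_nonneg_right _ (by positivity)
          linarith
      _ = (q : ℝ) ^ 28 := by ring
      _ ≤ m := hmR
  · -- `hL`
    rw [e, one_div_mul_eq_div, div_le_one (by positivity)]
    calc 48 * (q : ℝ) * (2 ^ 43 * q ^ 9) = 48 * 2 ^ 43 * (q : ℝ) ^ 10 := by ring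
      _ ≤ 36864 * 2 ^ 79 * (q : ℝ) ^ 10 := by
          apply mul_le_mul_of_nonneg_right (by norm_num) (by positivity)
      _ ≤ 36864 * 2 ^ 79 * (q : ℝ) ^ 19 := by
          apply mul_le_mul_of_nonneg_left _ (by norm_num)
          exact pow_le_pow_right₀ hq1 (by norm_num)
  · -- `dev`
    have hfl : ((m / (2 ^ 43 * q ^ 9) : ℕ) : ℝ) ≤ (m : ℝ) / (2 ^ 43 * q ^ 9) := by
      have := @Nat.cast_div_le ℝ _ _ _ m (2 ^ 43 * q ^ 9)
      rwa [e] at this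
    have t1 : (Real.log (8 * (N : ℝ) ^ 2) + 4608 * (1 / (36864 * 2 ^ 79 * (q : ℝ) ^ 19)) ^ 2 *
        q ^ 2 * (2 ^ 43 * (q : ℝ) ^ 9) * m) / (1 / (36864 * 2 ^ 79 * (q : ℝ) ^ 19)) =
        Real.log (8 * (N : ℝ) ^ 2) * (36864 * 2 ^ 79 * (q : ℝ) ^ 19) +
        m / (2 ^ 36 * q ^ 8) / 8 := by
      field_simp
      ring
    have t2 : Real.log (8 * (N : ℝ) ^ 2) * (36864 * 2 ^ 79 * (q : ℝ) ^ 19) ≤
        m / (2 ^ 36 * q ^ 8) / 8 := by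
      rw [le_div_iff₀ (by norm_num), le_div_iff₀ (by positivity)]
      calc Real.log (8 * (N : ℝ) ^ 2) * (36864 * 2 ^ 79 * (q : ℝ) ^ 19) * 8 *
          (2 ^ 36 * (q : ℝ) ^ 8) =
          Real.log (8 * (N : ℝ) ^ 2) * (9 * 2 ^ 130 * (q : ℝ) ^ 27) := by ring
        _ ≤ (m : ℝ) := hlog
    have t3 : 64 * (q : ℝ) ≤ m / (2 ^ 36 * q ^ 8) / 8 := by
      rw [le_div_iff₀ (by norm_num), le_div_iff₀ (by positivity)]
      calc 64 * (q : ℝ) * 8 * (2 ^ 36 * q ^ 8) = 2 ^ 45 * (q : ℝ) ^ 9 := by ring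
        _ ≤ (q : ℝ) ^ 6 * (q : ℝ) ^ 9 := by
            apply mul_le_mul_of_nonneg_right _ (by positivity)
            refine le_trans (by norm_num) hq6
        _ = (q : ℝ) ^ 15 := by ring
        _ ≤ (q : ℝ) ^ 28 := pow_le_pow_right₀ hq1 (by norm_num)
        _ ≤ m := hmR
    have t4 : 64 * (q : ℝ) * (m / (2 ^ 43 * q ^ 9)) = m / (2 ^ 36 * q ^ 8) / 2 := by
      field_simp
      ring
    have t5 : 64 * (q : ℝ) * ((m / (2 ^ 43 * q ^ 9) : ℕ) : ℝ) ≤ m / (2 ^ 36 * q ^ 8) / 2 := by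
      rw [← t4]
      exact mul_le_mul_of_nonneg_left hfl (by positivity)
    rw [e, t1]
    linarith

end Pool.Agent.PolyTree
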