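import Pool.Agent.PolyTree.Core
import Pool.Agent.PolyTree.Params
import Pool.Agent.PolyTree.MinDeg

/-!
# A polynomial form of the Erdős–Sós conjecture
-/

set_option autoImplicit false

namespace Pool.Agent.PolyTree

open Finset

/-- Every graph with `N ≤ q m` vertices and average degree at least `(1 + 1 / q) m` contains every
tree with `m` vertices, if `q ^ 28 ≤ m` and `q` is large.

Proof. Take `U` from `exists_minDeg` with `c = (1 + 1 / q) m` and apply `core` to the graph induced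
on `U` (type `{v // v ∈ U}`, `G.comap Subtype.val` or `G.induce`), whose degree at `v` is
`#{w ∈ U | Adj v w}`: degrees `≥ c / 2 ≥ m / 2`. `m ≤ #U`: the sum of the degrees is at most
`#U * #U`. `Num` from `exists_params` (with `q₀` at least `1`). Compose the embedding with
`Subtype.val`. -/
theorem erdos_sos : ∃ q₀ : ℕ, ∀ q m : ℕ, q₀ ≤ q → q ^ 28 ≤ m →
    ∀ (V : Type) [Fintype V] [DecidableEq V] (G : SimpleGraph V) [DecidableRel G.Adj],
    0 < Fintype.card V → Fintype.card V ≤ q * m →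
    (1 + 1 / (q : ℝ)) * m * Fintype.card V ≤ ∑ v, (G.degree v : ℝ) →
    ∀ p : ℕ → ℕ, (∀ i, 0 < i → p i < i) →
    ∃ φ : ℕ → V, (∀ i < m, ∀ j < m, φ i = φ j → i = j) ∧
      ∀ i, 0 < i → i < m → G.Adj (φ i) (φ (p i)) := by
  obtain ⟨q₀, hP⟩ := exists_params
  refine ⟨max q₀ 1, fun q m hq hqm V _ _ G _ hV0 hVm havg p hp => ?_⟩
  have hq0 : q₀ ≤ q := (le_max_left _ _).trans hq
  have hq1 : 1 ≤ q := (le_max_right _ _).trans hq
  have hm1 : 1 ≤ m := (Nat.one_le_pow _ _ hq1).trans hqm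
  have hqr : (0 : ℝ) < q := by exact_mod_cast hq1
  have hmr : (0 : ℝ) < m := by exact_mod_cast hm1
  have hc : (0 : ℝ) < (1 + 1 / (q : ℝ)) * m := by positivity
  have hcm : (m : ℝ) ≤ (1 + 1 / (q : ℝ)) * m := by
    have : 0 ≤ 1 / (q : ℝ) * m := by positivity
    linarith
  obtain ⟨U, hU, hU1, hU2⟩ := exists_minDeg G _ hc hV0 havg
  let G' : SimpleGraph {v // v ∈ U} := G.comap Subtype.val
  have : DecidableRel G'.Adj := Classical.decRel _
  have hdeg : ∀ v : {v // v ∈ U}, G'.degree v = #{w ∈ U | G.Adj v w} := by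
    intro v
    rw [← SimpleGraph.card_neighborFinset_eq_degree,
      ← card_map (⟨Subtype.val, Subtype.val_injective⟩ : {v // v ∈ U} ↪ V)]
    congr 1
    ext w
    simp only [mem_map, SimpleGraph.mem_neighborFinset, Function.Embedding.coeFn_mk, mem_filter,
      Subtype.exists, exists_and_right, exists_eq_right]
    constructor
    · rintro ⟨h1, h2⟩
      exact ⟨h1, h2⟩
    · rintro ⟨h1, h2⟩
      exact ⟨h1, h2⟩
  have hcard : Fintype.card {v // v ∈ U} = #U := Fintype.card_coe U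
  have hsum : ∑ v : {v // v ∈ U}, (G'.degree v : ℝ) =
      ∑ v ∈ U, (#{w ∈ U | G.Adj v w} : ℝ) := by
    rw [← Finset.sum_coe_sort U]
    exact sum_congr rfl fun v _ => by rw [hdeg v]
  have hU0 : (0 : ℝ) < #U := by exact_mod_cast card_pos.2 hU
  have hmU : (m : ℝ) ≤ #U := by
    have h1 : ∑ v ∈ U, (#{w ∈ U | G.Adj v w} : ℝ) ≤ ∑ v ∈ U, (#U : ℝ) :=
      sum_le_sum fun v _ => by exact_mod_cast card_filter_le _ _
    rw [sum_const, nsmul_eq_mul] at h1
    have h2 := hcm.trans (le_of_mul_le_mul_right (hU2.trans h1) hU0)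
    exact h2
  have hmU' : m ≤ #U := by exact_mod_cast hmU
  obtain ⟨L, Λ, h, hn⟩ := hP q m #U hq0 hqm hmU' ((card_le_univ U).trans hVm)
  obtain ⟨φ, h1, h2⟩ := core G' (by rw [hcard]; exact hn)
    (fun v => by
      rw [hdeg v]
      refine le_trans ?_ (hU1 v v.2)
      gcongr) (by rw [hcard, hsum]; exact hU2) hp
  exact ⟨fun i => (φ i).1, fun i hi j hj hij => h1 i hi j hj (Subtype.ext hij),
    fun i h0 hi => h2 i h0 hi⟩

end Pool.Agent.PolyTree
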