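import Pool.Agent.PolyTree.Rows

/-!
# The good event of a shrub is likely
-/

set_option autoImplicit false
set_option linter.unusedSectionVars false

namespace Pool.Agent.PolyTree

open Finset

variable {V : Type} [Fintype V] [DecidableEq V]
variable {G : SimpleGraph V} [DecidableRel G.Adj] {a : V} {U : Finset V} {x : V → ℝ}
  {ρ η δ : ℝ}

/-- The homomorphism is injective and the mark is not bad. -/
def GoodEv (n j : ℕ) (B : Finset V) (f : ℕ → V) : Prop :=
  Set.InjOn f (Set.Iic n) ∧ f j ∉ B

/-- The good event is likely.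

Proof. `1 - 1_Good ≤ ∑_{i < i' ≤ n} 1[f i = f i'] + 1[f j ∈ B]` pointwise. By `Ex_coll` (with
`om_le`, `tot_ge`, `δ ≤ deg a`) every term of the first sum has expectation at most
`card V * (ρ ^ 2 / δ) / tot ≤ card V * (ρ ^ 2 / δ) / ((1 - η) ^ 2 * δ)`, and there are at most
`(n + 1) ^ 2` terms. By `Ex_marg` (`s j = true`) and `row_true_le`, `tot_ge`:
`E 1[f j ∈ B] = ∑_{u ∈ B} row true u / tot ≤ ∑_{u ∈ N(a) ∩ B} (1 + η) / (x u * tot) ≤
#(N(a) ∩ B) * ρ * (1 + η) / ((1 - η) ^ 2 * deg a) ≤ β * (ρ * (1 + η) / (1 - η) ^ 2)`. Finally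
`E 1 = 1` (`Ex_one`, `0 < tot` by `tot_ge` and `0 < δ ≤ deg a`), `Ex_sub`, `Ex_sum`, `Ex_mono`. -/
theorem prob_good_ge (hl : Loc G a U x ρ η δ) (r : ℕ → ℕ) (s : ℕ → Bool) (n j : ℕ)
    (hr : ∀ i, 0 < i → r i < i) (hs0 : s 0 = true) (hs : ∀ i, 0 < i → s i = !s (r i))
    (hj : j ≤ n) (hsj : s j = true) (B : Finset V) (β δ0 : ℝ)
    (hB : (#(G.neighborFinset a ∩ B) : ℝ) ≤ β * G.degree a)
    (hcoll : (n + 1 : ℝ) ^ 2 * (Fintype.card V * (ρ ^ 2 / δ) / ((1 - η) ^ 2 * δ)) ≤ δ0 / 2)
    (hbad : β * (ρ * (1 + η) / (1 - η) ^ 2) ≤ δ0 / 2) :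
    1 - δ0 ≤ prob (om G a U x) r s n (GoodEv n j B) := by
  classical
  have hω := om_nonneg hl
  have hη1 : η ≤ 1 / 64 := hl.η_le
  have hη0 := hl.η_pos
  have hδ := hl.δ_pos
  have hρ := hl.ρ_pos
  have hdeg : δ ≤ G.degree a := hl.hδ a
  have hdeg0 : (0 : ℝ) < G.degree a := hδ.trans_le hdeg
  have hη2 : 0 < (1 - η) ^ 2 := pow_pos (by linarith) 2
  have htot := tot_ge hl
  have ht0 : 0 < (1 - η) ^ 2 * G.degree a := mul_pos hη2 hdeg0
  have ht : 0 < tot (om G a U x) := ht0.trans_le htot
  have hC0 : 0 ≤ Fintype.card V * (ρ ^ 2 / δ) / ((1 - η) ^ 2 * δ) := by positivity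
  have hcol : ∀ i i', i < i' → i' ≤ n →
      Ex (om G a U x) r s n (fun f => if f i = f i' then (1 : ℝ) else 0) ≤
        Fintype.card V * (ρ ^ 2 / δ) / ((1 - η) ^ 2 * δ) := by
    intro i i' hi hi'
    refine (Ex_coll hω hr hs0 hs ht (ρ ^ 2 / δ) (om_le hl) n i i' hi hi').trans ?_
    apply div_le_div_of_nonneg_left
    · positivity
    · positivity
    · exact (mul_le_mul_of_nonneg_left hdeg hη2.le).trans htot
  have hbadp : Ex (om G a U x) r s n (fun f => if f j ∈ B then (1 : ℝ) else 0) ≤
      β * (ρ * (1 + η) / (1 - η) ^ 2) := by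
    have h1 := Ex_marg hω hr hs0 hs n j hj (fun y => if y ∈ B then (1 : ℝ) else 0)
    rw [h1, hsj]
    have h2 : ∀ y, row (om G a U x) true y / tot (om G a U x) * (if y ∈ B then (1 : ℝ) else 0) ≤
        if y ∈ G.neighborFinset a ∩ B then (1 + η) * ρ / ((1 - η) ^ 2 * G.degree a) else 0 := by
      intro y
      have hK : 0 ≤ (1 + η) * ρ / ((1 - η) ^ 2 * G.degree a) := by positivity
      by_cases hyB : y ∈ B
      · rw [if_pos hyB, mul_one]
        have hxy : 0 < x y := lt_of_lt_of_le (by positivity) (hl.hx y)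
        have h3 := row_true_le hl y
        have hrow := row_nonneg hω true y
        by_cases hya : G.Adj a y ∧ y ∉ U
        · rw [if_pos hya] at h3
          rw [if_pos (by simp [hya.1, hyB])]
          have h4 : row (om G a U x) true y ≤ (1 + η) * ρ := by
            have h5 : 1 ≤ ρ * x y := by
              have := hl.hx y
              rw [div_le_iff₀ hρ] at this
              linarith
            calc row (om G a U x) true y = 1 * row (om G a U x) true y := (one_mul _).symm
              _ ≤ (ρ * x y) * row (om G a U x) true y := mul_le_mul_of_nonneg_right h5 hrow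
              _ = ρ * (x y * row (om G a U x) true y) := by ring
              _ ≤ ρ * (1 + η) := mul_le_mul_of_nonneg_left h3 hρ.le
              _ = (1 + η) * ρ := by ring
          exact div_le_div₀ (by positivity) h4 ht0 htot
        · rw [if_neg hya] at h3
          have h4 : row (om G a U x) true y = 0 := by
            by_contra hne
            have h5 : 0 < row (om G a U x) true y := lt_of_le_of_ne hrow (Ne.symm hne)
            have h6 := mul_pos hxy h5
            linarith
          rw [h4, zero_div]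
          split_ifs
          · exact hK
          · exact le_rfl
      · rw [if_neg hyB, mul_zero]
        split_ifs
        · exact hK
        · exact le_rfl
    refine (sum_le_sum fun y _ => h2 y).trans ?_
    rw [sum_ite_mem, univ_inter, sum_const, nsmul_eq_mul]
    have h7 : (#(G.neighborFinset a ∩ B) : ℝ) * ((1 + η) * ρ / ((1 - η) ^ 2 * G.degree a)) ≤
        β * G.degree a * ((1 + η) * ρ / ((1 - η) ^ 2 * G.degree a)) :=
      mul_le_mul_of_nonneg_right hB (by positivity)
    refine h7.trans (le_of_eq ?_)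
    have hne : (G.degree a : ℝ) ≠ 0 := hdeg0.ne'
    have hne2 : (1 - η) ≠ 0 := by
      have : 0 < 1 - η := by linarith
      exact this.ne'
    field_simp
  -- the pointwise bound
  have hpt : ∀ f : ℕ → V, 1 - (if GoodEv n j B f then (1 : ℝ) else 0) ≤
      (∑ t ∈ (range (n + 1) ×ˢ range (n + 1)).filter (fun t => t.1 < t.2),
        if f t.1 = f t.2 then (1 : ℝ) else 0) + if f j ∈ B then (1 : ℝ) else 0 := by
    intro f
    have hs1 : 0 ≤ ∑ t ∈ (range (n + 1) ×ˢ range (n + 1)).filter (fun t => t.1 < t.2),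
        (if f t.1 = f t.2 then (1 : ℝ) else 0) := by
      refine sum_nonneg fun t _ => ?_
      split_ifs <;> norm_num
    have hs2 : (0 : ℝ) ≤ if f j ∈ B then (1 : ℝ) else 0 := by
      split_ifs <;> norm_num
    by_cases hg : GoodEv n j B f
    · rw [if_pos hg]
      linarith
    · rw [if_neg hg]
      by_cases hb : f j ∈ B
      · rw [if_pos hb]
        linarith
      · have hinj : ¬ Set.InjOn f (Set.Iic n) := fun h => hg ⟨h, hb⟩
        unfold Set.InjOn at hinj
        push Not at hinj
        obtain ⟨i, hi, i', hi', hff, hne⟩ := hinj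
        have key : ∃ t ∈ (range (n + 1) ×ˢ range (n + 1)).filter (fun t => t.1 < t.2),
            f t.1 = f t.2 := by
          rcases lt_or_gt_of_ne hne with h | h
          · refine ⟨(i, i'), ?_, hff⟩
            rw [mem_filter, mem_product, mem_range, mem_range]
            exact ⟨⟨Nat.lt_succ_of_le hi, Nat.lt_succ_of_le hi'⟩, h⟩
          · refine ⟨(i', i), ?_, hff.symm⟩
            rw [mem_filter, mem_product, mem_range, mem_range]
            exact ⟨⟨Nat.lt_succ_of_le hi', Nat.lt_succ_of_le hi⟩, h⟩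
        obtain ⟨t, ht1, ht2⟩ := key
        have h8 := single_le_sum (f := fun t : ℕ × ℕ => if f t.1 = f t.2 then (1 : ℝ) else 0)
          (fun t _ => by
            show (0 : ℝ) ≤ if f t.1 = f t.2 then (1 : ℝ) else 0
            split_ifs <;> norm_num) ht1
        simp only [ht2, if_true] at h8
        linarith
  have h9 := Ex_mono hω n _ _ hr (fun f (_ : Adm (om G a U x) r s n f) => hpt f)
  rw [Ex_add, Ex_sum, Ex_sub, Ex_one hω hr hs0 hs ht] at h9
  have h10 : ∑ t ∈ (range (n + 1) ×ˢ range (n + 1)).filter (fun t => t.1 < t.2),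
      Ex (om G a U x) r s n (fun f => if f t.1 = f t.2 then (1 : ℝ) else 0) ≤ δ0 / 2 := by
    have h11 : ∀ t ∈ (range (n + 1) ×ˢ range (n + 1)).filter (fun t => t.1 < t.2),
        Ex (om G a U x) r s n (fun f => if f t.1 = f t.2 then (1 : ℝ) else 0) ≤
          Fintype.card V * (ρ ^ 2 / δ) / ((1 - η) ^ 2 * δ) := by
      intro t ht'
      rw [mem_filter, mem_product, mem_range, mem_range] at ht'
      exact hcol t.1 t.2 ht'.2 (Nat.le_of_lt_succ ht'.1.2)
    refine (sum_le_card_nsmul _ _ _ h11).trans ?_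
    rw [nsmul_eq_mul]
    refine le_trans (mul_le_mul_of_nonneg_right ?_ hC0) hcoll
    have h12 := card_filter_le (range (n + 1) ×ˢ range (n + 1)) (fun t : ℕ × ℕ => t.1 < t.2)
    rw [card_product, card_range] at h12
    have h13 : ((#((range (n + 1) ×ˢ range (n + 1)).filter (fun t : ℕ × ℕ => t.1 < t.2)) : ℕ) : ℝ)
        ≤ (((n + 1) * (n + 1) : ℕ) : ℝ) := by
      exact_mod_cast h12
    refine h13.trans (le_of_eq ?_)
    push_cast
    ring
  have h14 : prob (om G a U x) r s n (GoodEv n j B) =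
      Ex (om G a U x) r s n (fun f => if GoodEv n j B f then (1 : ℝ) else 0) := by
    unfold prob
    congr 1
  rw [h14]
  linarith

end Pool.Agent.PolyTree
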