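import Pool.Agent.PolyTree.Rows

/-!
# The probability that a point is in the image
-/

set_option autoImplicit false

namespace Pool.Agent.PolyTree

open Finset

variable {V : Type} [Fintype V] [DecidableEq V]
variable {G : SimpleGraph V} [DecidableRel G.Adj] {a : V} {U : Finset V} {x : V → ℝ}
  {ρ η δ : ℝ}

/-- The probability that `v` is in the image.

Proof. `1[Good f ∧ v ∈ image] ≤ ∑ i ∈ range (n + 1), 1[f i = v]`, and by `Ex_marg` the expectation
of `1[f i = v]` is `row (s i) v / tot`. By `row_true_le`, `row_false_le` and `tot_ge`,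
`x v * row true v / tot ≤ (1 + η) / ((1 - η) ^ 2 * deg a)` and
`x v * row false v / tot ≤ (1 + η) * deg a * F1 a / ((1 - η) ^ 2 * deg a)`. -/
theorem prob_mem_le (hl : Loc G a U x ρ η δ) (r : ℕ → ℕ) (s : ℕ → Bool) (n : ℕ)
    (hr : ∀ i, 0 < i → r i < i) (hs0 : s 0 = true) (hs : ∀ i, 0 < i → s i = !s (r i))
    (Good : (ℕ → V) → Prop) (v : V) :
    x v * prob (om G a U x) r s n (fun f => Good f ∧ v ∈ (range (n + 1)).image f) ≤
      (1 + η) / (1 - η) ^ 2 * (#{i ∈ range (n + 1) | s i = true} * (1 / (G.degree a : ℝ)) +
        #{i ∈ range (n + 1) | s i = false} * F1 G a) := by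
  classical
  have hω := om_nonneg (a := a) hl
  have hη := hl.η_pos
  have hη1 := hl.η_le
  have hda : (0 : ℝ) < G.degree a := hl.δ_pos.trans_le (hl.hδ a)
  have hq : (0 : ℝ) < 1 - η := by linarith
  have hT0 : 0 < (1 - η) ^ 2 * (G.degree a : ℝ) := by positivity
  have hT := tot_ge hl
  have hT1 : 0 < tot (om G a U x) := hT0.trans_le hT
  have hxv : 0 ≤ x v := (by have := hl.ρ_pos; positivity : (0 : ℝ) ≤ 1 / ρ).trans (hl.hx v)
  have hF1 : 0 ≤ F1 G a := by
    unfold F1
    exact div_nonneg (sum_nonneg fun u _ => by positivity) hda.le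
  have h1 : prob (om G a U x) r s n (fun f => Good f ∧ v ∈ (range (n + 1)).image f) ≤
      ∑ i ∈ range (n + 1), row (om G a U x) (s i) v / tot (om G a U x) := by
    have h2 : ∀ P : (ℕ → V) → Prop, prob (om G a U x) r s n P =
        Ex (om G a U x) r s n (fun f => if P f then 1 else 0) := fun P => rfl
    have h3 : prob (om G a U x) r s n (fun f => Good f ∧ v ∈ (range (n + 1)).image f) ≤
        Ex (om G a U x) r s n (fun f => ∑ i ∈ range (n + 1), if f i = v then 1 else 0) := by
      rw [h2]
      refine Ex_mono hω n _ _ hr fun f _ => ?_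
      split_ifs with h4
      · obtain ⟨i, hi, hiv⟩ := mem_image.1 h4.2
        have h5 := single_le_sum (f := fun i => if f i = v then (1 : ℝ) else 0)
          (fun j _ => by split_ifs <;> norm_num) hi
        simpa only [hiv, if_true] using h5
      · exact sum_nonneg fun j _ => by split_ifs <;> norm_num
    refine h3.trans ?_
    rw [Ex_sum]
    refine sum_le_sum fun i hi => ?_
    have h6 := Ex_marg hω hr hs0 hs n i (by simpa [Nat.lt_succ_iff] using hi)
      (fun y => if y = v then (1 : ℝ) else 0)
    rw [h6]
    simp only [mul_ite, mul_one, mul_zero, sum_ite_eq', mem_univ, if_true]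
    exact le_rfl
  have h2 : ∀ b, x v * (row (om G a U x) b v / tot (om G a U x)) ≤
      if b = true then (1 + η) / (1 - η) ^ 2 * (1 / (G.degree a : ℝ))
        else (1 + η) / (1 - η) ^ 2 * F1 G a := by
    intro b
    have h3 : x v * (row (om G a U x) b v / tot (om G a U x)) =
        x v * row (om G a U x) b v / tot (om G a U x) := by ring
    rw [h3]
    cases b with
    | true =>
      rw [if_pos rfl]
      have h4 : x v * row (om G a U x) true v ≤ 1 + η := by
        refine (row_true_le hl v).trans ?_
        split_ifs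
        · exact le_rfl
        · linarith
      calc x v * row (om G a U x) true v / tot (om G a U x)
          ≤ (1 + η) / tot (om G a U x) := by gcongr
        _ ≤ (1 + η) / ((1 - η) ^ 2 * (G.degree a : ℝ)) := by gcongr
        _ = (1 + η) / (1 - η) ^ 2 * (1 / (G.degree a : ℝ)) := by
          field_simp
    | false =>
      rw [if_neg (by decide)]
      calc x v * row (om G a U x) false v / tot (om G a U x)
          ≤ (1 + η) * (G.degree a * F1 G a) / tot (om G a U x) := by
            exact div_le_div_of_nonneg_right (row_false_le hl v) hT1.le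
        _ ≤ (1 + η) * (G.degree a * F1 G a) / ((1 - η) ^ 2 * (G.degree a : ℝ)) := by gcongr
        _ = (1 + η) / (1 - η) ^ 2 * F1 G a := by
          field_simp
  calc x v * prob (om G a U x) r s n (fun f => Good f ∧ v ∈ (range (n + 1)).image f)
      ≤ x v * ∑ i ∈ range (n + 1), row (om G a U x) (s i) v / tot (om G a U x) :=
        mul_le_mul_of_nonneg_left h1 hxv
    _ = ∑ i ∈ range (n + 1), x v * (row (om G a U x) (s i) v / tot (om G a U x)) := by
        rw [mul_sum]
    _ ≤ ∑ i ∈ range (n + 1), (if s i = true then
          (1 + η) / (1 - η) ^ 2 * (1 / (G.degree a : ℝ))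
            else (1 + η) / (1 - η) ^ 2 * F1 G a) := sum_le_sum fun i _ => h2 (s i)
    _ = _ := by
        rw [sum_ite, sum_const, sum_const, nsmul_eq_mul, nsmul_eq_mul]
        have h7 : (range (n + 1)).filter (fun i => ¬ s i = true) =
            (range (n + 1)).filter (fun i => s i = false) := by
          refine filter_congr fun i _ => ?_
          simp
        rw [h7]
        ring

end Pool.Agent.PolyTree
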