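import Pool.Agent.PolyTree.Defs

/-!
# The good ordered edges
-/

set_option autoImplicit false

namespace Pool.Agent.PolyTree

open Finset

variable {V : Type} [Fintype V] [DecidableEq V]

private theorem ge_sum1 (G : SimpleGraph V) [DecidableRel G.Adj] (f : V → ℝ) :
    ∑ e : V × V, (if G.Adj e.1 e.2 then f e.1 else 0) = ∑ a, (G.degree a : ℝ) * f a := by
  rw [Fintype.sum_prod_type]
  refine Finset.sum_congr rfl fun a _ => ?_
  change ∑ b, (if G.Adj a b then f a else 0) = _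
  rw [← Finset.sum_filter, Finset.sum_const, nsmul_eq_mul, ← G.neighborFinset_eq_filter,
    G.card_neighborFinset_eq_degree]

private theorem ge_sum2 (G : SimpleGraph V) [DecidableRel G.Adj] (f : V → ℝ) :
    ∑ e : V × V, (if G.Adj e.1 e.2 then f e.2 else 0) = ∑ a, (G.degree a : ℝ) * f a := by
  rw [Fintype.sum_prod_type_right]
  refine Finset.sum_congr rfl fun b _ => ?_
  change ∑ a, (if G.Adj a b then f b else 0) = _
  have h1 : ∀ a, (if G.Adj a b then f b else 0) = (if G.Adj b a then f b else 0) := by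
    intro a
    by_cases h : G.Adj a b
    · rw [if_pos h, if_pos h.symm]
    · rw [if_neg h, if_neg (fun h' => h h'.symm)]
  rw [Finset.sum_congr rfl (fun a _ => h1 a), ← Finset.sum_filter, Finset.sum_const,
    nsmul_eq_mul, ← G.neighborFinset_eq_filter, G.card_neighborFinset_eq_degree]

private theorem ge_deg (G : SimpleGraph V) [DecidableRel G.Adj]
    (hd : ∀ v, (0 : ℝ) < G.degree v) :
    ∑ a, (G.degree a : ℝ) * (1 / (G.degree a : ℝ)) = Fintype.card V := by
  rw [Finset.sum_congr rfl (fun a _ => mul_one_div_cancel (hd a).ne'), Finset.sum_const,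
    Finset.card_univ, nsmul_eq_mul, mul_one]

private theorem ge_F1 (G : SimpleGraph V) [DecidableRel G.Adj]
    (hd : ∀ v, (0 : ℝ) < G.degree v) :
    ∑ a, (G.degree a : ℝ) * F1 G a = Fintype.card V := by
  rw [← ge_deg G hd, ← ge_sum2 G (fun u => 1 / (G.degree u : ℝ)), Fintype.sum_prod_type]
  refine Finset.sum_congr rfl fun a _ => ?_
  unfold F1
  rw [mul_div_cancel₀ _ (hd a).ne', G.neighborFinset_eq_filter, Finset.sum_filter]

/-- The first moment: the ordered edges of small value.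

Proof. Let `D = ∑ v, deg v`, `N = card V`, `ε = 1 / q`. Over the ordered edges `e = (a, b)`:
`∑ 1 / deg a = N` (all degrees are positive as `m ≥ 1`), `∑ F1 G a = ∑_a ∑_{u ∈ N(a)} 1 / deg u =
∑_u 1 = N` (exchange the sums), the same for `b`. So the sum of the values
`Z e = m * (P0 / deg a + Q0 F1 a + P1 / deg b + Q1 F1 b)` is at most `m N`, and
`(1 + ε) m N ≤ D`, so `∑ Z ≤ D / (1 + ε) ≤ (1 - ε / 2) D`. If `g` is the number of ordered edges
with `Z ≤ 1 - ε / 4`, then (Z ≥ 0) `(1 - ε / 4) (D - g) ≤ (1 - ε / 2) D`, so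
`D - g ≤ (1 - ε / 4) D` because `1 - ε / 2 ≤ (1 - ε / 4) ^ 2`, i.e. `g ≥ (ε / 4) D ≥ (ε / 4) m N`.
-/
theorem good_edges (G : SimpleGraph V) [DecidableRel G.Adj] (m q : ℕ) (hq : 1 ≤ q) (hm : 1 ≤ m)
    (hδ : ∀ v, (m / 2 : ℝ) ≤ G.degree v) (hN0 : 0 < Fintype.card V)
    (havg : (1 + 1 / (q : ℝ)) * m * Fintype.card V ≤ ∑ v, (G.degree v : ℝ))
    (P Q : Bool → ℝ) (hP : ∀ b, 0 ≤ P b) (hQ : ∀ b, 0 ≤ Q b)
    (hPQ : P false + Q false + P true + Q true ≤ 1) :
    (1 / (4 * q : ℝ)) * (m * Fintype.card V) ≤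
      #{e : V × V | G.Adj e.1 e.2 ∧
        m * (P false * (1 / (G.degree e.1 : ℝ)) + Q false * F1 G e.1 +
          P true * (1 / (G.degree e.2 : ℝ)) + Q true * F1 G e.2) ≤ 1 - 1 / (4 * q)} := by
  have hqR : (1 : ℝ) ≤ q := by exact_mod_cast hq
  have hmR : (1 : ℝ) ≤ m := by exact_mod_cast hm
  have hd : ∀ v, (0 : ℝ) < G.degree v := fun v => by
    have := hδ v
    linarith
  have hF : ∀ v, 0 ≤ F1 G v := fun v => by
    unfold F1
    exact div_nonneg (Finset.sum_nonneg fun u _ => (one_div_pos.2 (hd u)).le) (hd v).le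
  set N : ℝ := (Fintype.card V : ℝ) with hN
  have hNpos : 0 < N := by
    rw [hN]
    exact_mod_cast hN0
  set Z : V × V → ℝ := fun e => m * (P false * (1 / (G.degree e.1 : ℝ)) + Q false * F1 G e.1 +
          P true * (1 / (G.degree e.2 : ℝ)) + Q true * F1 G e.2) with hZ
  have hZ0 : ∀ e, 0 ≤ Z e := by
    intro e
    have h1 := mul_nonneg (hP false) (one_div_pos.2 (hd e.1)).le
    have h2 := mul_nonneg (hP true) (one_div_pos.2 (hd e.2)).le
    have h3 := mul_nonneg (hQ false) (hF e.1)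
    have h4 := mul_nonneg (hQ true) (hF e.2)
    exact mul_nonneg (by linarith) (by linarith)
  have hsum : ∑ e : V × V, (if G.Adj e.1 e.2 then Z e else 0) =
      m * ((P false + Q false + P true + Q true) * N) := by
    have h1 : ∀ e : V × V, (if G.Adj e.1 e.2 then Z e else 0) =
        m * (P false * (if G.Adj e.1 e.2 then 1 / (G.degree e.1 : ℝ) else 0) +
          Q false * (if G.Adj e.1 e.2 then F1 G e.1 else 0) +
          P true * (if G.Adj e.1 e.2 then 1 / (G.degree e.2 : ℝ) else 0) +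
          Q true * (if G.Adj e.1 e.2 then F1 G e.2 else 0)) := by
      intro e
      by_cases h : G.Adj e.1 e.2
      · simp only [if_pos h, hZ]
      · simp only [if_neg h, mul_zero, add_zero]
    rw [Finset.sum_congr rfl (fun e _ => h1 e), ← Finset.mul_sum, Finset.sum_add_distrib,
      Finset.sum_add_distrib, Finset.sum_add_distrib, ← Finset.mul_sum, ← Finset.mul_sum,
      ← Finset.mul_sum, ← Finset.mul_sum, ge_sum1 G (fun a => 1 / (G.degree a : ℝ)),
      ge_sum1 G (fun a => F1 G a), ge_sum2 G (fun a => 1 / (G.degree a : ℝ)),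
      ge_sum2 G (fun a => F1 G a), ge_deg G hd, ge_F1 G hd]
    ring
  have hcard : ∑ e : V × V, (if G.Adj e.1 e.2 then (1 : ℝ) else 0) =
      ∑ v, (G.degree v : ℝ) := by
    rw [ge_sum1 G (fun _ => 1)]
    simp only [mul_one]
  set D : ℝ := ∑ v, (G.degree v : ℝ) with hD
  set δ : ℝ := 1 / (4 * q) with hδ'
  have hδ0 : 0 < δ := by positivity
  have hδ1 : δ ≤ 1 / 4 := by
    rw [hδ', div_le_div_iff₀ (by positivity) (by norm_num)]
    linarith
  have hδq : 1 / (q : ℝ) = 4 * δ := by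
    rw [hδ']
    field_simp
  rw [hδq] at havg
  have hgood : ∑ e : V × V, (if G.Adj e.1 e.2 ∧ Z e ≤ 1 - δ then (1 : ℝ) else 0) =
      (#{e : V × V | G.Adj e.1 e.2 ∧ Z e ≤ 1 - δ} : ℝ) := by
    rw [Finset.sum_boole]
  have hlow : (1 - δ) * (D - (#{e : V × V | G.Adj e.1 e.2 ∧ Z e ≤ 1 - δ} : ℝ)) ≤
      ∑ e : V × V, (if G.Adj e.1 e.2 then Z e else 0) := by
    rw [← hcard, ← hgood, ← Finset.sum_sub_distrib, Finset.mul_sum]
    refine Finset.sum_le_sum fun e _ => ?_
    by_cases h : G.Adj e.1 e.2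
    · by_cases h' : Z e ≤ 1 - δ
      · rw [if_pos h, if_pos ⟨h, h'⟩, if_pos h, sub_self, mul_zero]
        exact hZ0 e
      · rw [if_pos h, if_neg (fun h2 => h' h2.2), if_pos h, sub_zero, mul_one]
        exact (not_le.1 h').le
    · rw [if_neg h, if_neg (fun h2 => h h2.1), if_neg h, sub_zero, mul_zero]
  rw [hsum] at hlow
  have hmN : (0 : ℝ) < m * N := mul_pos (by linarith) hNpos
  have h1 : (m : ℝ) * ((P false + Q false + P true + Q true) * N) ≤ m * N := by
    rw [show (m : ℝ) * ((P false + Q false + P true + Q true) * N) =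
      (P false + Q false + P true + Q true) * (m * N) by ring]
    calc (P false + Q false + P true + Q true) * (m * N) ≤ 1 * (m * N) :=
          mul_le_mul_of_nonneg_right hPQ hmN.le
      _ = m * N := one_mul _
  change δ * (m * N) ≤ (#{e : V × V | G.Adj e.1 e.2 ∧ Z e ≤ 1 - δ} : ℝ)
  set g : ℝ := (#{e : V × V | G.Adj e.1 e.2 ∧ Z e ≤ 1 - δ} : ℝ) with hg
  have h2 : (1 + 4 * δ) * (m * N) ≤ D := by
    have h3 : (1 + 4 * δ) * m * N = (1 + 4 * δ) * (m * N) := by ring
    rw [← h3]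
    exact havg
  have h3 : (1 - δ) * (D - g) ≤ m * N := hlow.trans h1
  have h4 : m * N ≤ (1 - 2 * δ) * D := by
    have h5 : (1 - 2 * δ) * ((1 + 4 * δ) * (m * N)) ≤ (1 - 2 * δ) * D :=
      mul_le_mul_of_nonneg_left h2 (by linarith)
    have h6 : (1 - 2 * δ) * ((1 + 4 * δ) * (m * N)) = m * N + 2 * δ * (1 - 4 * δ) * (m * N) := by
      ring
    have h7 : 0 ≤ 2 * δ * (1 - 4 * δ) * (m * N) :=
      mul_nonneg (mul_nonneg (by linarith) (by linarith)) hmN.le
    linarith
  have hDpos : 0 < D := by nlinarith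
  have h5 : (1 - δ) * (D - g) ≤ (1 - δ) * ((1 - δ) * D) := by
    have h6 : (1 - δ) * ((1 - δ) * D) = (1 - 2 * δ) * D + δ ^ 2 * D := by ring
    have h7 : 0 ≤ δ ^ 2 * D := mul_nonneg (sq_nonneg _) hDpos.le
    linarith
  have h6 : D - g ≤ (1 - δ) * D := le_of_mul_le_mul_left h5 (by linarith)
  have h7 : δ * D ≤ g := by linarith
  have h8 : m * N ≤ D := by nlinarith
  exact (mul_le_mul_of_nonneg_left h8 hδ0.le).trans h7

end Pool.Agent.PolyTree
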