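import Pool.Agent.PolyTree.Select

/-!
# The weights of a shrub at the seed `a`
-/

set_option autoImplicit false

namespace Pool.Agent.PolyTree

open Finset

variable {V : Type} [Fintype V] [DecidableEq V]

/-- The weight of the path `a u v`. -/
noncomputable def om (G : SimpleGraph V) [DecidableRel G.Adj] (a : V) (U : Finset V)
    (x : V → ℝ) (u v : V) : ℝ :=
  if G.Adj a u ∧ u ∉ U ∧ G.Adj u v ∧ v ∉ U then 1 / (x u * x v * G.degree u) else 0

/-- The hypotheses on the state at the seed `a`: `1 / ρ ≤ x ≤ 1`, the degrees are at least `δ`,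
and the three sums are close to their expectations. -/
structure Loc (G : SimpleGraph V) [DecidableRel G.Adj] (a : V) (U : Finset V)
    (x : V → ℝ) (ρ η δ : ℝ) : Prop where
  ρ_pos : 0 < ρ
  η_pos : 0 < η
  η_le : η ≤ 1 / 64
  δ_pos : 0 < δ
  hx : ∀ v, 1 / ρ ≤ x v
  hx1 : ∀ v, x v ≤ 1
  hδ : ∀ v, δ ≤ G.degree v
  lo : ∀ u, (1 - η) * G.degree u ≤ S U x (fun w => if G.Adj u w then 1 else 0)
  hi : ∀ u, S U x (fun w => if G.Adj u w then 1 else 0) ≤ (1 + η) * G.degree u
  co : ∀ v, S U x (fun w => if G.Adj a w ∧ G.Adj v w then 1 / (G.degree w : ℝ) else 0) ≤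
    (1 + η) * (G.degree a * F1 G a)

section
variable {G : SimpleGraph V} [DecidableRel G.Adj] {a : V} {U : Finset V} {x : V → ℝ}
  {ρ η δ : ℝ}

private theorem rw_x (hl : Loc G a U x ρ η δ) (v : V) : 0 < x v :=
  (one_div_pos.2 hl.ρ_pos).trans_le (hl.hx v)

private theorem rw_d (hl : Loc G a U x ρ η δ) (v : V) : (0 : ℝ) < G.degree v :=
  hl.δ_pos.trans_le (hl.hδ v)

private theorem rw_S (U : Finset V) (x g : V → ℝ) :
    S U x g = ∑ v, if v ∉ U then g v / x v else 0 := by
  unfold S
  rw [← Finset.sum_filter]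
  refine Finset.sum_congr ?_ fun _ _ => rfl
  ext v
  simp

private theorem rw_true (hl : Loc G a U x ρ η δ) (u : V) :
    row (om G a U x) true u = if G.Adj a u ∧ u ∉ U then
      1 / (x u * G.degree u) * S U x (fun w => if G.Adj u w then 1 else 0) else 0 := by
  have h0 : row (om G a U x) true u = ∑ v, om G a U x u v := by
    unfold row
    rw [if_pos rfl]
  rw [h0]
  by_cases h : G.Adj a u ∧ u ∉ U
  · rw [if_pos h, rw_S, Finset.mul_sum]
    refine Finset.sum_congr rfl fun v _ => ?_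
    unfold om
    have hu := rw_x hl u
    have hv := rw_x hl v
    have hd := rw_d hl u
    by_cases h1 : v ∉ U
    · by_cases h2 : G.Adj u v
      · rw [if_pos ⟨h.1, h.2, h2, h1⟩, if_pos h1, if_pos h2]
        field_simp
      · rw [if_neg (fun h3 => h2 h3.2.2.1), if_pos h1, if_neg h2, zero_div, mul_zero]
    · rw [if_neg (fun h3 => h1 h3.2.2.2), if_neg h1, mul_zero]
  · rw [if_neg h]
    refine Finset.sum_eq_zero fun v _ => ?_
    unfold om
    rw [if_neg (fun h3 => h ⟨h3.1, h3.2.1⟩)]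

private theorem rw_false (hl : Loc G a U x ρ η δ) (v : V) :
    row (om G a U x) false v = if v ∉ U then
      1 / x v * S U x (fun w => if G.Adj a w ∧ G.Adj v w then 1 / (G.degree w : ℝ) else 0)
      else 0 := by
  have h0 : row (om G a U x) false v = ∑ u, om G a U x u v := by
    unfold row
    rw [if_neg (by simp)]
  rw [h0]
  by_cases h : v ∉ U
  · rw [if_pos h, rw_S, Finset.mul_sum]
    refine Finset.sum_congr rfl fun u _ => ?_
    unfold om
    have hu := rw_x hl u
    have hv := rw_x hl v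
    have hd := rw_d hl u
    by_cases h1 : u ∉ U
    · by_cases h2 : G.Adj a u ∧ G.Adj v u
      · rw [if_pos ⟨h2.1, h1, h2.2.symm, h⟩, if_pos h1, if_pos h2]
        field_simp
      · rw [if_neg (fun h3 => h2 ⟨h3.1, h3.2.2.1.symm⟩), if_pos h1, if_neg h2, zero_div,
          mul_zero]
    · rw [if_neg (fun h3 => h1 h3.2.1), if_neg h1, mul_zero]
  · rw [if_neg h]
    refine Finset.sum_eq_zero fun u _ => ?_
    unfold om
    rw [if_neg (fun h3 => h h3.2.2.2)]

theorem om_nonneg (hl : Loc G a U x ρ η δ) (u v : V) : 0 ≤ om G a U x u v := by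
  unfold om
  have hu := rw_x hl u
  have hv := rw_x hl v
  have hd := rw_d hl u
  split_ifs
  · exact (one_div_pos.2 (mul_pos (mul_pos hu hv) hd)).le
  · exact le_rfl

/-- `1 / x u ≤ ρ`, `1 / x v ≤ ρ`, `1 / deg u ≤ 1 / δ`. -/
theorem om_le (hl : Loc G a U x ρ η δ) (u v : V) : om G a U x u v ≤ ρ ^ 2 / δ := by
  unfold om
  have hρ := hl.ρ_pos
  have hδ := hl.δ_pos
  split_ifs
  · have h1 : (1 / ρ) * (1 / ρ) * δ ≤ x u * x v * G.degree u := by
      refine mul_le_mul (mul_le_mul (hl.hx u) (hl.hx v) (one_div_pos.2 hρ).le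
        (rw_x hl u).le) (hl.hδ u) hδ.le (mul_pos (rw_x hl u) (rw_x hl v)).le
    have h2 : 0 < (1 / ρ) * (1 / ρ) * δ := by positivity
    refine (one_div_le_one_div_of_le h2 h1).trans (le_of_eq ?_)
    field_simp
  · positivity

/-- `x u * row true u ≤ 1 + η` and `row true u` vanishes outside `N(a) \ U`: for
`u ∈ N(a) \ U`, `row true u = (1 / (x u * deg u)) * S U x (1_{N(u)})`, use `hi`. -/
theorem row_true_le (hl : Loc G a U x ρ η δ) (u : V) :
    x u * row (om G a U x) true u ≤ if G.Adj a u ∧ u ∉ U then 1 + η else 0 := by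
  rw [rw_true hl]
  by_cases h : G.Adj a u ∧ u ∉ U
  · rw [if_pos h, if_pos h]
    have hu := rw_x hl u
    have hd := rw_d hl u
    have h1 : x u * (1 / (x u * G.degree u) * S U x (fun w => if G.Adj u w then 1 else 0)) =
        S U x (fun w => if G.Adj u w then 1 else 0) / G.degree u := by
      field_simp
    rw [h1, div_le_iff₀ hd]
    exact hl.hi u
  · rw [if_neg h, if_neg h, mul_zero]

/-- For `v ∉ U`: `row false v = (1 / x v) * S U x (w ↦ 1[Adj a w ∧ Adj v w] / deg w)`, use `co`.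
For `v ∈ U` the row is `0`. -/
theorem row_false_le (hl : Loc G a U x ρ η δ) (v : V) :
    x v * row (om G a U x) false v ≤ (1 + η) * (G.degree a * F1 G a) := by
  rw [rw_false hl]
  by_cases h : v ∉ U
  · rw [if_pos h, ← mul_assoc, mul_one_div_cancel (rw_x hl v).ne', one_mul]
    exact hl.co v
  · rw [if_neg h, mul_zero]
    have h1 : 0 ≤ F1 G a := by
      unfold F1
      exact div_nonneg (Finset.sum_nonneg fun u _ => (one_div_pos.2 (rw_d hl u)).le)
        (rw_d hl a).le
    have h2 := hl.η_pos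
    exact mul_nonneg (by linarith) (mul_nonneg (rw_d hl a).le h1)

/-- `tot = ∑ u, row true u ≥ (1 - η) ∑_{u ∈ N(a) \ U} 1 / x u = (1 - η) S U x (1_{N(a)})`,
use `lo` twice. -/
theorem tot_ge (hl : Loc G a U x ρ η δ) : (1 - η) ^ 2 * G.degree a ≤ tot (om G a U x) := by
  rw [← sum_row true]
  have hη := hl.η_le
  have h1 : (1 - η) * S U x (fun w => if G.Adj a w then 1 else 0) ≤
      ∑ u, row (om G a U x) true u := by
    rw [rw_S, Finset.mul_sum]
    refine Finset.sum_le_sum fun u _ => ?_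
    rw [rw_true hl]
    have hu := rw_x hl u
    have hd := rw_d hl u
    by_cases h2 : u ∉ U
    · by_cases h3 : G.Adj a u
      · rw [if_pos h2, if_pos h3, if_pos ⟨h3, h2⟩]
        have h4 : (1 - η) * (1 / x u) = 1 / (x u * G.degree u) * ((1 - η) * G.degree u) := by
          field_simp
        rw [h4]
        exact mul_le_mul_of_nonneg_left (hl.lo u) (one_div_pos.2 (mul_pos hu hd)).le
      · rw [if_pos h2, if_neg h3, if_neg (fun h4 => h3 h4.1), zero_div, mul_zero]
    · rw [if_neg h2, if_neg (fun h4 => h2 h4.2), mul_zero]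
  have h2 := mul_le_mul_of_nonneg_left (hl.lo a) (show (0 : ℝ) ≤ 1 - η by linarith)
  calc (1 - η) ^ 2 * G.degree a = (1 - η) * ((1 - η) * G.degree a) := by ring
    _ ≤ (1 - η) * S U x (fun w => if G.Adj a w then 1 else 0) := h2
    _ ≤ _ := h1

end

end Pool.Agent.PolyTree
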