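import Pool.Agent.PolyTree.Dev
import Pool.Agent.PolyTree.Rows

/-!
# The local hypotheses hold in every state
-/

set_option autoImplicit false

namespace Pool.Agent.PolyTree

open Finset

variable {V : Type} [Fintype V] [DecidableEq V]
variable {G : SimpleGraph V} [DecidableRel G.Adj] {m q L : ℕ} {p : ℕ → ℕ} {W : Finset ℕ}
  {top : ℕ → ℕ} {par : ℕ → Bool} {A : Bool → Finset V} {X0 X1 : Bool → ℝ} {Λ h : ℝ}
  {k : ℕ} {φ : ℕ → V} {x : V → ℝ} {M D : V ⊕ (V × V) ⊕ (V × Bool) → ℝ}

private theorem ls_deg (u : V) :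
    ∑ v, test G m A (Sum.inl u) v = (G.degree u : ℝ) := by
  rw [← SimpleGraph.card_neighborFinset_eq_degree, SimpleGraph.neighborFinset_eq_filter]
  simp only [test]
  rw [← Finset.sum_filter, Finset.sum_const, nsmul_eq_mul, mul_one]

private theorem ls_mul (U : Finset V) (x g : V → ℝ) (c : ℝ) :
    S U x (fun w => c * g w) = c * S U x g := by
  unfold S
  rw [Finset.mul_sum]
  exact Finset.sum_congr rfl fun v _ => mul_div_assoc _ _ _

private theorem ls_test (a v : V) : test G m A (Sum.inr (Sum.inl (a, v))) =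
    fun w => (m / 2 : ℝ) * (if G.Adj a w ∧ G.Adj v w then 1 / (G.degree w : ℝ) else 0) := by
  funext w
  simp only [test]
  split_ifs
  · rw [mul_one_div]
  · rw [mul_zero]

/-- Proof. `η = 1 / (64 q)`, `δ = m / 2`, `ρ = 16 q`; `hx` is `State.x_pos`, `hx1` is `x_le`.
`lo`, `hi`: `State.dev` for the test function `inl u`, whose sum is `deg u`;
`Λ ≤ m / (256 q ^ 2) ≤ (1 / (64 q)) * (m / 2) ≤ η * deg u`.
`co`: `State.dev` for `inr (inl (a, v))`, which is `m / 2` times the function in `co`: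
`S (..) ≤ ∑_{w ∈ N(a) ∩ N(v)} 1 / deg w + (2 / m) Λ ≤ ∑_{w ∈ N(a)} 1 / deg w + 1 / (128 q ^ 2)`,
where `∑_{w ∈ N(a)} 1 / deg w = deg a * F1 G a ≥ deg a / N ≥ (m / 2) / (q m) = 1 / (2 q)`, so
`1 / (128 q ^ 2) = η * (1 / (2 q)) ≤ η * (deg a * F1 G a)`. -/
theorem State.loc (hs : State G m q L p W top par A X0 X1 h k φ x M D)
    (hd : Dec m L p W top par) (hn : Num (Fintype.card V) m q L Λ h)
    (hc : Cls G m q A X0 X1) (hδ : ∀ v, (m / 2 : ℝ) ≤ G.degree v)
    (hX : ∑ i ∈ range m with i ∉ W, wt p top par X0 X1 i / m ≤ 1 - 1 / (8 * q)) (a : V) :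
    Loc G a (used m top k φ) x (16 * q) (1 / (64 * q)) (m / 2) := by
  have hq : (1 : ℝ) ≤ q := by exact_mod_cast hn.q_pos
  have hm : (1 : ℝ) ≤ m := by exact_mod_cast hn.m_pos
  have hq0 : (0 : ℝ) < q := by linarith
  have hm0 : (0 : ℝ) < m := by linarith
  have hN : (Fintype.card V : ℝ) ≤ q * m := by exact_mod_cast hn.N_le
  have hη : (0 : ℝ) < 1 / (64 * q) := by positivity
  have hdeg : ∀ v, (0 : ℝ) < G.degree v := fun v => lt_of_lt_of_le (by positivity) (hδ v)
  have hΛ : ∀ u, Λ ≤ 1 / (64 * q) * G.degree u := by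
    intro u
    have h1 : 1 / (64 * (q : ℝ)) * (m / 2) ≤ 1 / (64 * q) * G.degree u :=
      mul_le_mul_of_nonneg_left (hδ u) hη.le
    refine hn.Λ_le.trans (le_trans ?_ h1)
    rw [div_mul_div_comm, one_mul]
    apply div_le_div_of_nonneg_left hm0.le (by positivity)
    nlinarith
  have hinl : ∀ u, |S (used m top k φ) x (fun w => if G.Adj u w then 1 else 0) -
      (G.degree u : ℝ)| ≤ Λ := by
    intro u
    have h1 := State.dev hs hd hn (Sum.inl u)
    rw [ls_deg] at h1
    exact h1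
  refine ⟨by positivity, hη, ?_, by positivity, State.x_pos hs hd hn hc hX, hs.x_le, hδ, ?_, ?_, ?_⟩
  · apply one_div_le_one_div_of_le (by norm_num)
    linarith
  · intro u
    have h1 := (abs_le.1 (hinl u)).1
    have h2 := hΛ u
    linarith
  · intro u
    have h1 := (abs_le.1 (hinl u)).2
    have h2 := hΛ u
    linarith
  · intro v
    have h1 := (abs_le.1 (State.dev hs hd hn (Sum.inr (Sum.inl (a, v))))).2
    rw [ls_test, ls_mul, ← Finset.mul_sum] at h1
    set T := S (used m top k φ) x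
      (fun w => if G.Adj a w ∧ G.Adj v w then 1 / (G.degree w : ℝ) else 0) with hT
    have h2 : ∑ w, (if G.Adj a w ∧ G.Adj v w then 1 / (G.degree w : ℝ) else 0) ≤
        ∑ w ∈ G.neighborFinset a, 1 / (G.degree w : ℝ) := by
      rw [SimpleGraph.neighborFinset_eq_filter, Finset.sum_filter]
      refine Finset.sum_le_sum fun w _ => ?_
      by_cases h3 : G.Adj a w
      · rw [if_pos h3]
        by_cases h4 : G.Adj v w
        · rw [if_pos ⟨h3, h4⟩]
        · rw [if_neg (fun h5 => h4 h5.2)]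
          exact (one_div_pos.2 (hdeg w)).le
      · rw [if_neg h3, if_neg (fun h5 => h3 h5.1)]
    have h3 : (G.degree a : ℝ) * F1 G a = ∑ w ∈ G.neighborFinset a, 1 / (G.degree w : ℝ) := by
      unfold F1
      rw [mul_div_cancel₀ _ (hdeg a).ne']
    have h4 : 1 / (2 * (q : ℝ)) ≤ ∑ w ∈ G.neighborFinset a, 1 / (G.degree w : ℝ) := by
      have h5 : ∀ w ∈ G.neighborFinset a, 1 / (q * m : ℝ) ≤ 1 / (G.degree w : ℝ) := by
        intro w _
        apply one_div_le_one_div_of_le (hdeg w)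
        refine le_trans ?_ hN
        exact_mod_cast (G.degree_lt_card_verts w).le
      have h6 := Finset.card_nsmul_le_sum _ _ _ h5
      rw [SimpleGraph.card_neighborFinset_eq_degree, nsmul_eq_mul] at h6
      refine le_trans ?_ h6
      have h7 : (m / 2 : ℝ) * (1 / (q * m)) ≤ G.degree a * (1 / (q * m)) :=
        mul_le_mul_of_nonneg_right (hδ a) (by positivity)
      refine le_trans (le_of_eq ?_) h7
      field_simp
    rw [h3]
    have h5 : T ≤ ∑ w, (if G.Adj a w ∧ G.Adj v w then 1 / (G.degree w : ℝ) else 0) +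
        2 / m * Λ := by
      have h6 := mul_le_mul_of_nonneg_left h1 (show (0 : ℝ) ≤ 2 / m by positivity)
      have h7 : ∀ t : ℝ, 2 / (m : ℝ) * (m / 2 * t) = t := by
        intro t
        field_simp
      rw [mul_sub, h7, h7] at h6
      linarith
    have h6 : 2 / (m : ℝ) * Λ ≤ 1 / (64 * q) * (1 / (2 * q)) := by
      have h7 := mul_le_mul_of_nonneg_left hn.Λ_le (show (0 : ℝ) ≤ 2 / m by positivity)
      refine h7.trans (le_of_eq ?_)
      field_simp
      norm_num
    have h7 := mul_le_mul_of_nonneg_left h4 hη.le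
    linarith

end Pool.Agent.PolyTree
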