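import Mathlib

/-!
# Multicolour Ramsey numbers of families of graphs
-/

set_option autoImplicit false

namespace Pool.Agent.PolyTree

/-- Every colouring of the edges of the complete graph on `r` vertices with `k` colours contains,
for some colour `i`, a subgraph of colour `i` which is isomorphic to `T i` (not necessarily
induced). (Loops `s(v, v)` also receive a colour, which is irrelevant.) -/
def Arrows (r : ℕ) {k : ℕ} {n : Fin k → ℕ} (T : ∀ i, SimpleGraph (Fin (n i))) : Prop :=
  ∀ c : Sym2 (Fin r) → Fin k, ∃ (i : Fin k) (f : Fin (n i) → Fin r), Function.Injective f ∧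
    ∀ x y, (T i).Adj x y → c s(f x, f y) = i

/-- The Ramsey number `r(T₁, ..., T_k)`: the least `r` such that every colouring of the edges of
`K_r` with `k` colours contains a copy of `T i` in colour `i` for some `i`. -/
noncomputable def ramsey {k : ℕ} {n : Fin k → ℕ} (T : ∀ i, SimpleGraph (Fin (n i))) : ℕ :=
  sInf {r | Arrows r T}

end Pool.Agent.PolyTree
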