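import Mathlib

/-!
# The parameters of the Ramsey theorem
-/

set_option autoImplicit false

namespace Pool.Agent.PolyTree

/-- Proof. `q = ⌈4 m ^ (3 / 100)⌉`. `E = m ^ (99 / 100)`, `E / k ≥ m ^ (98 / 100)`,
`a > m ^ (98 / 100) / 2`. `r ≤ m ^ (101 / 100) + m ^ (99 / 100) ≤ 2 m ^ (101 / 100) ≤ q a`.
`a / q ≤ m / (4 m ^ (3 / 100)) ≤ m ^ (98 / 100) / 2 ≤ E / k / 2`.
`q ^ 28 ≤ (5 m ^ (3 / 100)) ^ 28 = 5 ^ 28 m ^ (84 / 100) ≤ m ^ (98 / 100) / 2` if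
`2 * 5 ^ 28 ≤ m ^ (14 / 100)`, i.e. if `m` is large. -/
theorem ramsey_params (q₀ : ℕ) : ∃ m₀ : ℕ, ∀ m k : ℕ, m₀ ≤ m → 1 ≤ k →
    (k : ℝ) ≤ (m : ℝ) ^ (1 / 100 : ℝ) →
    4 ≤ (m : ℝ) ^ (99 / 100 : ℝ) ∧
    ∀ a r : ℕ, a ≤ m → (r : ℝ) ≤ k * m + (m : ℝ) ^ (99 / 100 : ℝ) →
      (m : ℝ) ^ (99 / 100 : ℝ) / k / 2 < a →
      ∃ q : ℕ, q₀ ≤ q ∧ q ^ 28 ≤ a ∧ r ≤ q * a ∧
        (1 + 1 / (q : ℝ)) * a ≤ a + (m : ℝ) ^ (99 / 100 : ℝ) / k / 2 := by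
  obtain ⟨c, hc⟩ : ∃ c : ℕ, c = 2 * 5 ^ 28 := ⟨_, rfl⟩
  obtain ⟨X, hX⟩ : ∃ X : ℕ, X = q₀ + c + 4 := ⟨_, rfl⟩
  refine ⟨X ^ 100, fun m k hm hk hkm => ?_⟩
  have hm0 : (0 : ℝ) ≤ m := Nat.cast_nonneg m
  obtain ⟨x, hx⟩ : ∃ x : ℝ, x = (m : ℝ) ^ (1 / 100 : ℝ) := ⟨_, rfl⟩
  have hx0 : 0 ≤ x := by
    rw [hx]
    exact Real.rpow_nonneg hm0 _
  have hx100 : x ^ 100 = m := by
    rw [hx, ← Real.rpow_natCast, ← Real.rpow_mul hm0]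
    norm_num
  have hx99 : (m : ℝ) ^ (99 / 100 : ℝ) = x ^ 99 := by
    rw [hx, ← Real.rpow_natCast, ← Real.rpow_mul hm0]
    norm_num
  rw [← hx] at hkm
  rw [hx99]
  have hXx : (X : ℝ) ≤ x := by
    have h1 : (X : ℝ) ^ 100 ≤ x ^ 100 := by
      rw [hx100]
      exact_mod_cast hm
    exact (pow_le_pow_iff_left₀ (Nat.cast_nonneg X) hx0 (by norm_num)).1 h1
  have hXc : (X : ℝ) = q₀ + c + 4 := by
    rw [hX]
    push_cast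
    ring
  have hq0 : (0 : ℝ) ≤ q₀ := Nat.cast_nonneg _
  have hc0 : (0 : ℝ) ≤ c := Nat.cast_nonneg _
  have hx4 : 4 ≤ x := by linarith
  have hx1 : 1 ≤ x := by linarith
  have hcx : (c : ℝ) ≤ x := by linarith
  have hqx : (q₀ : ℝ) ≤ x := by linarith
  have hk0 : (0 : ℝ) < k := by exact_mod_cast hk
  refine ⟨hx4.trans (le_self_pow₀ hx1 (by norm_num)), fun a r ha hr hra => ?_⟩
  have ha' : (a : ℝ) ≤ x ^ 100 := by
    rw [hx100]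
    exact_mod_cast ha
  have hEk : x ^ 98 ≤ x ^ 99 / k := by
    rw [le_div_iff₀ hk0]
    calc x ^ 98 * k ≤ x ^ 98 * x := mul_le_mul_of_nonneg_left hkm (by positivity)
      _ = x ^ 99 := by ring
  have ha1 : x ^ 98 / 2 < a := by linarith
  have hr1 : (r : ℝ) ≤ 2 * x ^ 101 := by
    have h1 : (k : ℝ) * m ≤ x ^ 101 := by
      rw [← hx100]
      calc (k : ℝ) * x ^ 100 ≤ x * x ^ 100 := mul_le_mul_of_nonneg_right hkm (by positivity)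
        _ = x ^ 101 := by ring
    have h2 : x ^ 99 ≤ x ^ 101 := pow_le_pow_right₀ hx1 (by norm_num)
    linarith
  have hx3 : 1 ≤ x ^ 3 := one_le_pow₀ hx1
  obtain ⟨q, hq⟩ : ∃ q : ℕ, q = ⌈4 * x ^ 3⌉₊ := ⟨_, rfl⟩
  have hq1 : 4 * x ^ 3 ≤ q := by
    rw [hq]
    exact Nat.le_ceil _
  have hq2 : (q : ℝ) ≤ 5 * x ^ 3 := by
    have h1 := Nat.ceil_lt_add_one (a := 4 * x ^ 3) (by positivity)
    rw [← hq] at h1
    linarith
  have hqp : (0 : ℝ) < q := by linarith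
  refine ⟨q, ?_, ?_, ?_, ?_⟩
  · have h1 : x ≤ x ^ 3 := le_self_pow₀ hx1 (by norm_num)
    have h2 : (q₀ : ℝ) ≤ q := by linarith
    exact_mod_cast h2
  · have h1 : ((q ^ 28 : ℕ) : ℝ) ≤ a := by
      push_cast
      have h2 : (q : ℝ) ^ 28 ≤ (5 * x ^ 3) ^ 28 := pow_le_pow_left₀ hqp.le hq2 28
      have h3 : (5 * x ^ 3) ^ 28 = c / 2 * x ^ 84 := by
        rw [hc]
        push_cast
        ring
      have h4 : (c : ℝ) / 2 * x ^ 84 ≤ x ^ 98 / 2 := by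
        have h5 : x ≤ x ^ 14 := le_self_pow₀ hx1 (by norm_num)
        have h6 : (c : ℝ) * x ^ 84 ≤ x ^ 14 * x ^ 84 :=
          mul_le_mul_of_nonneg_right (hcx.trans h5) (by positivity)
        have h7 : x ^ 14 * x ^ 84 = x ^ 98 := by ring
        linarith
      rw [h3] at h2
      linarith
    exact_mod_cast h1
  · have h1 : (r : ℝ) ≤ ((q * a : ℕ) : ℝ) := by
      push_cast
      have h2 : 4 * x ^ 3 * (x ^ 98 / 2) ≤ q * a :=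
        mul_le_mul hq1 ha1.le (by positivity) hqp.le
      have h3 : 4 * x ^ 3 * (x ^ 98 / 2) = 2 * x ^ 101 := by ring
      linarith
    exact_mod_cast h1
  · have h1 : (a : ℝ) / q ≤ x ^ 98 / 2 := by
      rw [div_le_iff₀ hqp]
      have h2 : x ^ 98 / 2 * (4 * x ^ 3) ≤ x ^ 98 / 2 * q :=
        mul_le_mul_of_nonneg_left hq1 (by positivity)
      have h3 : x ^ 100 ≤ x ^ 101 := pow_le_pow_right₀ hx1 (by norm_num)
      have h4 : x ^ 98 / 2 * (4 * x ^ 3) = 2 * x ^ 101 := by ring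
      have h5 : 0 ≤ x ^ 101 := by positivity
      linarith
    have h2 : (1 + 1 / (q : ℝ)) * a = a + a / q := by ring
    rw [h2]
    linarith

end Pool.Agent.PolyTree
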