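import Pool.Agent.PolyTree.ErdosSos
import Pool.Agent.PolyTree.Colour
import Pool.Agent.PolyTree.TreeEmb
import Pool.Agent.PolyTree.RamseyParams

/-!
# The multicolour Ramsey number of trees
-/

set_option autoImplicit false

namespace Pool.Agent.PolyTree

open Finset

/-- Some colour `i` contains all trees with `n i` vertices. -/
theorem universal_colour : ∃ m₀ : ℕ, ∀ m k : ℕ, m₀ ≤ m → 1 ≤ k →
    (k : ℝ) ≤ (m : ℝ) ^ (1 / 100 : ℝ) → ∀ n : Fin k → ℕ, (∀ i, n i ≤ m) →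
    ∀ r : ℕ, ∑ i, (n i : ℝ) + (m : ℝ) ^ (99 / 100 : ℝ) < r + 1 →
    ∀ c : Sym2 (Fin r) → Fin k, ∃ i : Fin k, ∀ T : SimpleGraph (Fin (n i)), T.IsTree →
      ∃ f : Fin (n i) → Fin r, Function.Injective f ∧
        ∀ x y, T.Adj x y → f x ≠ f y ∧ c s(f x, f y) = i := by
  classical
  obtain ⟨q₀, hES⟩ := erdos_sos
  obtain ⟨m₀, hP⟩ := ramsey_params q₀
  refine ⟨m₀, fun m k hm hk hkm n hn => ?_⟩
  obtain ⟨h4, hP⟩ := hP m k hm hk hkm
  set E : ℝ := (m : ℝ) ^ (99 / 100 : ℝ) with hE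
  have hk0 : (0 : ℝ) < k := by exact_mod_cast hk
  have hsum0 : (0 : ℝ) ≤ ∑ i, (n i : ℝ) := by positivity
  -- it is enough to consider the smallest number of vertices
  intro r₁ hr₁ c₁
  obtain ⟨r, hr⟩ : ∃ r : ℕ, r = ⌊∑ i, (n i : ℝ) + E⌋₊ := ⟨_, rfl⟩
  have hr1 : (r : ℝ) ≤ ∑ i, (n i : ℝ) + E := by
    rw [hr]; exact Nat.floor_le (by linarith)
  have hr2 : ∑ i, (n i : ℝ) + E < r + 1 := by
    rw [hr]; exact Nat.lt_floor_add_one _
  have hrr₁ : r ≤ r₁ := by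
    have h1 : (r : ℝ) < r₁ + 1 := lt_of_le_of_lt hr1 hr₁
    have h2 : r < r₁ + 1 := by exact_mod_cast h1
    omega
  obtain ⟨c, hc⟩ : ∃ c : Sym2 (Fin r) → Fin k, ∀ x y : Fin r,
      c s(x, y) = c₁ s(Fin.castLE hrr₁ x, Fin.castLE hrr₁ y) :=
    ⟨fun e => c₁ (e.map (Fin.castLE hrr₁)), fun x y => rfl⟩
  have hd : ∑ i : Fin k, ((n i : ℝ) + E / k / 2) ≤ (r : ℝ) - 1 := by
    rw [sum_add_distrib, sum_const, card_univ, Fintype.card_fin, nsmul_eq_mul]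
    have : (k : ℝ) * (E / k / 2) = E / 2 := by field_simp
    rw [this]
    linarith
  obtain ⟨i, hi⟩ := exists_colour (by omega) c _ hd
  refine ⟨i, fun T hT => ?_⟩
  have hr0 : 0 < r := by
    rcases Nat.eq_zero_or_pos r with h | h
    · rw [h] at hr2
      push_cast at hr2
      linarith
    · exact h
  have hr0' : (0 : ℝ) < r := by exact_mod_cast hr0
  have hni : 0 < n i := Fin.pos_iff_nonempty.2 hT.1.nonempty
  have hni' : (0 : ℝ) < n i := by exact_mod_cast hni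
  have hrkm : (r : ℝ) ≤ k * m + E := by
    refine hr1.trans ?_
    gcongr
    calc ∑ i, (n i : ℝ) ≤ ∑ i : Fin k, (m : ℝ) := sum_le_sum fun i _ => by exact_mod_cast hn i
      _ = k * m := by simp
  obtain ⟨f, hf1, hf2⟩ : ∃ f : Fin (n i) → Fin r, Function.Injective f ∧
      ∀ x y, T.Adj x y → (colourGraph c i).Adj (f x) (f y) := by
    refine embed_tree T hT (colourGraph c i) fun p hp => ?_
    rw [Fintype.card_fin]
    by_cases hcase : E / k / 2 < n i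
    · obtain ⟨q, hq0, hq1, hq2, hq3⟩ := hP (n i) r (hn i) hrkm hcase
      refine hES q (n i) hq0 hq1 (Fin r) (colourGraph c i) (by simpa using hr0)
        (by simpa using hq2) ?_ p hp
      rw [Fintype.card_fin]
      exact (mul_le_mul_of_nonneg_right hq3 hr0'.le).trans hi
    · push Not at hcase
      obtain ⟨U, hU, hU1, _⟩ := exists_minDeg (colourGraph c i) (2 * n i) (by positivity)
        (by simpa using hr0) (by
          rw [Fintype.card_fin]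
          refine le_trans ?_ hi
          gcongr
          linarith)
      refine greedy (colourGraph c i) U hU (n i) (fun v hv => ?_) p hp
      have h1 := hU1 v hv
      rw [mul_div_cancel_left₀ _ (by norm_num : (2 : ℝ) ≠ 0)] at h1
      exact_mod_cast h1
  have hinj : Function.Injective (Fin.castLE hrr₁) := Fin.castLE_injective hrr₁
  refine ⟨fun x => Fin.castLE hrr₁ (f x), hinj.comp hf1, fun x y hxy => ?_⟩
  have h1 := hf2 x y hxy
  refine ⟨fun h => h1.1 (hinj h), ?_⟩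
  have h2 := h1.2
  rw [hc] at h2
  exact h2

/-- The Ramsey numbers of trees. -/
theorem ramsey_trees : ∃ m₀ : ℕ, ∀ m k : ℕ, m₀ ≤ m → 1 ≤ k →
    (k : ℝ) ≤ (m : ℝ) ^ (1 / 100 : ℝ) → ∀ n : Fin k → ℕ, (∀ i, n i ≤ m) →
    (∀ r : ℕ, ∑ i, (n i : ℝ) + (m : ℝ) ^ (99 / 100 : ℝ) ≤ r →
      ∀ c : Sym2 (Fin r) → Fin k, ∃ i : Fin k, ∀ T : SimpleGraph (Fin (n i)), T.IsTree →
        ∃ f : Fin (n i) → Fin r, Function.Injective f ∧ ∀ x y, T.Adj x y → c s(f x, f y) = i) ∧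
    ∀ T : ∀ i, SimpleGraph (Fin (n i)), (∀ i, (T i).IsTree) →
      Arrows (ramsey T) T ∧ (ramsey T : ℝ) ≤ ∑ i, (n i : ℝ) + (m : ℝ) ^ (99 / 100 : ℝ) := by
  obtain ⟨m₀, hU⟩ := universal_colour
  refine ⟨m₀, fun m k hm hk hkm n hn => ?_⟩
  have hU := hU m k hm hk hkm n hn
  have hsum0 : (0 : ℝ) ≤ ∑ i, (n i : ℝ) := by positivity
  have hE0 : (0 : ℝ) ≤ (m : ℝ) ^ (99 / 100 : ℝ) := by positivity
  refine ⟨fun r hr c => ?_, fun T hT => ?_⟩
  · obtain ⟨i, hi⟩ := hU r (by linarith) c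
    refine ⟨i, fun T hT => ?_⟩
    obtain ⟨f, hf1, hf2⟩ := hi T hT
    exact ⟨f, hf1, fun x y hxy => (hf2 x y hxy).2⟩
  · obtain ⟨r, hr⟩ : ∃ r : ℕ, r = ⌊∑ i, (n i : ℝ) + (m : ℝ) ^ (99 / 100 : ℝ)⌋₊ := ⟨_, rfl⟩
    have hr1 : (r : ℝ) ≤ ∑ i, (n i : ℝ) + (m : ℝ) ^ (99 / 100 : ℝ) := by
      rw [hr]; exact Nat.floor_le (by linarith)
    have hr2 : ∑ i, (n i : ℝ) + (m : ℝ) ^ (99 / 100 : ℝ) < r + 1 := by
      rw [hr]; exact Nat.lt_floor_add_one _
    have hmem : r ∈ {r | Arrows r T} := by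
      intro c
      obtain ⟨i, hi⟩ := hU r hr2 c
      obtain ⟨f, hf1, hf2⟩ := hi (T i) (hT i)
      exact ⟨i, f, hf1, fun x y hxy => (hf2 x y hxy).2⟩
    refine ⟨Nat.sInf_mem ⟨r, hmem⟩, ?_⟩
    have h1 : ramsey T ≤ r := Nat.sInf_le hmem
    have h2 : (ramsey T : ℝ) ≤ r := by exact_mod_cast h1
    exact h2.trans hr1

end Pool.Agent.PolyTree
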