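import Pool.Agent.PolyTree.Defs

/-!
# The choice of a random homomorphism by the potential
-/

set_option autoImplicit false
set_option linter.unusedVariables false

namespace Pool.Agent.PolyTree

open Finset

variable {V : Type} [Fintype V] [DecidableEq V]

/-- The probability of a good event and of the event that moreover `v` is in the image. -/
noncomputable def prob (ω : V → V → ℝ) (r : ℕ → ℕ) (s : ℕ → Bool) (n : ℕ)
    (Good : (ℕ → V) → Prop) : ℝ := by
  classical
  exact Ex ω r s n (fun f => if Good f then 1 else 0)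

/-- There is a good homomorphism for which the potential does not increase much.

Proof. Let `im f = (range (n + 1)).image f`, `x' v = x v * (1 - pr v)`, `PG = prob ω r s n Good`,
`Δ t f = S (U ∪ im f) x' (g t) - S U x (g t)`, `E F = Ex ω r s n F`.
(1) For `f` admissible the points `f i`, `i ≤ n`, are not in `U` (`hU` and `Adm`), so for `v ∈ U`
the probability `pr v` is `0`.
(2) `∑ v, pr v ≤ n + 1` (`Ex_sum`, `#(im f) ≤ n + 1`), `0 ≤ pr v ≤ 1 / 2`.
(3) `|Δ t f| ≤ 3 ρ (n + 1)` for all `f`: `Δ t f = ∑_{v ∉ U ∪ im f} (g t v / x v) * (pr v /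
(1 - pr v)) - ∑_{v ∈ im f \ U} g t v / x v`, where `g t v / x v ≤ ρ`, `pr v / (1 - pr v) ≤ 2 pr v`.
(4) `E (1_Good * Δ t) = 0`: `E (1_Good * 1_{v ∉ im f}) = PG - PG * pr v` and
`S (U ∪ im f) x' g = ∑_{v ∉ U} 1_{v ∉ im f} * g v / (x v * (1 - pr v))`.
(5) With `C = 2 * (h * (3 * ρ * (n + 1))) ^ 2`, suppose that `pot h (M + Δ f) > (1 + C) pot h M`
for all admissible good `f`. Then by `Ex_mono`
`E (1_Good * pot h (M + Δ f)) ≥ PG * (1 + C) * pot h M`. On the other hand
`exp y ≤ 1 + y + y ^ 2` for `|y| ≤ 1` (`Real.exp_bound'` / `Real.abs_exp_sub_one_sub_id_le`), so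
`pot h (M + Δ) ≤ ∑ t, (exp (h M t) * (1 + h Δ + (h Δ) ^ 2) + exp (- h M t) * (1 - h Δ +
(h Δ) ^ 2))` and by (3), (4) `E (1_Good * pot h (M + Δ f)) ≤ PG * (1 + C / 2) * pot h M`. As
`PG > 0`, `C > 0`, `pot h M > 0`, this is a contradiction. -/
theorem select {ι : Type} [Fintype ι] [Nonempty ι] (ω : V → V → ℝ) (r : ℕ → ℕ) (s : ℕ → Bool)
    (n : ℕ) (hω : ∀ u v, 0 ≤ ω u v) (hr : ∀ i, 0 < i → r i < i) (hs0 : s 0 = true)
    (hs : ∀ i, 0 < i → s i = !s (r i)) (ht : 0 < tot ω)
    (U : Finset V) (hU : ∀ u v, 0 < ω u v → u ∉ U ∧ v ∉ U)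
    (x : V → ℝ) (ρ : ℝ) (hρ : 0 < ρ) (hx : ∀ v, 1 / ρ ≤ x v)
    (g : ι → V → ℝ) (hg0 : ∀ t v, 0 ≤ g t v) (hg1 : ∀ t v, g t v ≤ 1)
    (Good : (ℕ → V) → Prop) (hG : 0 < prob ω r s n Good)
    (pr : V → ℝ)
    (hpr : ∀ v, pr v = prob ω r s n (fun f => Good f ∧ v ∈ (range (n + 1)).image f) /
      prob ω r s n Good)
    (hpr2 : ∀ v, pr v ≤ 1 / 2)
    (h : ℝ) (hh : 0 < h) (hh1 : h * (3 * ρ * (n + 1)) ≤ 1) (M : ι → ℝ) :
    ∃ f : ℕ → V, Adm ω r s n f ∧ Good f ∧
      pot h (fun t => M t + (S (U ∪ (range (n + 1)).image f) (fun v => x v * (1 - pr v)) (g t) -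
        S U x (g t))) ≤ (1 + 2 * (h * (3 * ρ * (n + 1))) ^ 2) * pot h M := by
  classical
  have hprob : ∀ P : (ℕ → V) → Prop, prob ω r s n P = Ex ω r s n (fun f => if P f then 1 else 0) :=
    fun P => rfl
  set G : (ℕ → V) → ℝ := fun f => if Good f then 1 else 0 with hGdef
  set I : V → (ℕ → V) → ℝ := fun v f => if v ∈ (range (n + 1)).image f then 1 else 0 with hI
  set PG := prob ω r s n Good with hPG
  have hPG1 : PG = Ex ω r s n G := hprob Good
  have hG0 : ∀ f, 0 ≤ G f := by
    intro f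
    simp only [hGdef]
    split_ifs <;> norm_num
  have hI0 : ∀ v f, 0 ≤ I v f := by
    intro v f
    simp only [hI]
    split_ifs <;> norm_num
  have hpI : ∀ v, pr v * PG = Ex ω r s n (fun f => G f * I v f) := by
    intro v
    rw [hpr v, div_mul_cancel₀ _ hG.ne', hprob]
    congr 1
    funext f
    simp only [hGdef, hI]
    by_cases h1 : Good f <;> by_cases h2 : v ∈ (range (n + 1)).image f <;> simp [h1, h2]
  have hpr0 : ∀ v, 0 ≤ pr v := by
    intro v
    have h1 : 0 ≤ pr v * PG := by
      rw [hpI, ← Ex_zero (ω := ω) (q := r) (s := s) n]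
      exact Ex_mono hω n _ _ hr fun f _ => mul_nonneg (hG0 f) (hI0 v f)
    exact nonneg_of_mul_nonneg_left h1 hG
  have hIsum : ∀ f, ∑ v, I v f ≤ n + 1 := by
    intro f
    have h1 : ∑ v, I v f = ((range (n + 1)).image f).card := by
      simp only [hI]
      rw [sum_boole, filter_mem_eq_inter, univ_inter]
    have h2 : ((range (n + 1)).image f).card ≤ n + 1 := by
      simpa using card_image_le (s := range (n + 1)) (f := f)
    rw [h1]
    exact_mod_cast h2
  have hprsum : ∑ v, pr v ≤ n + 1 := by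
    have h1 : (∑ v, pr v) * PG ≤ (n + 1) * PG := by
      rw [sum_mul]
      calc ∑ v, pr v * PG = ∑ v, Ex ω r s n (fun f => G f * I v f) :=
            sum_congr rfl fun v _ => hpI v
        _ = Ex ω r s n (fun f => ∑ v, G f * I v f) := (Ex_sum _ _ _).symm
        _ ≤ Ex ω r s n (fun f => (n + 1) * G f) := by
            refine Ex_mono hω n _ _ hr fun f _ => ?_
            rw [← mul_sum, mul_comm]
            exact mul_le_mul_of_nonneg_right (hIsum f) (hG0 f)
        _ = (n + 1) * PG := by rw [Ex_smul, ← hPG1]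
    exact le_of_mul_le_mul_right h1 hG
  have hxpos : ∀ v, 0 < x v := fun v => (div_pos one_pos hρ).trans_le (hx v)
  set c : ι → V → ℝ := fun t v => g t v / x v with hc
  have hc0 : ∀ t v, 0 ≤ c t v := fun t v => div_nonneg (hg0 t v) (hxpos v).le
  have hc1 : ∀ t v, c t v ≤ ρ := by
    intro t v
    simp only [hc]
    rw [div_le_iff₀ (hxpos v)]
    have h1 := hx v
    rw [div_le_iff₀ hρ] at h1
    have h2 := hg1 t v
    linarith [mul_comm (x v) ρ]
  set k : V → ℝ := fun v => 1 / (1 - pr v) with hk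
  have hkp : ∀ v, 0 < 1 - pr v := fun v => by linarith [hpr2 v]
  have hkm : ∀ v, k v * (1 - pr v) = 1 := fun v => one_div_mul_cancel (hkp v).ne'
  have hk1 : ∀ v, 0 ≤ k v - 1 := by
    intro v
    have h1 : 1 ≤ k v := by
      simp only [hk]
      rw [le_div_iff₀ (hkp v)]
      linarith [hpr0 v]
    linarith
  have hk2 : ∀ v, k v - 1 ≤ 2 * pr v := by
    intro v
    have h1 : k v ≤ 1 + 2 * pr v := by
      simp only [hk]
      rw [div_le_iff₀ (hkp v)]
      nlinarith [hpr0 v, hpr2 v]
    linarith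
  set D : ι → (ℕ → V) → ℝ := fun t f => ∑ v ∈ Uᶜ, c t v * ((1 - I v f) * k v - 1) with hD
  have hΔ : ∀ t f, S (U ∪ (range (n + 1)).image f) (fun v => x v * (1 - pr v)) (g t) -
      S U x (g t) = D t f := by
    intro t f
    simp only [S, hD]
    have h1 : (U ∪ (range (n + 1)).image f)ᶜ =
        Uᶜ.filter (fun v => v ∉ (range (n + 1)).image f) := by
      ext v
      simp only [mem_compl, mem_union, mem_filter, not_or]
    rw [h1, sum_filter, ← sum_sub_distrib]
    refine sum_congr rfl fun v _ => ?_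
    simp only [hc, hk, hI]
    have h2 := (hxpos v).ne'
    have h3 := (hkp v).ne'
    by_cases h4 : v ∈ (range (n + 1)).image f
    · simp only [h4, not_true_eq_false, if_false, if_true]
      ring
    · simp only [h4, not_false_eq_true, if_false, if_true]
      field_simp
      ring
  have hDb : ∀ t f, |D t f| ≤ 3 * ρ * (n + 1) := by
    intro t f
    calc |D t f| ≤ ∑ v ∈ Uᶜ, |c t v * ((1 - I v f) * k v - 1)| := abs_sum_le_sum_abs _ _
      _ ≤ ∑ v ∈ Uᶜ, ρ * (I v f + 2 * pr v) := by
          refine sum_le_sum fun v _ => ?_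
          rw [abs_mul, abs_of_nonneg (hc0 t v)]
          refine mul_le_mul (hc1 t v) ?_ (abs_nonneg _) hρ.le
          simp only [hI]
          split_ifs
          · rw [sub_self, zero_mul, zero_sub, abs_neg, abs_one]
            linarith [hpr0 v]
          · rw [sub_zero, one_mul, abs_of_nonneg (hk1 v), zero_add]
            exact hk2 v
      _ ≤ ∑ v, ρ * (I v f + 2 * pr v) := by
          refine sum_le_sum_of_subset_of_nonneg (subset_univ _) fun v _ _ => ?_
          have h1 := hI0 v f
          have h2 := hpr0 v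
          positivity
      _ = ρ * (∑ v, I v f + 2 * ∑ v, pr v) := by
          rw [← mul_sum, sum_add_distrib, ← mul_sum]
      _ ≤ ρ * ((n + 1) + 2 * (n + 1)) := by
          have h1 := hIsum f
          gcongr
      _ = 3 * ρ * (n + 1) := by ring
  have hDE : ∀ t, Ex ω r s n (fun f => G f * D t f) = 0 := by
    intro t
    have h1 : (fun f => G f * D t f) = fun f => ∑ v ∈ Uᶜ,
        (c t v * (k v - 1) * G f - c t v * k v * (G f * I v f)) := by
      funext f
      simp only [hD]
      rw [mul_sum]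
      exact sum_congr rfl fun v _ => by ring
    rw [h1, Ex_sum]
    refine sum_eq_zero fun v _ => ?_
    rw [Ex_sub, Ex_smul, Ex_smul, ← hPG1, ← hpI]
    have h2 := hkm v
    linear_combination (c t v * PG) * h2
  set b := h * (3 * ρ * (n + 1)) with hb
  have hb0 : 0 < b := by positivity
  have hpotpos : 0 < pot h M := by
    unfold pot
    exact sum_pos (fun t _ => by positivity) univ_nonempty
  by_contra hcon
  push Not at hcon
  have hlow : PG * ((1 + 2 * b ^ 2) * pot h M) ≤
      Ex ω r s n (fun f => G f * pot h (fun t => M t + D t f)) := by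
    rw [hPG1, mul_comm, ← Ex_smul]
    refine Ex_mono hω n _ _ hr fun f hf => ?_
    by_cases h1 : Good f
    · have h2 := hcon f hf h1
      simp only [hΔ] at h2
      simp only [hGdef, h1, if_true, mul_one, one_mul]
      exact h2.le
    · simp only [hGdef, h1, if_false, mul_zero, zero_mul, le_refl]
  have hexp : ∀ y : ℝ, |y| ≤ b → Real.exp y ≤ 1 + y + b ^ 2 := by
    intro y hy
    have h1 := (abs_le.1 (Real.abs_exp_sub_one_sub_id_le (hy.trans hh1))).2
    have h2 : y ^ 2 ≤ b ^ 2 := sq_le_sq' (by linarith [(abs_le.1 hy).1]) (abs_le.1 hy).2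
    linarith
  have hup : ∀ f, G f * pot h (fun t => M t + D t f) ≤ (1 + b ^ 2) * pot h M * G f +
      ∑ t, (Real.exp (h * M t) - Real.exp (-(h * M t))) * h * (G f * D t f) := by
    intro f
    have h1 : pot h (fun t => M t + D t f) ≤ (1 + b ^ 2) * pot h M +
        ∑ t, (Real.exp (h * M t) - Real.exp (-(h * M t))) * h * D t f := by
      unfold pot
      rw [mul_sum, ← sum_add_distrib]
      refine sum_le_sum fun t _ => ?_
      have h2 : |h * D t f| ≤ b := by
        rw [abs_mul, abs_of_pos hh, hb]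
        exact mul_le_mul_of_nonneg_left (hDb t f) hh.le
      have h3 : |-(h * D t f)| ≤ b := by rwa [abs_neg]
      have h4 := hexp _ h2
      have h5 := hexp _ h3
      have h6 : Real.exp (h * (M t + D t f)) = Real.exp (h * M t) * Real.exp (h * D t f) := by
        rw [← Real.exp_add]
        ring_nf
      have h7 : Real.exp (-(h * (M t + D t f))) =
          Real.exp (-(h * M t)) * Real.exp (-(h * D t f)) := by
        rw [← Real.exp_add]
        ring_nf
      rw [h6, h7]
      have h8 := mul_le_mul_of_nonneg_left h4 (Real.exp_pos (h * M t)).le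
      have h9 := mul_le_mul_of_nonneg_left h5 (Real.exp_pos (-(h * M t))).le
      refine (add_le_add h8 h9).trans (le_of_eq ?_)
      ring
    refine (mul_le_mul_of_nonneg_left h1 (hG0 f)).trans (le_of_eq ?_)
    rw [mul_add, mul_sum]
    congr 1
    · ring
    · exact sum_congr rfl fun t _ => by ring
  have hupE : Ex ω r s n (fun f => G f * pot h (fun t => M t + D t f)) ≤
      (1 + b ^ 2) * pot h M * PG := by
    refine (Ex_mono hω n _ _ hr fun f _ => hup f).trans (le_of_eq ?_)
    rw [Ex_add, Ex_smul, ← hPG1, Ex_sum]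
    rw [sum_eq_zero, add_zero]
    intro t _
    rw [Ex_smul, hDE, mul_zero]
  have h1 := hlow.trans hupE
  have h2 : 0 < PG * (b ^ 2 * pot h M) := by positivity
  nlinarith

end Pool.Agent.PolyTree
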