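import Pool.Agent.PolyTree.EvGood
import Pool.Agent.PolyTree.EvMem

/-!
# The embedding of a shrub
-/

set_option autoImplicit false

namespace Pool.Agent.PolyTree

open Finset

variable {V : Type} [Fintype V] [DecidableEq V]
variable {G : SimpleGraph V} [DecidableRel G.Adj] {a : V} {U : Finset V} {x : V → ℝ}
  {ρ η δ : ℝ}

lemma prob_nonneg {ω : V → V → ℝ} (hω : ∀ u v, 0 ≤ ω u v) {r : ℕ → ℕ}
    (hr : ∀ i, 0 < i → r i < i) {s : ℕ → Bool} {n : ℕ} (Good : (ℕ → V) → Prop) :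
    0 ≤ prob ω r s n Good := by
  classical
  unfold prob
  refine (Ex_zero (ω := ω) (q := r) (s := s) n).symm.le.trans (Ex_mono hω n _ _ hr fun f _ => ?_)
  split_ifs <;> norm_num

/-- One shrub can be embedded.

Proof. Apply `select` with `ω = om G a U x`, `Good = GoodEv n j B`,
`pr v = prob (Good ∧ v ∈ image) / prob Good`. `prob Good ≥ 1 - δ0 ≥ 1 / 2 > 0` by `prob_good_ge`;
by `prob_mem_le` and `hκ`, `x v * pr v ≤ κ`, so `pr v ≤ κ / x v ≤ κ ρ ≤ 1 / 2` and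
`x' v = x v * (1 - pr v) ≥ x v - κ` (for every `v`). `om u v > 0` means `Adj a u`, `u ∉ U`,
`Adj u v`, `v ∉ U`. For an admissible `f`: `row true (f 0) > 0` gives `Adj a (f 0)` and
`f 0 ∉ U` (some `om (f 0) v > 0`), and `ew (s (r i)) (f (r i)) (f i) > 0` gives `f i ∉ U` and the
adjacency of `f i` and `f (r i)`. `0 < tot` by `tot_ge`. -/
theorem shrub_step {ι : Type} [Fintype ι] [Nonempty ι]
    (hl : Loc G a U x ρ η δ) (r : ℕ → ℕ) (s : ℕ → Bool) (n j : ℕ)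
    (hr : ∀ i, 0 < i → r i < i) (hs0 : s 0 = true) (hs : ∀ i, 0 < i → s i = !s (r i))
    (hj : j ≤ n) (hsj : s j = true) (B : Finset V) (β δ0 κ : ℝ)
    (hB : (#(G.neighborFinset a ∩ B) : ℝ) ≤ β * G.degree a)
    (hcoll : (n + 1 : ℝ) ^ 2 * (Fintype.card V * (ρ ^ 2 / δ) / ((1 - η) ^ 2 * δ)) ≤ δ0 / 2)
    (hbad : β * (ρ * (1 + η) / (1 - η) ^ 2) ≤ δ0 / 2) (hδ0 : δ0 ≤ 1 / 2)
    (hκ : (1 + η) / ((1 - η) ^ 2 * (1 - δ0)) *
      (#{i ∈ range (n + 1) | s i = true} * (1 / (G.degree a : ℝ)) +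
        #{i ∈ range (n + 1) | s i = false} * F1 G a) ≤ κ)
    (hκρ : κ * ρ ≤ 1 / 2)
    (g : ι → V → ℝ) (hg0 : ∀ t v, 0 ≤ g t v) (hg1 : ∀ t v, g t v ≤ 1)
    (h : ℝ) (hh : 0 < h) (hh1 : h * (3 * ρ * (n + 1)) ≤ 1) (M : ι → ℝ) :
    ∃ (f : ℕ → V) (x' : V → ℝ),
      (∀ i ≤ n, f i ∉ U) ∧ Set.InjOn f (Set.Iic n) ∧ G.Adj a (f 0) ∧
      (∀ i, 0 < i → i ≤ n → G.Adj (f i) (f (r i))) ∧ f j ∉ B ∧
      (∀ v, x v - κ ≤ x' v) ∧ (∀ v, x' v ≤ x v) ∧
      pot h (fun t => M t + (S (U ∪ (range (n + 1)).image f) x' (g t) - S U x (g t))) ≤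
        (1 + 2 * (h * (3 * ρ * (n + 1))) ^ 2) * pot h M := by
  classical
  have hω := om_nonneg hl
  have hPG := prob_good_ge hl r s n j hr hs0 hs hj hsj B β δ0 hB hcoll hbad
  set PG := prob (om G a U x) r s n (GoodEv n j B) with hPGd
  have hPG0 : 0 < PG := by linarith
  have h1δ : 0 < 1 - δ0 := by linarith
  have hda : 0 < (G.degree a : ℝ) := hl.δ_pos.trans_le (hl.hδ a)
  have h1η : 0 < 1 - η := by have := hl.η_le; linarith
  have ht : 0 < tot (om G a U x) := lt_of_lt_of_le (by positivity) (tot_ge hl)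
  have hx0 : ∀ v, 0 < x v := fun v =>
    lt_of_lt_of_le (by have := hl.ρ_pos; positivity) (hl.hx v)
  have hpos : ∀ u v, 0 < om G a U x u v → G.Adj a u ∧ u ∉ U ∧ G.Adj u v ∧ v ∉ U := by
    intro u v h
    by_contra hcon
    unfold om at h
    rw [if_neg hcon] at h
    exact lt_irrefl _ h
  obtain ⟨pr, hpr⟩ : ∃ pr : V → ℝ, ∀ v, pr v = prob (om G a U x) r s n
      (fun f => GoodEv n j B f ∧ v ∈ (range (n + 1)).image f) / PG := ⟨_, fun _ => rfl⟩
  have hF1 : 0 ≤ F1 G a :=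
    div_nonneg (sum_nonneg fun u _ => one_div_nonneg.2 (Nat.cast_nonneg _)) (Nat.cast_nonneg _)
  have hprκ : ∀ v, x v * pr v ≤ κ := by
    intro v
    have h1 := prob_mem_le hl r s n hr hs0 hs (GoodEv n j B) v
    rw [hpr v, ← mul_div_assoc, div_le_iff₀ hPG0]
    refine h1.trans ?_
    obtain ⟨T, hT⟩ : ∃ T : ℝ, T = #{i ∈ range (n + 1) | s i = true} * (1 / (G.degree a : ℝ)) +
        #{i ∈ range (n + 1) | s i = false} * F1 G a := ⟨_, rfl⟩
    have hT0 : 0 ≤ T := by rw [hT]; positivity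
    rw [← hT] at hκ ⊢
    have h2 : (1 + η) / (1 - η) ^ 2 * T = (1 + η) / ((1 - η) ^ 2 * (1 - δ0)) * T * (1 - δ0) := by
      field_simp
    rw [h2]
    have h3 : 0 ≤ (1 + η) / ((1 - η) ^ 2 * (1 - δ0)) * T := by
      have := hl.η_pos
      positivity
    exact mul_le_mul hκ hPG h1δ.le (h3.trans hκ)
  have hpr0 : ∀ v, 0 ≤ pr v := by
    intro v
    rw [hpr v]
    exact div_nonneg (prob_nonneg hω hr _) hPG0.le
  have hpr2 : ∀ v, pr v ≤ 1 / 2 := by
    intro v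
    have h1 := hprκ v
    have h2 : 1 ≤ ρ * x v := by
      have := hl.hx v
      rw [div_le_iff₀ hl.ρ_pos] at this
      linarith
    have h3 : pr v ≤ ρ * x v * pr v := by
      have := mul_le_mul_of_nonneg_right h2 (hpr0 v)
      linarith
    have h4 : ρ * (x v * pr v) ≤ ρ * κ := mul_le_mul_of_nonneg_left h1 hl.ρ_pos.le
    linarith
  obtain ⟨f, hf1, hf2, hf3⟩ := select (om G a U x) r s n hω hr hs0 hs ht U
    (fun u v h => ⟨(hpos u v h).2.1, (hpos u v h).2.2.2⟩) x ρ hl.ρ_pos hl.hx g hg0 hg1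
    (GoodEv n j B) hPG0 pr hpr hpr2 h hh hh1 M
  have hrow0 : G.Adj a (f 0) ∧ f 0 ∉ U := by
    have h1 := hf1.1
    by_contra hcon
    unfold row at h1
    rw [if_pos rfl, sum_eq_zero] at h1
    · exact lt_irrefl _ h1
    · intro v _
      unfold om
      rw [if_neg]
      rintro ⟨h2, h3, _⟩
      exact hcon ⟨h2, h3⟩
  have hstep : ∀ i, 0 < i → i ≤ n → G.Adj (f i) (f (r i)) ∧ f i ∉ U := by
    intro i hi hin
    have h1 := hf1.2 i hi hin
    unfold ew at h1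
    split_ifs at h1
    · have := hpos _ _ h1
      exact ⟨this.2.2.1.symm, this.2.2.2⟩
    · have := hpos _ _ h1
      exact ⟨this.2.2.1, this.2.1⟩
  refine ⟨f, fun v => x v * (1 - pr v), ?_, hf2.1, hrow0.1, fun i hi hin => (hstep i hi hin).1,
    hf2.2, ?_, ?_, hf3⟩
  · intro i hi
    rcases Nat.eq_zero_or_pos i with h0 | h0
    · rw [h0]; exact hrow0.2
    · exact (hstep i h0 hi).2
  · intro v
    have := hprκ v
    linarith
  · intro v
    have h1 := mul_nonneg (hx0 v).le (hpr0 v)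
    linarith

end Pool.Agent.PolyTree
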