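import Pool.Agent.PolyTree.LocState
import Pool.Agent.PolyTree.DecTop
import Pool.Agent.PolyTree.ShrubStep

/-!
# The image of a shrub
-/

set_option autoImplicit false

namespace Pool.Agent.PolyTree

open Finset

variable {V : Type} [Fintype V] [DecidableEq V]
variable {G : SimpleGraph V} [DecidableRel G.Adj] {m q L : ℕ} {p : ℕ → ℕ} {W : Finset ℕ}
  {top : ℕ → ℕ} {par : ℕ → Bool} {A : Bool → Finset V} {X0 X1 : Bool → ℝ} {Λ h : ℝ}
  {k : ℕ} {φ : ℕ → V} {x : V → ℝ} {M D : V ⊕ (V × V) ⊕ (V × Bool) → ℝ}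

/-- The numerical facts for `shrub_step` (`b` is `16 q`, `η = 1 / (64 q)`, `δ0 = 1 / (128 q)`).

Proof. `u = 1 / (64 q) ≤ 1 / 64`: `(1 + u) ≤ (1 + 4 u) (1 - u) ^ 2 (1 - u / 2)` because
`(1 - u) ^ 2 (1 - u / 2) ≥ 1 - 5 u / 2` and `(1 + 4 u) (1 - 5 u / 2) = 1 + 3 u / 2 - 10 u ^ 2`.
The second: `(n + 1) ^ 2 ≤ L ^ 2`, `N ≤ q m`:
`L ^ 2 * (q m * (256 q ^ 2 * 2 / m) / ((63 / 64) ^ 2 * m / 2)) ≤ 1100 L ^ 2 q ^ 3 / m ≤
1 / (256 q)` by `Num.coll`. The third: `(1 / (2 ^ 13 q ^ 2)) * 16 q * (1 + η) / (1 - η) ^ 2 ≤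
(1 / (2 ^ 9 q)) * 2 = 1 / (256 q)`. -/
theorem Num.facts {N m q L : ℕ} {Λ h : ℝ} (hn : Num N m q L Λ h) {n : ℕ} (hnL : n + 1 ≤ L) :
    (1 + 1 / (64 * q : ℝ)) / ((1 - 1 / (64 * q : ℝ)) ^ 2 * (1 - 1 / (128 * q : ℝ))) ≤
      1 + 1 / (16 * q) ∧
    (n + 1 : ℝ) ^ 2 * (N * ((16 * q : ℝ) ^ 2 / (m / 2)) / ((1 - 1 / (64 * q : ℝ)) ^ 2 * (m / 2))) ≤
      1 / (128 * q) / 2 ∧
    1 / (2 ^ 13 * q ^ 2 : ℝ) * (16 * q * (1 + 1 / (64 * q : ℝ)) / (1 - 1 / (64 * q : ℝ)) ^ 2) ≤
      1 / (128 * q) / 2 ∧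
    (1 + 1 / (16 * (q : ℝ))) * (3 * L / m) * (16 * q) ≤ 1 / 2 := by
  have hq : (1 : ℝ) ≤ q := by exact_mod_cast hn.q_pos
  have hm : (1 : ℝ) ≤ m := by exact_mod_cast hn.m_pos
  have hL : (1 : ℝ) ≤ L := by exact_mod_cast hn.L_pos
  have hq0 : (0 : ℝ) < q := by linarith
  have hm0 : (0 : ℝ) < m := by linarith
  have hL0 : (0 : ℝ) < L := by linarith
  have hN : (N : ℝ) ≤ q * m := by exact_mod_cast hn.N_le
  have hN0 : (0 : ℝ) ≤ N := by positivity
  have hn1 : (n + 1 : ℝ) ≤ L := by exact_mod_cast hnL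
  have hcoll := hn.coll
  obtain ⟨u, hu⟩ : ∃ u : ℝ, u = 1 / (64 * q) := ⟨_, rfl⟩
  have hu0 : 0 < u := by
    rw [hu]
    positivity
  have hu1 : u ≤ 1 / 64 := by
    rw [hu]
    apply one_div_le_one_div_of_le (by norm_num)
    linarith
  have h128 : 1 / (128 * q : ℝ) = u / 2 := by
    rw [hu]
    field_simp
    norm_num
  have h16 : 1 / (16 * (q : ℝ)) = 4 * u := by
    rw [hu]
    field_simp
    norm_num
  have hd1 : (0 : ℝ) < 1 - u := by linarith
  have hd2 : (0 : ℝ) < 1 - u / 2 := by linarith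
  refine ⟨?_, ?_, ?_, ?_⟩
  · rw [← hu, h128, h16, div_le_iff₀ (by positivity)]
    nlinarith [mul_pos hu0 hu0, mul_pos (mul_pos hu0 hu0) hu0,
      mul_nonneg hu0.le (sub_nonneg.2 hu1), mul_nonneg (mul_pos hu0 hu0).le (sub_nonneg.2 hu1),
      mul_nonneg (mul_pos (mul_pos hu0 hu0) hu0).le (sub_nonneg.2 hu1)]
  · rw [← hu]
    have h1 : (9 / 10 : ℝ) ≤ (1 - u) ^ 2 := by nlinarith
    have h2 : (N : ℝ) * ((16 * q : ℝ) ^ 2 / (m / 2)) / ((1 - u) ^ 2 * (m / 2)) ≤
        (q * m) * ((16 * q : ℝ) ^ 2 / (m / 2)) / (9 / 10 * (m / 2)) := by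
      apply div_le_div₀ (by positivity) (mul_le_mul_of_nonneg_right hN (by positivity))
        (by positivity) (mul_le_mul_of_nonneg_right h1 (by positivity))
    have h3 : (q * m : ℝ) * ((16 * q : ℝ) ^ 2 / (m / 2)) / (9 / 10 * (m / 2)) =
        10240 / 9 * q ^ 3 / m := by
      field_simp
      ring
    have h4 : (n + 1 : ℝ) ^ 2 ≤ (L : ℝ) ^ 2 := pow_le_pow_left₀ (by positivity) hn1 2
    have h5 : (n + 1 : ℝ) ^ 2 * ((N : ℝ) * ((16 * q : ℝ) ^ 2 / (m / 2)) /
        ((1 - u) ^ 2 * (m / 2))) ≤ (L : ℝ) ^ 2 * (10240 / 9 * q ^ 3 / m) := by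
      apply mul_le_mul h4 (h2.trans h3.le) (by positivity) (by positivity)
    refine h5.trans ?_
    rw [div_div, mul_div_assoc', div_le_div_iff₀ hm0 (by positivity)]
    have h6 : (L : ℝ) ^ 2 * (10240 / 9 * q ^ 3) * (128 * q * 2) ≤
        (L : ℝ) ^ 2 * (2 ^ 20 * q ^ 4) := by
      have : (L : ℝ) ^ 2 * (10240 / 9 * q ^ 3) * (128 * q * 2) =
        (L : ℝ) ^ 2 * (2621440 / 9 * q ^ 4) := by ring
      rw [this]
      apply mul_le_mul_of_nonneg_left _ (by positivity)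
      apply mul_le_mul_of_nonneg_right _ (by positivity)
      norm_num
    linarith
  · rw [← hu, h128]
    have hqu : (q : ℝ) = 1 / (64 * u) := by
      rw [hu]
      field_simp
    have h1 : (1 + u) / (1 - u) ^ 2 ≤ 2 := by
      rw [div_le_iff₀ (by positivity)]
      nlinarith
    have h2 : 1 / (2 ^ 13 * q ^ 2 : ℝ) * (16 * q * (1 + u) / (1 - u) ^ 2) =
        u / 8 * ((1 + u) / (1 - u) ^ 2) := by
      rw [hqu]
      field_simp
      norm_num
    rw [h2]
    have h3 : u / 8 * ((1 + u) / (1 - u) ^ 2) ≤ u / 8 * 2 :=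
      mul_le_mul_of_nonneg_left h1 (by positivity)
    linarith
  · have h1 : 1 / (16 * (q : ℝ)) ≤ 1 / 16 := by
      apply one_div_le_one_div_of_le (by norm_num)
      linarith
    have h2 : (L : ℝ) * q * 2 ^ 20 ≤ m := by
      refine le_trans ?_ hcoll
      have h3 : (L : ℝ) * q ≤ (L : ℝ) ^ 2 * q ^ 4 := by
        have h4 : (L : ℝ) ≤ (L : ℝ) ^ 2 := by nlinarith
        have h5 : (q : ℝ) ≤ (q : ℝ) ^ 4 := le_self_pow₀ hq (by norm_num)
        exact mul_le_mul h4 h5 hq0.le (by positivity)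
      nlinarith
    have h6 : (1 + 1 / (16 * (q : ℝ))) * (3 * L / m) * (16 * q) ≤
        (1 + 1 / 16) * (3 * L / m) * (16 * q) := by
      apply mul_le_mul_of_nonneg_right _ (by positivity)
      apply mul_le_mul_of_nonneg_right _ (by positivity)
      linarith
    refine h6.trans ?_
    have h7 : (1 + 1 / 16 : ℝ) * (3 * L / m) * (16 * q) = 51 * (L * q) / m := by
      field_simp
      ring
    rw [h7, div_le_iff₀ hm0]
    nlinarith [mul_pos hL0 hq0]

/-- The shrub with the top `k` is embedded by `shrub_step`: this is the pure existence of the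
image.

Proof. Apply `shrub_step` with `a = φ (p k)` (in `A (par (p k))` by `State.seed`),
`U = used m top k φ`, `ρ = 16 q`, `η = 1 / (64 q)`, `δ = m / 2` (`State.loc`),
`B = Bad G q A (par (p k))`, `β = 1 / (2 ^ 13 q ^ 2)` (`Cls.bad`), `δ0 = 1 / (128 q)`,
`κ = (1 + 1 / (16 q)) * ∑_{i ∈ C} wt i / m`, `g = test G m A`. The set `C` of the shrub has
`n + 1 ≤ L` elements (`hc2`, `Dec.size`). With `b = par (p k)`, `wt i = X1 b` if `par i = b` and
`X0 b` otherwise (`top i = k` on `C`), so `∑_{i ∈ C} wt i = o * X0 b + e * X1 b`, where `o`, `e`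
are the numbers of the `i ≤ n` with `s i = true`, `s i = false` (`hs2`, sum over the image with
`hc2`). `1 / deg a ≤ X0 b / m` and `F1 a ≤ X1 b / m` by `Cls.le_X0`, `Cls.le_X1`. `hcoll`, `hbad`,
`hκ`, `hκρ` follow from `Num.facts` (`wt ≤ 3`). `hh1` is `Num.hL`. At the end
`1 + 2 (h * (3 * 16 q * (n + 1))) ^ 2 ≤ exp (4608 h ^ 2 q ^ 2 (n + 1) ^ 2)` and `n + 1 ≤ L`. -/
theorem State.exists_shrub (hs : State G m q L p W top par A X0 X1 h k φ x M D)
    (hd : Dec m L p W top par) (hn : Num (Fintype.card V) m q L Λ h)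
    (hc : Cls G m q A X0 X1) (hδ : ∀ v, (m / 2 : ℝ) ≤ G.degree v)
    (hX : ∑ i ∈ range m with i ∉ W, wt p top par X0 X1 i / m ≤ 1 - 1 / (8 * q))
    (hk : k ∉ W) (hpk : p k ∈ W) (hkm : k < m)
    {n : ℕ} {c r : ℕ → ℕ} {s : ℕ → Bool} {j : ℕ}
    (hc1 : (range (n + 1)).image c = {i ∈ range m | i ∉ W ∧ top i = k})
    (hc2 : Set.InjOn c (Set.Iic n)) (hc0 : c 0 = k)
    (hr : ∀ i, 0 < i → r i < i) (hs0 : s 0 = true) (hs1 : ∀ i, 0 < i → s i = !s (r i))
    (hs2 : ∀ i ≤ n, s i = true ↔ par (c i) ≠ par (p k)) (hj : j ≤ n) (hsj : s j = true) :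
    ∃ (f : ℕ → V) (x' : V → ℝ),
      (∀ i ≤ n, f i ∉ used m top k φ) ∧ Set.InjOn f (Set.Iic n) ∧ G.Adj (φ (p k)) (f 0) ∧
      (∀ i, 0 < i → i ≤ n → G.Adj (f i) (f (r i))) ∧ f j ∉ Bad G q A (par (p k)) ∧
      (∀ v, x v - (1 + 1 / (16 * (q : ℝ))) *
        ∑ i ∈ range m with i ∉ W ∧ top i = k, wt p top par X0 X1 i / m ≤ x' v) ∧
      (∀ v, x' v ≤ x v) ∧
      pot h (fun t => M t + (S (used m top k φ ∪ (range (n + 1)).image f) x' (test G m A t) -
        S (used m top k φ) x (test G m A t))) ≤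
          Real.exp (4608 * h ^ 2 * q ^ 2 * L * (n + 1)) * pot h M := by
  have hq : (1 : ℝ) ≤ q := by exact_mod_cast hn.q_pos
  have hm : (1 : ℝ) ≤ m := by exact_mod_cast hn.m_pos
  have hq0 : (0 : ℝ) < q := by linarith
  have hm0 : (0 : ℝ) < m := by linarith
  have hk0 : 0 < k := Nat.pos_of_ne_zero fun h => hk (h ▸ hd.zero_mem)
  have hpkk := hd.hp k hk0
  have ha : φ (p k) ∈ A (par (p k)) := hs.seed (p k) hpk (hpkk.trans hkm) hpkk
  have hinj : Set.InjOn c (range (n + 1) : Finset ℕ) := by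
    intro i hi i' hi' h
    rw [mem_coe, mem_range] at hi hi'
    exact hc2 (Set.mem_Iic.2 (by omega)) (Set.mem_Iic.2 (by omega)) h
  have hnL : n + 1 ≤ L := by
    have h1 := hd.size k
    rw [← hc1, card_image_of_injOn hinj, card_range] at h1
    exact h1
  have hn1 : (n + 1 : ℝ) ≤ L := by exact_mod_cast hnL
  obtain ⟨F1', F2', F3', F4'⟩ := hn.facts hnL
  have hX0 := hc.le_X0 (par (p k)) _ ha
  have hX1 := hc.le_X1 (par (p k)) _ ha
  have hX0' := hc.X0_nonneg (par (p k))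
  have hX1' := hc.X1_nonneg (par (p k))
  have hX03 := hc.X0_le (par (p k))
  have hX13 := hc.X1_le (par (p k))
  -- the sum of the weights
  have hwt : ∀ i ∈ range (n + 1), wt p top par X0 X1 (c i) =
      if s i = true then X0 (par (p k)) else X1 (par (p k)) := by
    intro i hi
    have h1 : c i ∈ {i ∈ range m | i ∉ W ∧ top i = k} := by
      rw [← hc1]
      exact mem_image_of_mem c hi
    rw [mem_filter] at h1
    have h2 := hs2 i (by rw [mem_range] at hi; omega)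
    unfold wt
    rw [h1.2.2]
    by_cases h3 : s i = true
    · rw [if_pos h3, if_neg (h2.1 h3)]
    · rw [if_neg h3, if_pos (by
        by_contra h4
        exact h3 (h2.2 h4))]
  have hsum : ∑ i ∈ range m with i ∉ W ∧ top i = k, wt p top par X0 X1 i / m =
      (#{i ∈ range (n + 1) | s i = true} * X0 (par (p k)) +
        #{i ∈ range (n + 1) | s i = false} * X1 (par (p k))) / m := by
    rw [← sum_div, ← hc1, sum_image (fun i hi i' hi' h => hinj hi hi' h), sum_congr rfl hwt,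
      sum_ite, sum_const, sum_const, nsmul_eq_mul, nsmul_eq_mul]
    congr 3
    simp only [Bool.not_eq_true]
  have hcards : #{i ∈ range (n + 1) | s i = true} + #{i ∈ range (n + 1) | s i = false} =
      n + 1 := by
    have := card_filter_add_card_filter_not (s := range (n + 1)) (fun i => s i = true)
    simp only [Bool.not_eq_true, card_range] at this
    exact this
  have hcards' : (#{i ∈ range (n + 1) | s i = true} : ℝ) +
      #{i ∈ range (n + 1) | s i = false} = n + 1 := by exact_mod_cast hcards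
  have hdega : (0 : ℝ) < G.degree (φ (p k)) := by
    have := hδ (φ (p k))
    linarith
  have hF1 : 0 ≤ F1 G (φ (p k)) := by
    unfold F1
    positivity
  have hu0 : (0 : ℝ) < 1 / (64 * q) := by positivity
  have hu1 : 1 / (64 * q : ℝ) ≤ 1 / 64 := by
    apply one_div_le_one_div_of_le (by norm_num)
    linarith
  have hv0 : (0 : ℝ) < 1 / (128 * q) := by positivity
  have hv1 : 1 / (128 * q : ℝ) ≤ 1 / 128 := by
    apply one_div_le_one_div_of_le (by norm_num)
    linarith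
  have hκρ : (1 + 1 / (16 * (q : ℝ))) *
      ∑ i ∈ range m with i ∉ W ∧ top i = k, wt p top par X0 X1 i / m * (16 * q) ≤ 1 / 2 := by
    rw [← sum_mul, ← mul_assoc]
    refine le_trans ?_ F4'
    apply mul_le_mul_of_nonneg_right _ (by positivity)
    apply mul_le_mul_of_nonneg_left _ (by positivity)
    rw [hsum]
    apply div_le_div_of_nonneg_right _ hm0.le
    have h1 : (#{i ∈ range (n + 1) | s i = true} : ℝ) * X0 (par (p k)) ≤
      #{i ∈ range (n + 1) | s i = true} * 3 := mul_le_mul_of_nonneg_left hX03 (by positivity)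
    have h2 : (#{i ∈ range (n + 1) | s i = false} : ℝ) * X1 (par (p k)) ≤
      #{i ∈ range (n + 1) | s i = false} * 3 := mul_le_mul_of_nonneg_left hX13 (by positivity)
    linarith
  rw [← sum_mul, ← mul_assoc] at hκρ
  have hκ : (1 + 1 / (64 * q : ℝ)) / ((1 - 1 / (64 * q : ℝ)) ^ 2 * (1 - 1 / (128 * q : ℝ))) *
      (#{i ∈ range (n + 1) | s i = true} * (1 / (G.degree (φ (p k)) : ℝ)) +
        #{i ∈ range (n + 1) | s i = false} * F1 G (φ (p k))) ≤
      (1 + 1 / (16 * (q : ℝ))) *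
        ∑ i ∈ range m with i ∉ W ∧ top i = k, wt p top par X0 X1 i / m := by
    apply mul_le_mul F1' _ (by positivity) (by positivity)
    rw [hsum, le_div_iff₀ hm0, add_mul, mul_assoc, mul_assoc]
    apply add_le_add
    · apply mul_le_mul_of_nonneg_left _ (by positivity)
      linarith
    · apply mul_le_mul_of_nonneg_left _ (by positivity)
      linarith
  have hB : (#(G.neighborFinset (φ (p k)) ∩ Bad G q A (par (p k))) : ℝ) ≤
      1 / (2 ^ 13 * q ^ 2 : ℝ) * G.degree (φ (p k)) := by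
    have h1 := hc.bad (par (p k)) _ ha
    rw [one_div, inv_mul_eq_div]
    exact h1
  have hdeg : ∀ w, (m / 2 : ℝ) / G.degree w ≤ 1 := fun w =>
    div_le_one_of_le₀ (hδ w) (by positivity)
  have hh1 : h * (3 * (16 * q) * (n + 1)) ≤ 1 := by
    refine le_trans ?_ hn.hL
    apply mul_le_mul_of_nonneg_left _ hn.h_pos.le
    have : (3 * (16 * q) * (n + 1) : ℝ) = 48 * q * (n + 1) := by ring
    rw [this]
    apply mul_le_mul_of_nonneg_left hn1 (by positivity)
  have : Nonempty (V ⊕ (V × V) ⊕ (V × Bool)) := ⟨Sum.inl (φ (p k))⟩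
  obtain ⟨f, x', h1, h2, h3, h4, h5, h6, h7, h8⟩ :=
    shrub_step (hs.loc hd hn hc hδ hX (φ (p k))) r s n j hr hs0 hs1 hj hsj
      (Bad G q A (par (p k))) (1 / (2 ^ 13 * q ^ 2 : ℝ)) (1 / (128 * q : ℝ)) _ hB F2' F3'
      (by linarith) hκ hκρ (test G m A)
      (by
        rintro (u | ⟨a, v⟩ | ⟨u, b⟩) w
        · simp only [test]
          split_ifs <;> norm_num
        · simp only [test]
          split_ifs
          · positivity
          · exact le_rfl
        · simp only [test]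
          split_ifs <;> norm_num)
      (by
        rintro (u | ⟨a, v⟩ | ⟨u, b⟩) w
        · simp only [test]
          split_ifs <;> norm_num
        · simp only [test]
          split_ifs
          · exact hdeg w
          · norm_num
        · simp only [test]
          split_ifs <;> norm_num)
      h hn.h_pos hh1 M
  refine ⟨f, x', h1, h2, h3, h4, h5, h6, h7, h8.trans ?_⟩
  have hpot : 0 ≤ pot h M := by
    unfold pot
    exact sum_nonneg fun t _ => by positivity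
  apply mul_le_mul_of_nonneg_right _ hpot
  have h9 : 2 * (h * (3 * (16 * q) * (n + 1))) ^ 2 ≤ 4608 * h ^ 2 * q ^ 2 * L * (n + 1) := by
    have h10 : 2 * (h * (3 * (16 * q) * (n + 1))) ^ 2 =
      4608 * h ^ 2 * q ^ 2 * (n + 1) * (n + 1) := by ring
    rw [h10]
    apply mul_le_mul_of_nonneg_right _ (by positivity)
    apply mul_le_mul_of_nonneg_left hn1 (by positivity)
  have h11 := Real.add_one_le_exp (4608 * h ^ 2 * q ^ 2 * L * (n + 1))
  linarith

end Pool.Agent.PolyTree
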