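import Pool.Agent.PolyTree.StepSkip

/-!
# The items which are seeds
-/

set_option autoImplicit false

namespace Pool.Agent.PolyTree

open Finset

variable {V : Type} [Fintype V] [DecidableEq V]
variable {G : SimpleGraph V} [DecidableRel G.Adj] {m q L : ℕ} {p : ℕ → ℕ} {W : Finset ℕ}
  {top : ℕ → ℕ} {par : ℕ → Bool} {A : Bool → Finset V} {X0 X1 : Bool → ℝ} {Λ h : ℝ}
  {k : ℕ} {φ : ℕ → V} {x : V → ℝ} {M D : V ⊕ (V × V) ⊕ (V × Bool) → ℝ}

/-- Embedding a seed.

Proof. Let `v` be as in `State.exists_seed`, `φ' = Function.update φ k v` and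
`D' t = D t + test G m A t v / x v` (at most `D t + 16 q` by `State.x_pos` and `test_le_one`).
`{i ∈ range m | top i < k + 1} = insert k {i ∈ range m | top i < k}` (`Dec.top_eq_seed`,
`Dec.top_seed`), `φ' i = φ i` for `top i < k`, so `used (k + 1) φ' = insert v (used k φ)` and `S`
decreases by `test t v / x v`. For `i` with `top i < k`, `0 < i`: `p i ≠ k` (if `i ∈ W` then
`p i < i < k`; if `i ∉ W`, `p i ∈ W` then `top i = i < k`, `p i < k`; if `p i ∉ W` then
`p i ≠ k ∈ W`). `good`: `p t ∉ W`, so `top (p t) ≠ k` and `p t ≠ k`. The shrub vertices with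
`top i < k + 1` are those with `top i < k`. -/
theorem State.step_seed (hs : State G m q L p W top par A X0 X1 h k φ x M D)
    (hd : Dec m L p W top par) (hn : Num (Fintype.card V) m q L Λ h)
    (hc : Cls G m q A X0 X1) (hδ : ∀ v, (m / 2 : ℝ) ≤ G.degree v)
    (hX : ∑ i ∈ range m with i ∉ W, wt p top par X0 X1 i / m ≤ 1 - 1 / (8 * q))
    (hk : k ∈ W) (hkm : k < m) :
    ∃ (φ' : ℕ → V) (D' : V ⊕ (V × V) ⊕ (V × Bool) → ℝ),
      State G m q L p W top par A X0 X1 h (k + 1) φ' x M D' := by
  classical
  obtain ⟨v, hv1, hv2, hv3⟩ := hs.exists_seed hd hn hc hk hkm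
  have hxv := hs.x_pos hd hn hc hX v
  have hq : (0 : ℝ) < q := by exact_mod_cast hn.q_pos
  have hx0 : 0 < x v := lt_of_lt_of_le (by positivity) hxv
  have hxinv : 1 / x v ≤ 16 * q := by
    rw [div_le_iff₀ hx0]
    have h1 : (16 * q : ℝ) * (1 / (16 * q : ℝ)) ≤ 16 * q * x v := by gcongr
    rw [mul_one_div_cancel (by positivity)] at h1
    exact h1
  have htopk : top k = k := hd.top_seed k hk
  have hφk : Function.update φ k v k = v := Function.update_self _ _ _
  have hφn : ∀ i, i ≠ k → Function.update φ k v i = φ i := fun i hi =>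
    Function.update_of_ne hi _ _
  have hlt : ∀ i, top i < k + 1 → top i < k ∨ i = k := by
    intro i hi
    by_cases h1 : top i < k
    · exact Or.inl h1
    · exact Or.inr (hd.top_eq_seed hk (by omega))
  have hne : ∀ i, top i < k → i ≠ k := by
    intro i hi h'
    rw [h', htopk] at hi
    omega
  have hused : used m top (k + 1) (Function.update φ k v) = insert v (used m top k φ) := by
    ext w
    simp only [used, mem_insert, mem_image, mem_filter, mem_range]
    constructor
    · rintro ⟨i, ⟨him, hi⟩, rfl⟩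
      rcases hlt i hi with h1 | h1
      · right
        exact ⟨i, ⟨him, h1⟩, (hφn i (hne i h1)).symm⟩
      · left
        rw [h1, hφk]
    · rintro (rfl | ⟨i, ⟨him, hi⟩, rfl⟩)
      · exact ⟨k, ⟨hkm, by omega⟩, hφk⟩
      · exact ⟨i, ⟨him, by omega⟩, hφn i (hne i hi)⟩
  have hmem_used : ∀ i < m, top i < k → φ i ∈ used m top k φ := by
    intro i him hi
    exact mem_image_of_mem φ (mem_filter.2 ⟨mem_range.2 him, hi⟩)
  have hpar : ∀ i, 0 < i → top i < k → p i ≠ k := by
    intro i hi0 hi hpi
    have h3 := hd.hp i hi0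
    by_cases h1 : i ∈ W
    · rw [hd.top_seed i h1] at hi
      omega
    · have h2 := hd.top_top i h1 (hpi ▸ hk)
      omega
  have hfilter : ({i ∈ range m | i ∉ W ∧ top i < k + 1} : Finset ℕ) =
      {i ∈ range m | i ∉ W ∧ top i < k} := by
    ext i
    simp only [mem_filter, mem_range]
    constructor
    · rintro ⟨h1, h2, h3⟩
      rcases hlt i h3 with h4 | h4
      · exact ⟨h1, h2, h4⟩
      · exact absurd hk (h4 ▸ h2)
    · rintro ⟨h1, h2, h3⟩
      exact ⟨h1, h2, by omega⟩
  have hS : ∀ t, S (insert v (used m top k φ)) x (test G m A t) =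
      S (used m top k φ) x (test G m A t) - test G m A t v / x v := by
    intro t
    unfold S
    have h1 : (used m top k φ)ᶜ = insert v (insert v (used m top k φ))ᶜ := by
      ext w
      simp only [mem_compl, mem_insert, not_or]
      by_cases hw : w = v
      · simp [hw, hv1]
      · simp [hw]
    rw [h1, sum_insert (by simp)]
    ring
  refine ⟨Function.update φ k v, fun t => D t + test G m A t v / x v, ?_, ?_, ?_, ?_, hs.x_le,
    ?_, ?_, ?_, ?_, ?_⟩
  · intro i him i' him' hi hi' hii
    rcases hlt i hi with h1 | h1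
    · rcases hlt i' hi' with h2 | h2
      · rw [hφn i (hne i h1), hφn i' (hne i' h2)] at hii
        exact hs.inj i him i' him' h1 h2 hii
      · rw [hφn i (hne i h1), h2, hφk] at hii
        exact absurd (hii ▸ hmem_used i him h1) hv1
    · rcases hlt i' hi' with h2 | h2
      · rw [hφn i' (hne i' h2), h1, hφk] at hii
        exact absurd (hii ▸ hmem_used i' him' h2) hv1
      · rw [h1, h2]
  · intro i hi0 him hi
    rcases hlt i hi with h1 | h1
    · rw [hφn i (hne i h1), hφn (p i) (hpar i hi0 h1)]
      exact hs.adj i hi0 him h1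
    · subst h1
      have h2 := hd.hp i hi0
      rw [hφk, hφn (p i) (by omega)]
      exact hv3 hi0
  · intro i hiW him hi
    by_cases h1 : i = k
    · rw [h1, hφk]
      exact hv2
    · rw [hφn i h1]
      exact hs.seed i hiW him (by omega)
  · intro t htW ht0 htm hpt htop
    have h1 : p t ≠ k := fun h' => hpt (h' ▸ hk)
    rw [hφn _ h1]
    refine hs.good t htW ht0 htm hpt ?_
    rcases hlt _ htop with h2 | h2
    · exact h2
    · exact absurd h2 h1
  · intro w
    rw [hfilter]
    exact hs.x_ge w
  · intro t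
    rw [hused, hS t, hs.S_eq t]
    ring
  · intro t
    have h1 := hs.D_nonneg t
    have h2 := test_nonneg (G := G) (m := m) (A := A) t v
    positivity
  · intro t
    have h1 := hs.D_le t
    have h2 := test_le_one (A := A) hδ t v
    have h3 : test G m A t v / x v ≤ 16 * q := by
      refine le_trans ?_ hxinv
      gcongr
    have h4 : #{i ∈ W | i < k + 1} = #{i ∈ W | i < k} + 1 := by
      have h5 : ({i ∈ W | i < k + 1} : Finset ℕ) = insert k {i ∈ W | i < k} := by
        ext i
        simp only [mem_filter, mem_insert]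
        constructor
        · rintro ⟨h6, h7⟩
          by_cases h8 : i = k
          · exact Or.inl h8
          · exact Or.inr ⟨h6, by omega⟩
        · rintro (rfl | ⟨h6, h7⟩)
          · exact ⟨hk, by omega⟩
          · exact ⟨h6, by omega⟩
      rw [h5, card_insert_of_notMem (by simp)]
    rw [h4]
    push_cast
    linarith
  · rw [hfilter]
    exact hs.pot_le

end Pool.Agent.PolyTree
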