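import Pool.Agent.PolyTree.Dev
import Pool.Agent.PolyTree.DecTop

/-!
# The items which are skipped, and the existence of the image of a seed
-/

set_option autoImplicit false

namespace Pool.Agent.PolyTree

open Finset

variable {V : Type} [Fintype V] [DecidableEq V]
variable {G : SimpleGraph V} [DecidableRel G.Adj] {m q L : ℕ} {p : ℕ → ℕ} {W : Finset ℕ}
  {top : ℕ → ℕ} {par : ℕ → Bool} {A : Bool → Finset V} {X0 X1 : Bool → ℝ} {Λ h : ℝ}
  {k : ℕ} {φ : ℕ → V} {x : V → ℝ} {M D : V ⊕ (V × V) ⊕ (V × Bool) → ℝ}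

/-- An item which is neither a seed nor a top changes nothing.

Proof. By `Dec.top_ne`, `top i < k + 1` iff `top i < k` for all `i`; for `i ∈ W`, `i < k + 1` iff
`i < k`, as `k ∉ W`. -/
theorem State.skip (hs : State G m q L p W top par A X0 X1 h k φ x M D)
    (hd : Dec m L p W top par) (hk : k ∉ W) (hpk : p k ∉ W) :
    State G m q L p W top par A X0 X1 h (k + 1) φ x M D := by
  have ht : ∀ i, top i < k + 1 ↔ top i < k := fun i => by
    have h1 := hd.top_ne hk hpk i
    omega
  have hw : ∀ i ∈ W, (i < k + 1 ↔ i < k) := fun i hi => by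
    have h1 : i ≠ k := fun h2 => hk (h2 ▸ hi)
    omega
  have hu : used m top (k + 1) φ = used m top k φ := by
    unfold used
    congr 1
    exact Finset.filter_congr fun i _ => ht i
  have hf : {i ∈ range m | i ∉ W ∧ top i < k + 1} = {i ∈ range m | i ∉ W ∧ top i < k} :=
    Finset.filter_congr fun i _ => by rw [ht]
  have hg : {i ∈ W | i < k + 1} = {i ∈ W | i < k} :=
    Finset.filter_congr fun i hi => hw i hi
  refine ⟨?_, ?_, ?_, ?_, hs.x_le, ?_, ?_, hs.D_nonneg, ?_, ?_⟩
  · intro i hi j hj h1 h2 h3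
    exact hs.inj i hi j hj ((ht i).1 h1) ((ht j).1 h2) h3
  · intro i h0 hi h1
    exact hs.adj i h0 hi ((ht i).1 h1)
  · intro i hi him h1
    exact hs.seed i hi him ((hw i hi).1 h1)
  · intro t h1 h2 h3 h4 h5
    exact hs.good t h1 h2 h3 h4 ((ht _).1 h5)
  · intro v
    have h1 := hs.x_ge v
    rw [hf]
    exact h1
  · intro t
    rw [hu]
    exact hs.S_eq t
  · intro t
    rw [hg]
    exact hs.D_le t
  · rw [hf]
    exact hs.pot_le

/-- There is an unused point for a seed.

Proof. `k = 0`: nothing is used, take a point of `A (par 0)`. `0 < k`: let `u = φ (p k)`. Then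
`Λ < #(N(u) ∩ A (par k))`: if `p k ∈ W` then `u ∈ A (par (p k))` (`State.seed`),
`par k = !par (p k)` and by `Cls.nbr` the number is at least `N / (2 ^ 22 q ^ 6) >
N / (2 ^ 35 q ^ 8) ≥ Λ`; if `p k ∉ W` then `top (p k) ≤ p k < k`, `u ∉ Bad G q A (par k)` by
`State.good`, so the number is larger than `N / (2 ^ 35 q ^ 8) ≥ Λ`. By `State.dev` for the test
function `inr (inr (u, par k))`, whose sum is this number, `S (used ..) x (test ..) > 0`, so some
unused `v` has `test v ≠ 0`. -/
theorem State.exists_seed (hs : State G m q L p W top par A X0 X1 h k φ x M D)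
    (hd : Dec m L p W top par) (hn : Num (Fintype.card V) m q L Λ h)
    (hc : Cls G m q A X0 X1) (hk : k ∈ W) (hkm : k < m) :
    ∃ v, v ∉ used m top k φ ∧ v ∈ A (par k) ∧ (0 < k → G.Adj v (φ (p k))) := by
  rcases Nat.eq_zero_or_pos k with hk0 | hk0
  · subst hk0
    obtain ⟨v, hv⟩ := hc.nonempty (par 0)
    refine ⟨v, ?_, hv, fun h0 => absurd h0 (lt_irrefl _)⟩
    unfold used
    rw [Finset.filter_false_of_mem (fun i _ => Nat.not_lt_zero _), Finset.image_empty]
    exact Finset.notMem_empty _
  · have hpk := hd.hp k hk0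
    have hq : (1 : ℝ) ≤ q := by exact_mod_cast hn.q_pos
    have hN : (0 : ℝ) < Fintype.card V := by
      have h1 := hn.m_pos
      have h2 := hn.m_le
      exact_mod_cast (by omega : 0 < Fintype.card V)
    have hJ : Λ < (#(G.neighborFinset (φ (p k)) ∩ A (par k)) : ℝ) := by
      by_cases h1 : p k ∈ W
      · have h2 := hc.nbr (par (p k)) (φ (p k)) (hs.seed (p k) h1 (by omega) hpk)
        rw [← hd.par_eq k hk0] at h2
        have h3 : (Fintype.card V : ℝ) / (2 ^ 35 * q ^ 8) <
            (Fintype.card V : ℝ) / (2 ^ 22 * q ^ 6) := by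
          refine div_lt_div_of_pos_left hN (by positivity) ?_
          have h4 : (q : ℝ) ^ 6 ≤ q ^ 8 := pow_le_pow_right₀ hq (by norm_num)
          have h5 : (0 : ℝ) < q ^ 6 := by positivity
          nlinarith
        exact (hn.Λ_le'.trans_lt h3).trans_le h2
      · have h2 := hs.good k hk hk0 hkm h1 ((hd.top_le (p k)).trans_lt hpk)
        unfold Bad at h2
        rw [Finset.mem_filter, not_and, not_le] at h2
        exact hn.Λ_le'.trans_lt (h2 (Finset.mem_univ _))
    have hsum : ∑ v, test G m A (Sum.inr (Sum.inr (φ (p k), par k))) v =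
        (#(G.neighborFinset (φ (p k)) ∩ A (par k)) : ℝ) := by
      unfold test
      simp only
      rw [Finset.sum_boole]
      congr 2
      ext v
      rw [Finset.mem_filter, Finset.mem_inter, G.mem_neighborFinset]
      exact ⟨fun h1 => h1.2, fun h1 => ⟨Finset.mem_univ _, h1⟩⟩
    have hdev := hs.dev hd hn (Sum.inr (Sum.inr (φ (p k), par k)))
    rw [hsum] at hdev
    have hS : 0 < S (used m top k φ) x (test G m A (Sum.inr (Sum.inr (φ (p k), par k)))) := by
      have h1 := neg_le_of_abs_le hdev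
      linarith
    unfold S at hS
    obtain ⟨v, hv, hv0⟩ := Finset.exists_ne_zero_of_sum_ne_zero hS.ne'
    refine ⟨v, Finset.mem_compl.1 hv, ?_⟩
    have h1 : G.Adj (φ (p k)) v ∧ v ∈ A (par k) := by
      by_contra h2
      apply hv0
      unfold test
      simp only
      rw [if_neg h2, zero_div]
    exact ⟨h1.2, fun _ => h1.1.symm⟩

end Pool.Agent.PolyTree
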